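import Pool.Agent.Helper23.VDefs

/-!
# Module V-6 (project V, MP_357da3): elements of `Rk` and the implementing unitary
-/

open scoped InnerProductSpace Topology ENNReal BoundedContinuousFunction
open ContinuousLinearMap Filter MeasureTheory

namespace Pool.Agent.Helper23

universe u

variable {H : Type u} [NormedAddCommGroup H] [InnerProductSpace ℂ H] [CompleteSpace H]
variable {M N : VonNeumannAlgebra H} {ξ : H} {E : (H →L[ℂ] H) → (H →L[ℂ] H)}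
variable {R : H →L[ℂ] H} {D : H →L[ℝ] H} {Ψ : (ℝ →ᵇ ℂ) →⋆ₐ[ℂ] (H →L[ℂ] H)}

namespace CommW

/-- the inverse of `WW` -/
noncomputable def WI (Ψ : (ℝ →ᵇ ℂ) →⋆ₐ[ℂ] (H →L[ℂ] H)) : L2R H →L[ℂ] L2R H :=
  fco fun t : ℝ => Ψ (expB (-(2 * Real.pi * t)))

lemma comm_lift (S : Setting M N E ξ) (hΨ : Modular M ξ R D Ψ)
    (hσ : ∀ (t : ℝ), ∀ a ∈ N, Ψ (expB t) * a * Ψ (expB (-t)) ∈ N) {X : L2R H →L[ℂ] L2R H}
    (hX : X ∈ Rk M N ξ) {b : H →L[ℂ] H} (hb : b ∈ N) :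
    WW Ψ * lift b * WI Ψ * X = X * (WW Ψ * lift b * WI Ψ) := by
  obtain ⟨u, k, hk, hu⟩ := exists_unitaries N hb
  have hl : WW Ψ * lift b * WI Ψ = ∑ i, k i • (WW Ψ * lift (u i) * WI Ψ) := by
    rw [hk, Fin.sum_univ_four, Fin.sum_univ_four, lift_add, lift_add, lift_add, lift_smul,
      lift_smul, lift_smul, lift_smul]
    simp only [mul_add, add_mul, mul_smul_comm, smul_mul_assoc]
  rw [hl, Finset.sum_mul, Finset.mul_sum]
  refine Finset.sum_congr rfl fun i _ => ?_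
  have h1 : WW Ψ * lift (u i) * WI Ψ ∈ GK N ξ := by
    have h2 := S.fco_mem_GK hΨ hσ (hu i).1 (hu i).2.1 (hu i).2.2
    rw [hΨ.conj_eq] at h2
    exact h2
  rw [smul_mul_assoc, mul_smul_comm, hX.2 _ h1]

end CommW

open CommW in
theorem Setting.rk_comm_WW (S : Setting M N E ξ) (hΨ : Modular M ξ R D Ψ)
    (hσ : ∀ (t : ℝ), ∀ a ∈ N, Ψ (expB t) * a * Ψ (expB (-t)) ∈ N) {X : L2R H →L[ℂ] L2R H}
    (hX : X ∈ Rk M N ξ) {b : H →L[ℂ] H} (hb : b ∈ N) (f g : L2R ℂ) :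
    ⟪(star X) (ten f ξ), WW Ψ (ten g (b ξ))⟫_ℂ = ⟪WW Ψ (ten f ((star b) ξ)), X (ten g ξ)⟫_ℂ := by
  have hW : star (WW Ψ) = WI Ψ := hΨ.W_star
  have hW' : star (WI Ψ) = WW Ψ := by rw [← hW, star_star]
  have h1 : ∀ (c : H →L[ℂ] H) (h : L2R ℂ), WW Ψ (ten h (c ξ)) =
      (WW Ψ * lift c * WI Ψ) (ten h ξ) := by
    intro c h
    change _ = WW Ψ (lift c (WI Ψ (ten h ξ)))
    have h2 : WI Ψ (ten h ξ) = ten h ξ := hΨ.W'_ten h
    rw [h2, lift_ten]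
  have h3 : star (WW Ψ * lift b * WI Ψ) = WW Ψ * lift (star b) * WI Ψ := by
    rw [star_mul, star_mul, hW, hW', lift_star, mul_assoc]
  have h4 := DFunLike.congr_fun (comm_lift S hΨ hσ hX hb) (ten g ξ)
  rw [inner_star_left, h1 b g]
  change ⟪ten f ξ, (X * (WW Ψ * lift b * WI Ψ)) (ten g ξ)⟫_ℂ = _
  rw [← h4, h1 (star b) f, ← h3, inner_star_left]
  rfl

end Pool.Agent.Helper23
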