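import Pool.Agent.Helper23.VDefs

/-!
# V-4: conjugation of the relative commutant by the modular group
-/

open scoped InnerProductSpace Topology ENNReal BoundedContinuousFunction
open ContinuousLinearMap Filter MeasureTheory

namespace Pool.Agent.Helper23

universe u

variable {H : Type u} [NormedAddCommGroup H] [InnerProductSpace ℂ H] [CompleteSpace H]
variable {M N : VonNeumannAlgebra H} {ξ : H} {E : (H →L[ℂ] H) → (H →L[ℂ] H)}
variable {R : H →L[ℂ] H} {D : H →L[ℝ] H} {Ψ : (ℝ →ᵇ ℂ) →⋆ₐ[ℂ] (H →L[ℂ] H)}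

theorem slX_conj (u w : H →L[ℂ] H) (X : L2R H →L[ℂ] L2R H) (f g : L2R ℂ) :
    slX (lift u * X * lift w) f g = u * slX X f g * w := by
  ext η
  change sl f (lift u (X (lift w (ten g η)))) = u (sl f (X (ten g (w η))))
  rw [sl_lift, lift_ten]

namespace ConjV

lemma U_mul (Ψ : (ℝ →ᵇ ℂ) →⋆ₐ[ℂ] (H →L[ℂ] H)) (t : ℝ) :
    lift (Ψ (expB t)) * lift (Ψ (expB (-t))) = 1 := by
  rw [← lift_mul, psi_expB_mul, add_neg_cancel, Helper43.TTF.expB_zero, map_one, lift_one]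

lemma U_mul' (Ψ : (ℝ →ᵇ ℂ) →⋆ₐ[ℂ] (H →L[ℂ] H)) (t : ℝ) :
    lift (Ψ (expB (-t))) * lift (Ψ (expB t)) = 1 := by
  rw [← lift_mul, psi_expB_mul, neg_add_cancel, Helper43.TTF.expB_zero, map_one, lift_one]

lemma U_star (Ψ : (ℝ →ᵇ ℂ) →⋆ₐ[ℂ] (H →L[ℂ] H)) (t : ℝ) :
    star (lift (Ψ (expB t))) = lift (Ψ (expB (-t))) := by
  rw [← lift_star, ← map_star, Helper43.TTF.expB_star]

lemma U_ten (hΨ : Modular M ξ R D Ψ) (t : ℝ) (f : L2R ℂ) :
    lift (Ψ (expB t)) (ten f ξ) = ten f ξ := by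
  rw [lift_ten, hΨ.U_xi]

lemma U_norm (Ψ : (ℝ →ᵇ ℂ) →⋆ₐ[ℂ] (H →L[ℂ] H)) (t : ℝ) (F : L2R H) :
    ‖lift (Ψ (expB t)) F‖ = ‖F‖ := by
  have h1 : ⟪lift (Ψ (expB t)) F, lift (Ψ (expB t)) F⟫_ℂ = ⟪F, F⟫_ℂ := by
    rw [← inner_star_left, U_star]
    have := congrArg (fun T : L2R H →L[ℂ] L2R H => T F) (U_mul' Ψ t)
    change ⟪(lift (Ψ (expB (-t)))) ((lift (Ψ (expB t))) F), F⟫_ℂ = _
    change (lift (Ψ (expB (-t)))) ((lift (Ψ (expB t))) F) = F at this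
    rw [this]
  rw [inner_self_eq_norm_sq_to_K, inner_self_eq_norm_sq_to_K] at h1
  have h2 : ‖lift (Ψ (expB t)) F‖ ^ 2 = ‖F‖ ^ 2 := by exact_mod_cast h1
  exact (sq_eq_sq₀ (norm_nonneg _) (norm_nonneg _)).1 h2

lemma amp_conj {A : VonNeumannAlgebra H} {t : ℝ}
    (hσ : ∀ a ∈ A, Ψ (expB t) * a * Ψ (expB (-t)) ∈ A) {X : L2R H →L[ℂ] L2R H}
    (hX : X ∈ amp A) : lift (Ψ (expB t)) * X * lift (Ψ (expB (-t))) ∈ amp A := by
  refine mem_amp_of_slX fun f g => ?_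
  rw [slX_conj]
  exact hσ _ (slX_mem hX f g)

lemma GK_conj (hΨ : Modular M ξ R D Ψ)
    (hσ : ∀ (t : ℝ), ∀ a ∈ N, Ψ (expB t) * a * Ψ (expB (-t)) ∈ N) (t : ℝ)
    {u : L2R H →L[ℂ] L2R H} (hu : u ∈ GK N ξ) :
    lift (Ψ (expB (-t))) * u * lift (Ψ (expB t)) ∈ GK N ξ := by
  obtain ⟨h1, h2, h3, h4⟩ := hu
  have hs : star (lift (Ψ (expB (-t))) * u * lift (Ψ (expB t))) =
      lift (Ψ (expB (-t))) * star u * lift (Ψ (expB t)) := by
    rw [star_mul, star_mul, U_star, U_star, neg_neg, mul_assoc]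
  refine ⟨?_, ?_, ?_, ?_⟩
  · have := amp_conj (Ψ := Ψ) (t := -t) (hσ (-t)) h1
    rwa [neg_neg] at this
  · rw [hs]
    calc _ = lift (Ψ (expB (-t))) * star u * (lift (Ψ (expB t)) * lift (Ψ (expB (-t)))) * u *
          lift (Ψ (expB t)) := by simp only [mul_assoc]
      _ = lift (Ψ (expB (-t))) * (star u * u) * lift (Ψ (expB t)) := by
          rw [U_mul, mul_one]; simp only [mul_assoc]
      _ = 1 := by rw [h2, mul_one, U_mul']
  · rw [hs]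
    calc _ = lift (Ψ (expB (-t))) * u * (lift (Ψ (expB t)) * lift (Ψ (expB (-t)))) * star u *
          lift (Ψ (expB t)) := by simp only [mul_assoc]
      _ = lift (Ψ (expB (-t))) * (u * star u) * lift (Ψ (expB t)) := by
          rw [U_mul, mul_one]; simp only [mul_assoc]
      _ = 1 := by rw [h3, mul_one, U_mul']
  · intro Y hY
    have h5 := h4 _ (amp_conj (hσ t) hY)
    have e1 : SX ξ (Y * (lift (Ψ (expB (-t))) * u * lift (Ψ (expB t)))) =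
        SX ξ (lift (Ψ (expB t)) * Y * lift (Ψ (expB (-t))) * u) := by
      rw [SX_def, SX_def]
      refine tsum_congr fun j => ?_
      have e2 : (Y * (lift (Ψ (expB (-t))) * u * lift (Ψ (expB t)))) (ten (gJ j) ξ) =
          Y (lift (Ψ (expB (-t))) (u (ten (gJ j) ξ))) := by
        change Y (lift (Ψ (expB (-t))) (u (lift (Ψ (expB t)) (ten (gJ j) ξ)))) = _
        rw [U_ten hΨ]
      have e3 : (lift (Ψ (expB t)) * Y * lift (Ψ (expB (-t))) * u) (ten (gJ j) ξ) =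
          lift (Ψ (expB t)) (Y (lift (Ψ (expB (-t))) (u (ten (gJ j) ξ)))) := rfl
      rw [e2, e3, U_norm]
    have e4 : SX ξ (lift (Ψ (expB t)) * Y * lift (Ψ (expB (-t)))) = SX ξ Y := by
      rw [SX_def, SX_def]
      refine tsum_congr fun j => ?_
      have e5 : (lift (Ψ (expB t)) * Y * lift (Ψ (expB (-t)))) (ten (gJ j) ξ) =
          lift (Ψ (expB t)) (Y (ten (gJ j) ξ)) := by
        change lift (Ψ (expB t)) (Y (lift (Ψ (expB (-t))) (ten (gJ j) ξ))) = _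
        rw [U_ten hΨ]
      rw [e5, U_norm]
    rw [e1, h5, e4]

end ConjV

open ConjV

theorem Setting.Rk_conj (S : Setting M N E ξ) (hΨ : Modular M ξ R D Ψ)
    (hσ : ∀ (t : ℝ), ∀ a ∈ N, Ψ (expB t) * a * Ψ (expB (-t)) ∈ N) {X : L2R H →L[ℂ] L2R H}
    (hX : X ∈ Rk M N ξ) (t : ℝ) :
    lift (Ψ (expB t)) * X * lift (Ψ (expB (-t))) ∈ Rk M N ξ := by
  refine ⟨amp_conj (hΨ.mem t) hX.1, fun u hu => ?_⟩
  have h1 := hX.2 _ (GK_conj hΨ hσ t hu)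
  calc u * (lift (Ψ (expB t)) * X * lift (Ψ (expB (-t)))) 
      = (lift (Ψ (expB t)) * lift (Ψ (expB (-t)))) * u * lift (Ψ (expB t)) * X *
          lift (Ψ (expB (-t))) := by rw [U_mul, one_mul]; simp only [mul_assoc]
    _ = lift (Ψ (expB t)) * ((lift (Ψ (expB (-t))) * u * lift (Ψ (expB t))) * X) *
          lift (Ψ (expB (-t))) := by simp only [mul_assoc]
    _ = lift (Ψ (expB t)) * (X * (lift (Ψ (expB (-t))) * u * lift (Ψ (expB t)))) *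
          lift (Ψ (expB (-t))) := by rw [h1]
    _ = lift (Ψ (expB t)) * X * lift (Ψ (expB (-t))) * u *
          (lift (Ψ (expB t)) * lift (Ψ (expB (-t)))) := by simp only [mul_assoc]
    _ = lift (Ψ (expB t)) * X * lift (Ψ (expB (-t))) * u := by rw [U_mul, mul_one]

namespace ConjV

lemma inner_E (S : Setting M N E ξ) {y x : H →L[ℂ] H} (hy : y ∈ N) (hx : x ∈ M) :
    ⟪y ξ, E x ξ⟫_ℂ = ⟪y ξ, x ξ⟫_ℂ := by
  have hys : star y ∈ N := star_mem hy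
  have h1 := S.E_bimod (star y) hys 1 (one_mem N) x hx
  rw [mul_one, mul_one] at h1
  have h2 := S.E_state (star y * x) (mul_mem (S.le _ hys) hx)
  rw [h1] at h2
  have h3 : ∀ z : H →L[ℂ] H, ⟪ξ, (star y * z) ξ⟫_ℂ = ⟪y ξ, z ξ⟫_ℂ := by
    intro z
    change ⟪ξ, (star y) (z ξ)⟫_ℂ = _
    rw [inner_star_right]
  rwa [h3, h3] at h2

end ConjV

theorem Setting.E_conj (S : Setting M N E ξ) (hΨ : Modular M ξ R D Ψ)
    (hσ : ∀ (t : ℝ), ∀ a ∈ N, Ψ (expB t) * a * Ψ (expB (-t)) ∈ N) {x : H →L[ℂ] H} (hx : x ∈ M)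
    (t : ℝ) : E (Ψ (expB t) * x * Ψ (expB (-t))) = Ψ (expB t) * E x * Ψ (expB (-t)) := by
  set z := E (Ψ (expB t) * x * Ψ (expB (-t))) - Ψ (expB t) * E x * Ψ (expB (-t)) with hz
  have hzN : z ∈ N := sub_mem (S.E_mem _ (hΨ.mem t x hx)) (hσ t _ (S.E_mem _ hx))
  have hxi : ∀ w : H →L[ℂ] H, (Ψ (expB t) * w * Ψ (expB (-t))) ξ = Ψ (expB t) (w ξ) := by
    intro w
    change Ψ (expB t) (w (Ψ (expB (-t)) ξ)) = _
    rw [hΨ.U_xi]
  have hyN : Ψ (expB (-t)) * z * Ψ (expB t) ∈ N := by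
    have := hσ (-t) z hzN
    rwa [neg_neg] at this
  have hyxi : (Ψ (expB (-t)) * z * Ψ (expB t)) ξ = Ψ (expB (-t)) (z ξ) := by
    change Ψ (expB (-t)) (z (Ψ (expB t) ξ)) = _
    rw [hΨ.U_xi]
  have h1 : ⟪z ξ, z ξ⟫_ℂ = 0 := by
    have e1 : z ξ = E (Ψ (expB t) * x * Ψ (expB (-t))) ξ -
        (Ψ (expB t) * E x * Ψ (expB (-t))) ξ := by rw [hz, sub_apply]
    have e2 : ⟪z ξ, z ξ⟫_ℂ = ⟪z ξ, E (Ψ (expB t) * x * Ψ (expB (-t))) ξ⟫_ℂ -
        ⟪z ξ, (Ψ (expB t) * E x * Ψ (expB (-t))) ξ⟫_ℂ := by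
      rw [← inner_sub_right, ← e1]
    rw [e2, inner_E S hzN (hΨ.mem t x hx), hxi, hxi, ← psi_expB_adj, ← psi_expB_adj, ← hyxi,
      inner_E S hyN hx, sub_self]
  have h2 : z ξ = 0 := inner_self_eq_zero.1 h1
  exact sub_eq_zero.1 (S.sep z (S.le _ hzN) h2)

end Pool.Agent.Helper23
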