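import Pool.Agent.Helper23.VDefs

/-!
# Operations on families translated by asymptotic eigenoperators
-/

open scoped InnerProductSpace Topology ENNReal BoundedContinuousFunction
open ContinuousLinearMap Filter MeasureTheory

namespace Pool.Agent.Helper23

variable {H : Type*} [NormedAddCommGroup H] [InnerProductSpace ℂ H] [CompleteSpace H]
variable {M N : VonNeumannAlgebra H} {ξ : H} {E : (H →L[ℂ] H) → (H →L[ℂ] H)}

namespace FamOps

open Helper43.TTF (p0 p0_eq)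

lemma E_xi (S : Setting M N E ξ) {x : H →L[ℂ] H} (hx : x ∈ M) : E x ξ = p0 N ξ (x ξ) :=
  (Helper43.TTF.E_apply S hx).symm

lemma ext_N (S : Setting M N E ξ) {x y : H →L[ℂ] H} (hx : x ∈ N) (hy : y ∈ N)
    (h : x ξ = y ξ) : x = y :=
  eq_of_dense M S.dense_comm (S.le _ hx) (S.le _ hy) h

lemma E_sub (S : Setting M N E ξ) {x y : H →L[ℂ] H} (hx : x ∈ M) (hy : y ∈ M) :
    E (x - y) = E x - E y := by
  refine ext_N S (S.E_mem _ (sub_mem hx hy)) (sub_mem (S.E_mem _ hx) (S.E_mem _ hy)) ?_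
  rw [E_xi S (sub_mem hx hy), sub_apply, map_sub, sub_apply, E_xi S hx, E_xi S hy]

lemma E_starM (S : Setting M N E ξ) {x : H →L[ℂ] H} (hx : x ∈ M) :
    star (E x) = E (star x) := by
  refine ext_N S (star_mem (S.E_mem _ hx)) (S.E_mem _ (star_mem hx)) ?_
  rw [E_xi S (star_mem hx)]
  symm
  refine p0_eq (mem_K0 (star_mem (S.E_mem _ hx))) fun b hb => ?_
  rw [inner_star_right, inner_star_right]
  have h2 := S.E_inner (one_mem N) hb hx
  rw [one_apply_eq_self] at h2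
  rw [← inner_conj_symm, h2, inner_conj_symm]

lemma E_xi_norm (S : Setting M N E ξ) {x : H →L[ℂ] H} (hx : x ∈ M) : ‖E x ξ‖ ≤ ‖x ξ‖ := by
  rw [E_xi S hx]
  exact Submodule.norm_starProjection_apply_le _ _

lemma slX_norm_apply (X : L2R H →L[ℂ] L2R H) (f g : L2R ℂ) (η : H) :
    ‖slX X f g η‖ ≤ ‖X‖ * (‖f‖ * ‖g‖) * ‖η‖ := by
  have e1 : ‖slX X f g η‖ ^ 2 ≤ ‖slX X f g η‖ * (‖X‖ * (‖f‖ * ‖g‖) * ‖η‖) := by
    have e2 := inner_slX X f g (slX X f g η) η
    have e3 : ‖⟪slX X f g η, slX X f g η⟫_ℂ‖ = ‖slX X f g η‖ ^ 2 := by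
      rw [inner_self_eq_norm_sq_to_K]
      simp
    rw [← e3, e2]
    refine (norm_inner_le_norm _ _).trans ?_
    rw [norm_ten]
    have e4 : ‖X (ten g η)‖ ≤ ‖X‖ * (‖g‖ * ‖η‖) := by
      refine (X.le_opNorm _).trans ?_
      rw [norm_ten]
    calc ‖f‖ * ‖slX X f g η‖ * ‖X (ten g η)‖ ≤ ‖f‖ * ‖slX X f g η‖ * (‖X‖ * (‖g‖ * ‖η‖)) := by
          gcongr
      _ = _ := by ring
  by_contra hcon
  push Not at hcon
  have e2 : 0 ≤ ‖X‖ * (‖f‖ * ‖g‖) * ‖η‖ := by positivity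
  nlinarith [norm_nonneg (slX X f g η)]

lemma slX_norm_le (X : L2R H →L[ℂ] L2R H) (f g : L2R ℂ) :
    ‖slX X f g‖ ≤ ‖X‖ * (‖f‖ * ‖g‖) :=
  ContinuousLinearMap.opNorm_le_bound _ (by positivity) fun η => slX_norm_apply X f g η

lemma slX_starM (X : L2R H →L[ℂ] L2R H) (f g : L2R ℂ) :
    star (slX X f g) = slX (star X) g f := by
  ext ζ
  refine ext_inner_left ℂ fun η => ?_
  rw [inner_star_right, inner_slX, inner_star_right, ← inner_conj_symm, inner_slX,
    inner_conj_symm]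

lemma slX_tr_cont (X : L2R H →L[ℂ] L2R H) (f g : L2R ℂ) (η : H) :
    Continuous fun t : ℝ => slX X (tr ℂ t f) (tr ℂ t g) η := by
  rw [continuous_iff_continuousAt]
  intro t
  rw [ContinuousAt, tendsto_iff_norm_sub_tendsto_zero]
  have h1 : Tendsto (fun u : ℝ => ‖X‖ * (‖tr ℂ u f - tr ℂ t f‖ * ‖g‖ +
      ‖f‖ * ‖tr ℂ u g - tr ℂ t g‖) * ‖η‖) (𝓝 t) (𝓝 0) := by
    have e1 : Tendsto (fun u : ℝ => ‖tr ℂ u f - tr ℂ t f‖) (𝓝 t) (𝓝 0) :=
      tendsto_iff_norm_sub_tendsto_zero.1 ((tr_continuous f).tendsto t)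
    have e2 : Tendsto (fun u : ℝ => ‖tr ℂ u g - tr ℂ t g‖) (𝓝 t) (𝓝 0) :=
      tendsto_iff_norm_sub_tendsto_zero.1 ((tr_continuous g).tendsto t)
    have e3 := (((e1.mul_const ‖g‖).add (e2.const_mul ‖f‖)).const_mul ‖X‖).mul_const ‖η‖
    simpa using e3
  refine squeeze_zero (fun _ => norm_nonneg _) (fun u => ?_) h1
  have := slX_norm_sub X (tr ℂ u f) (tr ℂ u g) (tr ℂ t f) (tr ℂ t g) η
  rwa [tr_norm, tr_norm] at this

lemma E_bracket (S : Setting M N E ξ) {a x y : H →L[ℂ] H} (ha : a ∈ N) (hx : x ∈ M)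
    (hy : y ∈ M) : a * E x - E y * a = E (a * x - y * a) := by
  have h1 := S.E_bimod _ ha _ (one_mem N) _ hx
  have h2 := S.E_bimod _ (one_mem N) _ ha _ hy
  rw [mul_one, mul_one] at h1
  rw [one_mul, one_mul] at h2
  rw [E_sub S (mul_mem (S.le _ ha) hx) (mul_mem hy (S.le _ ha)), h1, h2]

end FamOps

theorem Fam.mul {x y : ℝ → H →L[ℂ] H} (hx : Fam M N ξ x) (hy : Fam M N ξ y) :
    Fam M N ξ fun c => x c * y c := by
  obtain ⟨C, hC⟩ := hx.bdd
  obtain ⟨D, hD⟩ := hy.bdd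
  have hC0 : 0 ≤ C := (norm_nonneg _).trans (hC 0)
  refine ⟨fun c => mul_mem (hx.mem c) (hy.mem c), ⟨C * D, fun c =>
    (norm_mul_le _ _).trans (mul_le_mul (hC c) (hD c) (norm_nonneg _) hC0)⟩, fun η => ?_,
    fun c l hl a ha η => ?_⟩
  · rw [continuous_iff_continuousAt]
    intro t
    have h1 : Tendsto (fun u => C * ‖y u η - y t η‖ + ‖x u (y t η) - x t (y t η)‖)
        (𝓝 t) (𝓝 0) := by
      have e1 := (((hy.cont η).tendsto t).sub_const (y t η)).norm.const_mul C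
      have e2 := (((hx.cont (y t η)).tendsto t).sub_const (x t (y t η))).norm
      simpa using e1.add e2
    rw [ContinuousAt, tendsto_iff_norm_sub_tendsto_zero]
    refine squeeze_zero (fun _ => norm_nonneg _) (fun u => ?_) h1
    change ‖x u (y u η) - x t (y t η)‖ ≤ _
    calc ‖x u (y u η) - x t (y t η)‖
        = ‖x u (y u η - y t η) + (x u (y t η) - x t (y t η))‖ := by
          rw [map_sub]
          congr 1
          abel
      _ ≤ ‖x u (y u η - y t η)‖ + ‖x u (y t η) - x t (y t η)‖ := norm_add_le _ _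
      _ ≤ C * ‖y u η - y t η‖ + ‖x u (y t η) - x t (y t η)‖ := by
          gcongr
          exact (x u).le_of_opNorm_le (hC u) _
  · have h1 := hx.shift c l hl a ha (y c η)
    have h2 := hy.shift c l hl a ha η
    have h3 := ((x (c + Real.log l)).continuous.tendsto 0).comp h2
    rw [map_zero] at h3
    have h4 := h1.add h3
    rw [add_zero] at h4
    refine h4.congr fun n => ?_
    change a n (x c (y c η)) - x (c + Real.log l) (a n (y c η)) +
      x (c + Real.log l) (a n (y c η) - y (c + Real.log l) (a n η)) =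
      a n (x c (y c η)) - x (c + Real.log l) (y (c + Real.log l) (a n η))
    rw [map_sub]
    abel

theorem Setting.fam_E (S : Setting M N E ξ) {x : ℝ → H →L[ℂ] H} (hx : Fam M N ξ x) :
    Fam M N ξ fun c => E (x c) := by
  obtain ⟨C, hC⟩ := hx.bdd
  have hEC : ∀ c, ‖E (x c)‖ ≤ C := fun c => (S.E_norm (hx.mem c)).trans (hC c)
  have hEM : ∀ c, E (x c) ∈ M := fun c => S.le _ (S.E_mem _ (hx.mem c))
  refine ⟨hEM, ⟨C, hEC⟩, fun η => ?_, fun c l hl a ha η => ?_⟩
  · rw [continuous_iff_continuousAt]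
    intro t
    have h1 : Tendsto (fun u => (E (x u) - E (x t)) η) (𝓝 t) (𝓝 0) := by
      refine tendsto_of_bounded M S.dense_comm (C := C + C) (x := fun u => E (x u) - E (x t))
        (fun u => sub_mem (hEM u) (hEM t))
        (fun u => (norm_sub_le _ _).trans (add_le_add (hEC u) (hEC t))) ?_ η
      have h2 : Tendsto (fun u => ‖(x u - x t) ξ‖) (𝓝 t) (𝓝 0) := by
        have := (((hx.cont ξ).tendsto t).sub_const (x t ξ)).norm
        simpa using this
      refine squeeze_zero_norm (fun u => ?_) h2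
      rw [← FamOps.E_sub S (hx.mem u) (hx.mem t)]
      exact FamOps.E_xi_norm S (sub_mem (hx.mem u) (hx.mem t))
    have h3 := h1.add_const (E (x t) η)
    rw [zero_add] at h3
    refine h3.congr fun u => ?_
    rw [sub_apply, sub_add_cancel]
  · obtain ⟨haN, ⟨A, hA⟩, haD⟩ := ha
    have hA0 : 0 ≤ A := (norm_nonneg _).trans (hA 0)
    have hC0 : 0 ≤ C := (norm_nonneg _).trans (hC 0)
    refine tendsto_of_bounded M S.dense_comm (C := A * C + C * A)
      (x := fun n => a n * E (x c) - E (x (c + Real.log l)) * a n)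
      (fun n => sub_mem (mul_mem (S.le _ (haN n)) (hEM _)) (mul_mem (hEM _) (S.le _ (haN n))))
      (fun n => (norm_sub_le _ _).trans (add_le_add
        ((norm_mul_le _ _).trans (mul_le_mul (hA n) (hEC c) (norm_nonneg _) hA0))
        ((norm_mul_le _ _).trans (mul_le_mul (hEC _) (hA n) (norm_nonneg _) hC0)))) ?_ η
    have h2 := (hx.shift c l hl a ⟨haN, ⟨A, hA⟩, haD⟩ ξ).norm
    rw [norm_zero] at h2
    refine squeeze_zero_norm (fun n => ?_) h2
    rw [FamOps.E_bracket S (haN n) (hx.mem _) (hx.mem _)]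
    exact FamOps.E_xi_norm S (sub_mem (mul_mem (S.le _ (haN n)) (hx.mem _))
      (mul_mem (hx.mem _) (S.le _ (haN n))))

theorem Setting.fam_slX (S : Setting M N E ξ) {X : L2R H →L[ℂ] L2R H} (hX : X ∈ Rk M N ξ)
    (f g : L2R ℂ) : Fam M N ξ fun c => slX X (tr ℂ c f) (tr ℂ c g) := by
  refine ⟨fun c => slX_mem hX.1 _ _, ⟨‖X‖ * (‖f‖ * ‖g‖), fun c => ?_⟩,
    fun η => FamOps.slX_tr_cont X f g η, fun c l hl a ha η => ?_⟩
  · have := FamOps.slX_norm_le X (tr ℂ c f) (tr ℂ c g)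
    rwa [tr_norm, tr_norm] at this
  · have := S.slX_shift_all hX (tr ℂ c f) (tr ℂ c g) hl ha η
    rw [tr_tr, tr_tr, add_comm (Real.log l) c] at this
    exact this

theorem Setting.star_E_slX (S : Setting M N E ξ) {X : L2R H →L[ℂ] L2R H} (hX : X ∈ Rk M N ξ)
    (f g : L2R ℂ) : star (E (slX X f g)) = E (slX (star X) g f) := by
  rw [FamOps.E_starM S (slX_mem hX.1 f g), FamOps.slX_starM]

end Pool.Agent.Helper23
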