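import Pool.Agent.V.State
import Pool.Agent.V.FamOps
import Pool.Agent.V.Conj

/-!
# V-5: invariance of the Gaussian means of the modular group along translated families
-/

open scoped InnerProductSpace Topology ENNReal BoundedContinuousFunction
open ContinuousLinearMap Filter MeasureTheory

namespace Pool.Agent.Helper23

universe u

variable {H : Type u} [NormedAddCommGroup H] [InnerProductSpace ℂ H] [CompleteSpace H]
variable {M N : VonNeumannAlgebra H} {ξ : H} {E : (H →L[ℂ] H) → (H →L[ℂ] H)}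
variable {R : H →L[ℂ] H} {D : H →L[ℝ] H} {Ψ : (ℝ →ᵇ ℂ) →⋆ₐ[ℂ] (H →L[ℂ] H)}

namespace Inv

/-- the modular group applied to a slice -/
theorem psi_slice (S : Setting M N E ξ) (hΨ : Modular M ξ R D Ψ)
    (hσ : ∀ (t : ℝ), ∀ a ∈ N, Ψ (expB t) * a * Ψ (expB (-t)) ∈ N) {X : L2R H →L[ℂ] L2R H}
    (hX : X ∈ Rk M N ξ) (f g : L2R ℂ) (s : ℝ) :
    Ψ (expB s) (E (slX X f g) ξ) =
      E (slX (lift (Ψ (expB s)) * X * lift (Ψ (expB (-s)))) f g) ξ := by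
  rw [slX_conj, S.E_conj hΨ hσ (slX_mem hX.1 f g)]
  have h1 : Ψ (expB (-s)) ξ = ξ := by
    rw [hΨ.psi_xi]
    have h2 : expB (-s) 0 = 1 := by
      change Complex.exp (((-s) * 0 : ℝ) * Complex.I) = 1
      rw [mul_zero, Complex.ofReal_zero, zero_mul, Complex.exp_zero]
    rw [h2, one_smul]
  change _ = Ψ (expB s) (E (slX X f g) (Ψ (expB (-s)) ξ))
  rw [h1]

/-- the matrix coefficients of the modular group are invariant -/
theorem inv_exp (S : Setting M N E ξ) (hIII : TypeIIIOne N) (hΨ : Modular M ξ R D Ψ)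
    (hσ : ∀ (t : ℝ), ∀ a ∈ N, Ψ (expB t) * a * Ψ (expB (-t)) ∈ N) {X : L2R H →L[ℂ] L2R H}
    (hX : X ∈ Rk M N ξ) (f g : L2R ℂ) (c s : ℝ) :
    ⟪E (slX X (tr ℂ c f) (tr ℂ c g)) ξ,
      Ψ (expB s) (E (slX X (tr ℂ c f) (tr ℂ c g)) ξ)⟫_ℂ =
    ⟪E (slX X f g) ξ, Ψ (expB s) (E (slX X f g) ξ)⟫_ℂ := by
  have hXs := S.Rk_conj hΨ hσ hX s
  have key : ∀ f g : L2R ℂ, ⟪E (slX X f g) ξ, Ψ (expB s) (E (slX X f g) ξ)⟫_ℂ =
      ⟪ξ, (E (slX (star X) g f) *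
        E (slX (lift (Ψ (expB s)) * X * lift (Ψ (expB (-s)))) f g)) ξ⟫_ℂ := by
    intro f g
    rw [psi_slice S hΨ hσ hX, ← S.star_E_slX hX f g]
    change _ = ⟪ξ, star (E (slX X f g)) _⟫_ℂ
    rw [inner_star_right]
    rfl
  have hfam := (S.fam_E (S.fam_slX (Rk_star hX) g f)).mul (S.fam_E (S.fam_slX hXs f g))
  have h2 := S.fam_state hIII hfam c
  rw [key, key]
  rw [tr_zero] at h2
  exact h2

end Inv

theorem Setting.inv_gauss (S : Setting M N E ξ) (hIII : TypeIIIOne N) (hΨ : Modular M ξ R D Ψ)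
    (hσ : ∀ (t : ℝ), ∀ a ∈ N, Ψ (expB t) * a * Ψ (expB (-t)) ∈ N) {X : L2R H →L[ℂ] L2R H}
    (hX : X ∈ Rk M N ξ) (f g : L2R ℂ) (c : ℝ) {ε : ℝ} (hε : 0 < ε) (κ : ℝ) :
    ⟪E (slX X (tr ℂ c f) (tr ℂ c g)) ξ,
      Ψ (Helper70.U8.GB ε hε κ) (E (slX X (tr ℂ c f) (tr ℂ c g)) ξ)⟫_ℂ =
    ⟪E (slX X f g) ξ, Ψ (Helper70.U8.GB ε hε κ) (E (slX X f g) ξ)⟫_ℂ := by
  have hK : ∀ ρ, Helper70.U8.GB ε hε κ ρ =
      ∫ t, Helper70.U8.kg ε κ t * expB (2 * Real.pi * t) ρ := fun ρ => by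
    rw [Helper70.U8.GB_apply]
    exact Helper70.U8.kg_fourier hε κ ρ
  rw [← hΨ.integral_psi (Helper70.U8.kg_int hε κ) hK, ← hΨ.integral_psi (Helper70.U8.kg_int hε κ) hK]
  congr 1
  funext t
  rw [Inv.inv_exp S hIII hΨ hσ hX]

end Pool.Agent.Helper23
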