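import Pool.Agent.V.Ineq0
import Pool.Agent.V.Inv

/-!
# The window inequality
-/

open scoped InnerProductSpace Topology ENNReal BoundedContinuousFunction
open ContinuousLinearMap Filter MeasureTheory

namespace Pool.Agent.Helper23

universe u

variable {H : Type u} [NormedAddCommGroup H] [InnerProductSpace ℂ H] [CompleteSpace H]
variable {M N : VonNeumannAlgebra H} {ξ : H} {E : (H →L[ℂ] H) → (H →L[ℂ] H)}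
variable {R : H →L[ℂ] H} {D : H →L[ℝ] H} {Ψ : (ℝ →ᵇ ℂ) →⋆ₐ[ℂ] (H →L[ℂ] H)}

theorem Setting.window_ineq (S : Setting M N E ξ) (hIII : TypeIIIOne N) (hΨ : Modular M ξ R D Ψ)
    (hσ : ∀ (t : ℝ), ∀ a ∈ N, Ψ (expB t) * a * Ψ (expB (-t)) ∈ N) {X : L2R H →L[ℂ] L2R H}
    (hX : X ∈ Rk M N ξ) {f g : L2R ℂ} {Lf Lg : ℝ} (hf : ∀ h : ℝ, ‖tr ℂ h f - f‖ ≤ Lf * |h|)
    (hg : ∀ h : ℝ, ‖tr ℂ h g - g‖ ≤ Lg * |h|) {ε : ℝ} (hε : 0 < ε) (r : ℝ) :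
    (⟪E (slX X f g) ξ, Ψ (wn ε hε (-r)) (E (slX X f g) ξ)⟫_ℂ).re ≤
      (⟪E (slX X f g) ξ, Ψ (ewn ε hε (-r)) (E (slX X f g) ξ)⟫_ℂ).re +
      ‖X‖ * (‖f‖ * Lg + ‖g‖ * Lf) / Real.sqrt ε *
        (Real.sqrt (⟪E (slX X f g) ξ, Ψ (wn ε hε (-r)) (E (slX X f g) ξ)⟫_ℂ).re +
          Real.sqrt (⟪E (slX X f g) ξ, Ψ (ewn ε hε (-r)) (E (slX X f g) ξ)⟫_ℂ).re) :=
  Ineq.core S hΨ hσ hX hf hg hε r fun κ => S.inv_gauss hIII hΨ hσ hX f g r hε κ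

end Pool.Agent.Helper23
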