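import Pool.Agent.Helper23.VDefs

/-!
# Summation of the windows
-/

open scoped InnerProductSpace Topology ENNReal BoundedContinuousFunction
open ContinuousLinearMap Filter MeasureTheory

namespace Pool.Agent.Helper23

universe u

variable {H : Type u} [NormedAddCommGroup H] [InnerProductSpace ℂ H] [CompleteSpace H]

namespace Sum

/-! ### The quadratic form -/

/-- the quadratic form `q(G) = re ⟨v, Ψ(G) v⟩` -/
noncomputable def q (Ψ : (ℝ →ᵇ ℂ) →⋆ₐ[ℂ] (H →L[ℂ] H)) (v : H) (G : ℝ →ᵇ ℂ) : ℝ :=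
  (⟪v, Ψ G v⟫_ℂ).re

/-- the square root -/
noncomputable def sq (G : ℝ →ᵇ ℂ) : ℝ →ᵇ ℂ :=
  BoundedContinuousFunction.ofNormedAddCommGroup
    (fun ρ : ℝ => ((Real.sqrt (G ρ).re : ℝ) : ℂ)) (by fun_prop)
    (Real.sqrt ‖G‖) (by
      intro ρ
      rw [Complex.norm_real, Real.norm_of_nonneg (Real.sqrt_nonneg _)]
      exact Real.sqrt_le_sqrt ((Complex.re_le_norm _).trans (G.norm_coe_le_norm ρ)))

variable (Ψ : (ℝ →ᵇ ℂ) →⋆ₐ[ℂ] (H →L[ℂ] H)) (v : H)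

lemma smul_ap (c : ℂ) (G : ℝ →ᵇ ℂ) (ρ : ℝ) : (c • G) ρ = c * G ρ := rfl

lemma q_star_mul (S : ℝ →ᵇ ℂ) : q Ψ v (star S * S) = ‖Ψ S v‖ ^ 2 := by
  unfold q
  rw [map_mul, map_star]
  change (⟪v, (star (Ψ S)) (Ψ S v)⟫_ℂ).re = _
  rw [star_eq_adjoint, adjoint_inner_right, inner_self_eq_norm_sq_to_K]
  norm_cast

lemma q_nonneg {G : ℝ →ᵇ ℂ} {g : ℝ → ℝ} (hG : ∀ ρ, G ρ = g ρ) (hg : ∀ ρ, 0 ≤ g ρ) :
    0 ≤ q Ψ v G := by
  have h : G = star (sq G) * sq G := by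
    ext ρ
    have h1 : (star (sq G) * sq G) ρ =
        (starRingEnd ℂ) ((Real.sqrt (G ρ).re : ℝ) : ℂ) * ((Real.sqrt (G ρ).re : ℝ) : ℂ) := rfl
    rw [h1, Complex.conj_ofReal, ← Complex.ofReal_mul, hG ρ, Complex.ofReal_re,
      Real.mul_self_sqrt (hg ρ)]
  rw [h, q_star_mul]
  positivity

lemma q_add (F G : ℝ →ᵇ ℂ) : q Ψ v (F + G) = q Ψ v F + q Ψ v G := by
  unfold q
  rw [map_add]
  change (⟪v, Ψ F v + Ψ G v⟫_ℂ).re = _
  rw [inner_add_right, Complex.add_re]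

lemma q_sub (F G : ℝ →ᵇ ℂ) : q Ψ v (F - G) = q Ψ v F - q Ψ v G := by
  unfold q
  rw [map_sub]
  change (⟪v, Ψ F v - Ψ G v⟫_ℂ).re = _
  rw [inner_sub_right, Complex.sub_re]

lemma q_smul (r : ℝ) (G : ℝ →ᵇ ℂ) : q Ψ v ((r : ℂ) • G) = r * q Ψ v G := by
  unfold q
  rw [map_smul]
  change (⟪v, (r : ℂ) • Ψ G v⟫_ℂ).re = _
  rw [inner_smul_right, Complex.re_ofReal_mul]

lemma q_one : q Ψ v 1 = ‖v‖ ^ 2 := by
  unfold q
  rw [map_one]
  change (⟪v, v⟫_ℂ).re = _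
  rw [inner_self_eq_norm_sq_to_K]
  norm_cast

lemma q_sum {ι : Type*} (s : Finset ι) (G : ι → ℝ →ᵇ ℂ) :
    q Ψ v (∑ j ∈ s, G j) = ∑ j ∈ s, q Ψ v (G j) := by
  classical
  induction s using Finset.induction_on with
  | empty => simp [q]
  | insert a s ha ih => rw [Finset.sum_insert ha, Finset.sum_insert ha, q_add, ih]

lemma q_mono {F G : ℝ →ᵇ ℂ} {f g : ℝ → ℝ} (hF : ∀ ρ, F ρ = f ρ) (hG : ∀ ρ, G ρ = g ρ)
    (hfg : ∀ ρ, f ρ ≤ g ρ) : q Ψ v F ≤ q Ψ v G := by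
  have h := q_nonneg Ψ v (G := G - F) (g := fun ρ => g ρ - f ρ)
    (fun ρ => by rw [BoundedContinuousFunction.sub_apply, hF, hG]; push_cast; rfl)
    (fun ρ => sub_nonneg.2 (hfg ρ))
  rw [q_sub] at h
  linarith

/-! ### Real sums -/

lemma exp_neg_one_le : Real.exp (-1) ≤ 1 / 2 := by
  have h := Real.add_one_le_exp (1 : ℝ)
  rw [Real.exp_neg, ← one_div]
  exact one_div_le_one_div_of_le (by norm_num) (by linarith)

lemma exp_quarter_le : Real.exp (1 / 4) ≤ 2 := by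
  have h := Real.add_one_le_exp (-(1 / 4) : ℝ)
  have h1 : Real.exp (1 / 4) * Real.exp (-(1 / 4)) = 1 := by
    rw [← Real.exp_add]; norm_num
  have h2 := Real.exp_pos (1 / 4 : ℝ)
  nlinarith

lemma geom (m : ℕ) : ∑ i ∈ Finset.range m, Real.exp (-(i : ℝ)) ≤ 2 := by
  have h : ∀ i : ℕ, Real.exp (-(i : ℝ)) ≤ (1 / 2 : ℝ) ^ i := by
    intro i
    have h1 : Real.exp (-(i : ℝ)) = Real.exp (-1) ^ i := by
      rw [← Real.exp_nat_mul]; congr 1; ring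
    rw [h1]
    exact pow_le_pow_left₀ (Real.exp_pos _).le exp_neg_one_le i
  refine (Finset.sum_le_sum fun i _ => h i).trans ?_
  rw [geom_sum_eq (by norm_num)]
  have : 0 ≤ (1 / 2 : ℝ) ^ m := by positivity
  rw [div_le_iff_of_neg (by norm_num)]
  linarith

lemma sum_abs (x : ℝ) (J : ℕ) : ∑ j ∈ Finset.range J, Real.exp (-|x + j|) ≤ 4 := by
  set m := ⌈-x⌉₊ with hm
  have h1 : ∑ j ∈ Finset.range J, Real.exp (-|x + j|) ≤
      ∑ j ∈ Finset.range (m + J), Real.exp (-|x + j|) :=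
    Finset.sum_le_sum_of_subset_of_nonneg
      (Finset.range_subset_range.2 (by omega)) (fun _ _ _ => (Real.exp_pos _).le)
  rw [Finset.sum_range_add] at h1
  have h2 : ∑ j ∈ Finset.range m, Real.exp (-|x + j|) ≤ 2 := by
    rw [← Finset.sum_range_reflect]
    refine le_trans (Finset.sum_le_sum fun j hj => ?_) (geom m)
    rw [Finset.mem_range] at hj
    rw [Real.exp_le_exp, neg_le_neg_iff]
    have h3 : ((m - 1 - j : ℕ) : ℝ) = (m : ℝ) - 1 - j := by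
      rw [Nat.cast_sub (by omega), Nat.cast_sub (by omega), Nat.cast_one]
    have h4 : (m : ℝ) < -x + 1 := by
      have : 0 ≤ -x := by
        by_contra hc
        push Not at hc
        have : m = 0 := Nat.ceil_eq_zero.2 hc.le
        omega
      exact Nat.ceil_lt_add_one this
    rw [h3]
    refine le_trans ?_ (neg_le_abs _)
    linarith
  have h5 : ∑ i ∈ Finset.range J, Real.exp (-|x + ((m + i : ℕ) : ℝ)|) ≤ 2 := by
    refine le_trans (Finset.sum_le_sum fun j _ => ?_) (geom J)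
    rw [Real.exp_le_exp, neg_le_neg_iff]
    have h4 : -x ≤ m := Nat.le_ceil _
    refine le_trans ?_ (le_abs_self _)
    push_cast
    linarith
  linarith

lemma sum_gauss (x : ℝ) (J : ℕ) : ∑ j ∈ Finset.range J, Real.exp (-(x + j) ^ 2) ≤ 8 := by
  have h : ∀ j : ℕ, Real.exp (-(x + j) ^ 2) ≤ 2 * Real.exp (-|x + j|) := by
    intro j
    have h1 : -(x + j) ^ 2 ≤ 1 / 4 + -|x + j| := by
      have := sq_abs (x + j)
      nlinarith [sq_nonneg (|x + j| - 1 / 2)]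
    refine (Real.exp_le_exp.2 h1).trans ?_
    rw [Real.exp_add]
    exact mul_le_mul_of_nonneg_right exp_quarter_le (Real.exp_pos _).le
  refine (Finset.sum_le_sum fun j _ => h j).trans ?_
  rw [← Finset.mul_sum]
  linarith [sum_abs x J]

/-- for positive `ρ` -/
lemma sum_pos {n : ℕ} (hn : 1 ≤ n) {a ρ : ℝ} (ha : 0 < a) (hρ : 0 < ρ) (J : ℕ) :
    Real.exp ρ * ∑ j ∈ Finset.range J, Real.exp (-(n * (ρ + a) + j) ^ 2) ≤
      4 * Real.exp (-((n : ℝ) ^ 2 * a ^ 2)) := by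
  have hn1 : (1 : ℝ) ≤ n := by exact_mod_cast hn
  have h : ∀ j : ℕ, Real.exp ρ * Real.exp (-(n * (ρ + a) + j) ^ 2) ≤
      2 * Real.exp (-((n : ℝ) ^ 2 * a ^ 2)) * Real.exp (-(j : ℝ)) := by
    intro j
    have hj : (0 : ℝ) ≤ j := Nat.cast_nonneg j
    have hj2 : (j : ℝ) ≤ (j : ℝ) ^ 2 := by
      rcases Nat.eq_zero_or_pos j with rfl | hj0
      · simp
      · have : (1 : ℝ) ≤ j := by exact_mod_cast hj0
        nlinarith
    have h1 : ρ + -(n * (ρ + a) + j) ^ 2 ≤ 1 / 4 + -((n : ℝ) ^ 2 * a ^ 2) + -(j : ℝ) := by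
      have e : ((n : ℝ) * (ρ + a) + j) ^ 2 = (n : ℝ) ^ 2 * ρ ^ 2 + (n : ℝ) ^ 2 * a ^ 2 +
          (j : ℝ) ^ 2 + (2 * ((n : ℝ) ^ 2 * (ρ * a)) + 2 * (n * (ρ + a) * j)) := by ring
      have e1 : 0 ≤ 2 * ((n : ℝ) ^ 2 * (ρ * a)) + 2 * (n * (ρ + a) * j) := by positivity
      have e2 : ρ ^ 2 ≤ (n : ℝ) ^ 2 * ρ ^ 2 := by
        have : (1 : ℝ) ≤ (n : ℝ) ^ 2 := by nlinarith
        nlinarith [sq_nonneg ρ]
      rw [e]
      nlinarith [sq_nonneg (ρ - 1 / 2)]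
    rw [← Real.exp_add]
    refine (Real.exp_le_exp.2 h1).trans ?_
    rw [Real.exp_add, Real.exp_add]
    gcongr
    exact exp_quarter_le
  rw [Finset.mul_sum]
  refine (Finset.sum_le_sum fun j _ => h j).trans ?_
  rw [← Finset.mul_sum]
  have h2 := geom J
  have h3 := Real.exp_pos (-((n : ℝ) ^ 2 * a ^ 2))
  nlinarith

/-- the sum is not small on the support -/
lemma sum_large {n Rn : ℕ} (hn : 1 ≤ n) {a b ρ : ℝ} (hR : b - a ≤ Rn) (h1 : -b ≤ ρ)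
    (h2 : ρ ≤ -a) :
    1 / 3 ≤ ∑ j ∈ Finset.range (n * Rn + 1), Real.exp (-(n * (ρ + a) + j) ^ 2) := by
  have hn1 : (1 : ℝ) ≤ n := by exact_mod_cast hn
  have h0 : 0 ≤ -(n * (ρ + a)) := by nlinarith
  set j := ⌊-(n * (ρ + a))⌋₊ with hj
  have hj1 : (j : ℝ) ≤ -(n * (ρ + a)) := Nat.floor_le h0
  have hj2 : -(n * (ρ + a)) < j + 1 := Nat.lt_floor_add_one _
  have hj3 : j ∈ Finset.range (n * Rn + 1) := by
    rw [Finset.mem_range, Nat.lt_succ_iff]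
    have : (j : ℝ) ≤ ((n * Rn : ℕ) : ℝ) := by
      push_cast
      refine hj1.trans ?_
      nlinarith
    exact_mod_cast this
  refine le_trans ?_ (Finset.single_le_sum (f := fun j : ℕ => Real.exp (-(n * (ρ + a) + j) ^ 2))
    (fun _ _ => (Real.exp_pos _).le) hj3)
  have h3 : -(1 : ℝ) ≤ -(n * (ρ + a) + j) ^ 2 := by
    have e1 : n * (ρ + a) + j ≤ 0 := by linarith
    have e2 : -1 ≤ n * (ρ + a) + j := by linarith
    nlinarith
  refine le_trans ?_ (Real.exp_le_exp.2 h3)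
  have h4 : Real.exp 1 < 3 := lt_trans Real.exp_one_lt_d9 (by norm_num)
  rw [Real.exp_neg, ← one_div]
  exact one_div_le_one_div_of_le (Real.exp_pos _) h4.le

/-! ### The windows -/

lemma wn_ap {n : ℕ} (hn : 0 < ((n : ℝ) ^ 2)) (a : ℝ) (j : ℕ) (hn1 : 1 ≤ n) (ρ : ℝ) :
    wn _ hn (-(a + j / n)) ρ = ((Real.exp (-(n * (ρ + a) + j) ^ 2) : ℝ) : ℂ) := by
  have hn0 : (n : ℝ) ≠ 0 := by
    have : (0 : ℝ) < n := by exact_mod_cast hn1
    exact this.ne'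
  unfold wn
  rw [smul_ap, Helper70.U8.GB_apply, ← Complex.ofReal_mul, ← Real.exp_add]
  congr 2
  field_simp
  ring

lemma ewn_ap {n : ℕ} (hn : 0 < ((n : ℝ) ^ 2)) (a : ℝ) (j : ℕ) (hn1 : 1 ≤ n) (ρ : ℝ) :
    ewn _ hn (-(a + j / n)) ρ =
      ((Real.exp ρ * Real.exp (-(n * (ρ + a) + j) ^ 2) : ℝ) : ℂ) := by
  have hn0 : (n : ℝ) ≠ 0 := by
    have : (0 : ℝ) < n := by exact_mod_cast hn1
    exact this.ne'
  unfold ewn
  rw [smul_ap, Helper70.U8.GB_apply, ← Complex.ofReal_mul, ← Real.exp_add, ← Real.exp_add]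
  congr 2
  field_simp
  ring

lemma sum_bcf {ι : Type*} (s : Finset ι) (G : ι → ℝ →ᵇ ℂ) (g : ι → ℝ → ℝ)
    (h : ∀ j ρ, G j ρ = g j ρ) (ρ : ℝ) : (∑ j ∈ s, G j) ρ = ((∑ j ∈ s, g j ρ : ℝ) : ℂ) := by
  rw [BoundedContinuousFunction.coe_sum, Finset.sum_apply]
  push_cast
  exact Finset.sum_congr rfl fun j _ => h j ρ

/-- Cauchy-Schwarz -/
lemma sum_sqrt_le {J : ℕ} (f : ℕ → ℝ) (hf : ∀ j, 0 ≤ f j) :
    ∑ j ∈ Finset.range J, Real.sqrt (f j) ≤ Real.sqrt (J * ∑ j ∈ Finset.range J, f j) := by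
  apply Real.le_sqrt_of_sq_le
  have h := sq_sum_le_card_mul_sum_sq (s := Finset.range J) (f := fun j => Real.sqrt (f j))
  rw [Finset.card_range] at h
  refine h.trans (le_of_eq ?_)
  congr 1
  exact Finset.sum_congr rfl fun j _ => Real.sq_sqrt (hf j)

end Sum

open Pool.Agent.Helper23.Sum in
theorem window_sum (Ψ : (ℝ →ᵇ ℂ) →⋆ₐ[ℂ] (H →L[ℂ] H)) (v : H) {C : ℝ} (hC : 0 ≤ C)
    (h : ∀ (n : ℕ) (hn : 0 < ((n : ℝ) ^ 2)) (r : ℝ), 0 ≤ r →
      (⟪v, Ψ (wn _ hn (-r)) v⟫_ℂ).re ≤ (⟪v, Ψ (ewn _ hn (-r)) v⟫_ℂ).re +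
        C / n * (Real.sqrt (⟪v, Ψ (wn _ hn (-r)) v⟫_ℂ).re +
          Real.sqrt (⟪v, Ψ (ewn _ hn (-r)) v⟫_ℂ).re))
    {K : ℝ →ᵇ ℂ} {k : ℝ → ℝ} (hK : ∀ ρ, K ρ = k ρ) (hk : ∀ ρ, 0 ≤ k ρ) {a b : ℝ} (ha : 0 < a)
    (hs : ∀ ρ, k ρ ≠ 0 → -b ≤ ρ ∧ ρ ≤ -a) : Ψ K v = 0 := by
  obtain ⟨Rn, hR⟩ := exists_nat_ge (b - a)
  set κ : ℝ := ‖K‖ + 1 with hκ
  have hκ0 : 0 < κ := by positivity
  have hkκ : ∀ ρ, k ρ ≤ κ := by
    intro ρ
    have h1 := K.norm_coe_le_norm ρ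
    rw [hK, Complex.norm_real, Real.norm_of_nonneg (hk ρ)] at h1
    linarith
  set δ : ℝ := (1 - Real.exp (-a)) / (3 * κ) with hδ
  have hea : Real.exp (-a) < 1 := by rw [Real.exp_lt_one_iff]; linarith
  have hδ0 : 0 < δ := div_pos (by linarith) (by positivity)
  -- the main estimate
  have main : ∀ n : ℕ, 1 ≤ n → δ * q Ψ v K ≤
      (C * (2 * Real.sqrt (8 * (Rn + 1)) * ‖v‖) + 4 * (‖v‖ ^ 2 / a ^ 2)) / Real.sqrt n := by
    intro n hn1
    have hn0 : (0 : ℝ) < n := by exact_mod_cast hn1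
    have hn : 0 < ((n : ℝ) ^ 2) := by positivity
    set J := n * Rn + 1 with hJ
    set A : ℕ → ℝ →ᵇ ℂ := fun j => wn _ hn (-(a + j / n)) with hA
    set B : ℕ → ℝ →ᵇ ℂ := fun j => ewn _ hn (-(a + j / n)) with hB
    set s : ℝ → ℝ := fun ρ => ∑ j ∈ Finset.range J, Real.exp (-(n * (ρ + a) + j) ^ 2) with hs'
    have hs0 : ∀ ρ, 0 ≤ s ρ := fun ρ => Finset.sum_nonneg fun _ _ => (Real.exp_pos _).le
    have hAs : ∀ ρ, (∑ j ∈ Finset.range J, A j) ρ = s ρ := fun ρ =>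
      sum_bcf _ A (fun j ρ => Real.exp (-(n * (ρ + a) + j) ^ 2))
        (fun j ρ => wn_ap hn a j hn1 ρ) ρ
    have hBs : ∀ ρ, (∑ j ∈ Finset.range J, B j) ρ = ((Real.exp ρ * s ρ : ℝ) : ℂ) := by
      intro ρ
      rw [sum_bcf _ B (fun j ρ => Real.exp ρ * Real.exp (-(n * (ρ + a) + j) ^ 2))
        (fun j ρ => ewn_ap hn a j hn1 ρ) ρ, ← Finset.mul_sum]
    have hA0 : ∀ j, 0 ≤ q Ψ v (A j) := fun j =>
      q_nonneg Ψ v (wn_ap hn a j hn1) fun _ => (Real.exp_pos _).le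
    have hB0 : ∀ j, 0 ≤ q Ψ v (B j) := fun j =>
      q_nonneg Ψ v (ewn_ap hn a j hn1) fun _ => mul_nonneg (Real.exp_pos _).le (Real.exp_pos _).le
    have one_ap : ∀ (c ρ : ℝ), (((c : ℝ) : ℂ) • (1 : ℝ →ᵇ ℂ)) ρ = ((c : ℝ) : ℂ) := by
      intro c ρ
      rw [smul_ap, Pool.Agent.Helper43.TTF.one_bcf, mul_one]
    have hBle : ∀ ρ, Real.exp ρ * s ρ ≤ 8 := by
      intro ρ
      rcases le_or_gt ρ 0 with hρ | hρ
      · have h1 : Real.exp ρ ≤ 1 := Real.exp_le_one_iff.2 hρ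
        have h2 := sum_gauss (n * (ρ + a)) J
        have h3 := hs0 ρ
        nlinarith
      · refine (sum_pos hn1 ha hρ J).trans ?_
        have : Real.exp (-((n : ℝ) ^ 2 * a ^ 2)) ≤ 1 :=
          Real.exp_le_one_iff.2 (neg_nonpos.2 (by positivity))
        linarith
    have hqA : ∑ j ∈ Finset.range J, q Ψ v (A j) ≤ 8 * ‖v‖ ^ 2 := by
      rw [← q_sum]
      refine (q_mono Ψ v hAs (one_ap 8) fun ρ => sum_gauss (n * (ρ + a)) J).trans ?_
      rw [q_smul, q_one]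
    have hqB : ∑ j ∈ Finset.range J, q Ψ v (B j) ≤ 8 * ‖v‖ ^ 2 := by
      rw [← q_sum]
      refine (q_mono Ψ v hBs (one_ap 8) hBle).trans ?_
      rw [q_smul, q_one]
    -- lower bound
    have low : δ * q Ψ v K - 4 * Real.exp (-((n : ℝ) ^ 2 * a ^ 2)) * ‖v‖ ^ 2 ≤
        ∑ j ∈ Finset.range J, q Ψ v (A j) - ∑ j ∈ Finset.range J, q Ψ v (B j) := by
      rw [← q_sum, ← q_sum, ← q_one Ψ v, ← q_smul, ← q_smul, ← q_sub, ← q_sub]
      refine q_mono Ψ v (f := fun ρ => δ * k ρ - 4 * Real.exp (-((n : ℝ) ^ 2 * a ^ 2)))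
        (g := fun ρ => s ρ - Real.exp ρ * s ρ) ?_ ?_ ?_
      · intro ρ
        rw [BoundedContinuousFunction.sub_apply, one_ap, smul_ap, hK]
        push_cast
        rfl
      · intro ρ
        rw [BoundedContinuousFunction.sub_apply, hAs, hBs]
        push_cast
        rfl
      · intro ρ
        have he := Real.exp_pos (-((n : ℝ) ^ 2 * a ^ 2))
        have h3 := hs0 ρ
        rcases le_or_gt ρ 0 with hρ | hρ
        · have h1 : Real.exp ρ ≤ 1 := Real.exp_le_one_iff.2 hρ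
          by_cases hkρ : k ρ = 0
          · simp only [hkρ]
            nlinarith
          · obtain ⟨e1, e2⟩ := hs ρ hkρ
            have e3 : 1 / 3 ≤ s ρ := sum_large hn1 hR e1 e2
            have e4 : Real.exp ρ ≤ Real.exp (-a) := Real.exp_le_exp.2 e2
            have e5 : δ * k ρ ≤ (1 - Real.exp (-a)) / 3 := by
              have : δ * k ρ ≤ δ * κ := mul_le_mul_of_nonneg_left (hkκ ρ) hδ0.le
              refine this.trans (le_of_eq ?_)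
              rw [hδ]
              field_simp
            change δ * k ρ - 4 * Real.exp (-((n : ℝ) ^ 2 * a ^ 2)) ≤ s ρ - Real.exp ρ * s ρ
            nlinarith
        · have hkρ : k ρ = 0 := by
            by_contra hc
            have := (hs ρ hc).2
            linarith
          have e1 := sum_pos hn1 ha hρ J
          simp only [hkρ]
          linarith
    -- the windows
    have up : ∑ j ∈ Finset.range J, q Ψ v (A j) ≤ ∑ j ∈ Finset.range J, q Ψ v (B j) +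
        C / n * (∑ j ∈ Finset.range J, Real.sqrt (q Ψ v (A j)) +
          ∑ j ∈ Finset.range J, Real.sqrt (q Ψ v (B j))) := by
      rw [← Finset.sum_add_distrib, Finset.mul_sum, ← Finset.sum_add_distrib]
      exact Finset.sum_le_sum fun j _ => h n hn (a + j / n) (by positivity)
    have hJle : (J : ℝ) ≤ n * (Rn + 1) := by
      rw [hJ]
      push_cast
      have : (1 : ℝ) ≤ n := by exact_mod_cast hn1
      linarith
    have cs : ∀ f : ℕ → ℝ, (∀ j, 0 ≤ f j) → ∑ j ∈ Finset.range J, f j ≤ 8 * ‖v‖ ^ 2 →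
        ∑ j ∈ Finset.range J, Real.sqrt (f j) ≤
          Real.sqrt n * (Real.sqrt (8 * (Rn + 1)) * ‖v‖) := by
      intro f hf hf8
      refine (sum_sqrt_le f hf).trans ?_
      rw [← Real.sqrt_sq (norm_nonneg v), ← Real.sqrt_mul (by positivity),
        ← Real.sqrt_mul (by positivity)]
      apply Real.sqrt_le_sqrt
      have h1 : 0 ≤ ∑ j ∈ Finset.range J, f j := Finset.sum_nonneg fun j _ => hf j
      calc (J : ℝ) * ∑ j ∈ Finset.range J, f j ≤ (n * (Rn + 1)) * (8 * ‖v‖ ^ 2) :=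
            mul_le_mul hJle hf8 h1 (by positivity)
        _ = n * (8 * (Rn + 1) * ‖v‖ ^ 2) := by ring
    have c1 := cs (fun j => q Ψ v (A j)) hA0 hqA
    have c2 := cs (fun j => q Ψ v (B j)) hB0 hqB
    have hsn : 0 < Real.sqrt n := Real.sqrt_pos.2 hn0
    have hexp : Real.exp (-((n : ℝ) ^ 2 * a ^ 2)) ≤ 1 / a ^ 2 / Real.sqrt n := by
      have e1 : (n : ℝ) ^ 2 * a ^ 2 ≤ Real.exp ((n : ℝ) ^ 2 * a ^ 2) := by
        linarith [Real.add_one_le_exp ((n : ℝ) ^ 2 * a ^ 2)]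
      have e2 : Real.sqrt n ≤ (n : ℝ) ^ 2 := by
        have e3 : (1 : ℝ) ≤ n := by exact_mod_cast hn1
        have e4 : Real.sqrt n ≤ n := by
          rw [Real.sqrt_le_left hn0.le]
          nlinarith
        nlinarith
      rw [Real.exp_neg, div_div, ← one_div]
      refine one_div_le_one_div_of_le (by positivity) (le_trans ?_ e1)
      rw [mul_comm]
      exact mul_le_mul_of_nonneg_right e2 (by positivity)
    have hCn : 0 ≤ C / n := by positivity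
    have key : C / n * (Real.sqrt n * (Real.sqrt (8 * (Rn + 1)) * ‖v‖) +
        Real.sqrt n * (Real.sqrt (8 * (Rn + 1)) * ‖v‖)) =
        C * (2 * Real.sqrt (8 * (Rn + 1)) * ‖v‖) / Real.sqrt n := by
      have e1 : (n : ℝ) = Real.sqrt n * Real.sqrt n := (Real.mul_self_sqrt hn0.le).symm
      have e2 : C / n = C / (Real.sqrt n * Real.sqrt n) := by rw [← e1]
      rw [e2]
      field_simp
      ring
    have hmul : C / n * (∑ j ∈ Finset.range J, Real.sqrt (q Ψ v (A j)) +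
          ∑ j ∈ Finset.range J, Real.sqrt (q Ψ v (B j))) ≤
        C * (2 * Real.sqrt (8 * (Rn + 1)) * ‖v‖) / Real.sqrt n := by
      rw [← key]
      exact mul_le_mul_of_nonneg_left (add_le_add c1 c2) hCn
    have hexp2 : 4 * Real.exp (-((n : ℝ) ^ 2 * a ^ 2)) * ‖v‖ ^ 2 ≤
        4 * (‖v‖ ^ 2 / a ^ 2) / Real.sqrt n := by
      calc 4 * Real.exp (-((n : ℝ) ^ 2 * a ^ 2)) * ‖v‖ ^ 2
          ≤ 4 * (1 / a ^ 2 / Real.sqrt n) * ‖v‖ ^ 2 := by gcongr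
        _ = 4 * (‖v‖ ^ 2 / a ^ 2) / Real.sqrt n := by ring
    rw [add_div]
    linarith
  -- conclusion
  set Z : ℝ := C * (2 * Real.sqrt (8 * (Rn + 1)) * ‖v‖) + 4 * (‖v‖ ^ 2 / a ^ 2) with hZ
  have hlim : Tendsto (fun n : ℕ => Z / Real.sqrt n) atTop (𝓝 0) :=
    Tendsto.const_div_atTop (Real.tendsto_sqrt_atTop.comp tendsto_natCast_atTop_atTop) _
  have hle : δ * q Ψ v K ≤ 0 :=
    ge_of_tendsto hlim (eventually_atTop.2 ⟨1, fun n hn => main n hn⟩)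
  have hq0 : q Ψ v K ≤ 0 := by
    by_contra hc
    push Not at hc
    have := mul_pos hδ0 hc
    linarith
  have hsq : q Ψ v (star K * K) ≤ κ * q Ψ v K := by
    rw [← q_smul]
    refine q_mono Ψ v (f := fun ρ => k ρ * k ρ) (g := fun ρ => κ * k ρ) ?_ ?_ ?_
    · intro ρ
      have h1 : (star K * K) ρ = (starRingEnd ℂ) (K ρ) * K ρ := rfl
      rw [h1, hK, Complex.conj_ofReal]
      push_cast
      rfl
    · intro ρ
      rw [smul_ap, hK]
      push_cast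
      rfl
    · intro ρ
      exact mul_le_mul_of_nonneg_right (hkκ ρ) (hk ρ)
  rw [q_star_mul] at hsq
  have h1 : ‖Ψ K v‖ ^ 2 ≤ 0 := by nlinarith
  have h2 : ‖Ψ K v‖ = 0 := by
    have := sq_nonneg ‖Ψ K v‖
    exact pow_eq_zero_iff (two_ne_zero) |>.1 (le_antisymm h1 this)
  exact norm_eq_zero.1 h2

end Pool.Agent.Helper23
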