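import Pool.Agent.V.Lip
import Pool.Agent.V.Sum
import Pool.Agent.Helper68.G2b4
import Pool.Agent.V.FamOps
import Pool.Agent.V.Ineq

/-!
# Project V, module Fixed: the slices are fixed by the modular group
-/

open scoped InnerProductSpace Topology ENNReal BoundedContinuousFunction
open ContinuousLinearMap Filter MeasureTheory

namespace Pool.Agent.Helper23

universe u

variable {H : Type u} [NormedAddCommGroup H] [InnerProductSpace ℂ H] [CompleteSpace H]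
variable {M N : VonNeumannAlgebra H} {ξ : H} {E : (H →L[ℂ] H) → (H →L[ℂ] H)}
variable {R : H →L[ℂ] H} {D : H →L[ℝ] H} {Ψ : (ℝ →ᵇ ℂ) →⋆ₐ[ℂ] (H →L[ℂ] H)}

namespace Fixed

/-- the negative half line -/
lemma neg_half (S : Setting M N E ξ) (hIII : TypeIIIOne N) (hΨ : Modular M ξ R D Ψ)
    (hσ : ∀ (t : ℝ), ∀ a ∈ N, Ψ (expB t) * a * Ψ (expB (-t)) ∈ N) {X : L2R H →L[ℂ] L2R H}
    (hX : X ∈ Rk M N ξ) {f g : L2R ℂ} {Lf Lg : ℝ} (hLf : 0 ≤ Lf) (hLg : 0 ≤ Lg)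
    (hf : ∀ h : ℝ, ‖tr ℂ h f - f‖ ≤ Lf * |h|)
    (hg : ∀ h : ℝ, ‖tr ℂ h g - g‖ ≤ Lg * |h|) {K : ℝ →ᵇ ℂ} {k : ℝ → ℝ} (hK : ∀ ρ, K ρ = k ρ)
    (hk : ∀ ρ, 0 ≤ k ρ) {a b : ℝ} (ha : 0 < a) (hs : ∀ ρ, k ρ ≠ 0 → -b ≤ ρ ∧ ρ ≤ -a) :
    Ψ K (E (slX X f g) ξ) = 0 := by
  refine window_sum Ψ _ (C := ‖X‖ * (‖f‖ * Lg + ‖g‖ * Lf)) (by positivity)
    (fun n hn r _ => ?_) hK hk ha hs
  have h1 := S.window_ineq hIII hΨ hσ hX hf hg hn r
  rwa [Real.sqrt_sq (Nat.cast_nonneg n)] at h1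

/-- reflection -/
noncomputable def rf (G : ℝ →ᵇ ℂ) : ℝ →ᵇ ℂ :=
  BoundedContinuousFunction.ofNormedAddCommGroup (fun ρ : ℝ => (starRingEnd ℂ) (G (-ρ)))
    (by fun_prop) ‖G‖ (fun ρ => by rw [RCLike.norm_conj]; exact G.norm_coe_le_norm _)

lemma rf_apply (G : ℝ →ᵇ ℂ) (ρ : ℝ) : rf G ρ = (starRingEnd ℂ) (G (-ρ)) := rfl

/-- if `D` kills a vector it is zero -/
lemma D_inj (hΨ : Modular M ξ R D Ψ) {v : H} (h : D v = 0) : v = 0 := by
  have h1 := hΨ.data.D_sq v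
  rw [h, map_zero] at h1
  have h2 := hΨ.data.R_inj _ h1.symm
  exact hΨ.data.R_inj' v (sub_eq_zero.1 h2).symm

/-- the positive half line -/
lemma pos_half (hΨ : Modular M ξ R D Ψ) {y : H →L[ℂ] H} (hy : y ∈ M) {K : ℝ →ᵇ ℂ}
    (h : Ψ (rf K) ((star y) ξ) = 0) : Ψ K (y ξ) = 0 := by
  refine D_inj hΨ ?_
  rw [hΨ.psi_D K (rf K) (fun ρ => rf_apply K ρ), hΨ.data.D_mem y hy, map_sub, map_smul, h,
    smul_zero, zero_sub, neg_eq_zero]
  have h1 : Ψ (rf K) (R ((star y) ξ)) = R (Ψ (rf K) ((star y) ξ)) := by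
    rw [← hΨ.psi_FR, ← psi_mul_apply, ← psi_mul_apply, mul_comm]
  rw [h1, h, map_zero]

/-- the square on the positive half line -/
noncomputable def sqP (G : ℝ →ᵇ ℂ) : ℝ →ᵇ ℂ :=
  BoundedContinuousFunction.ofNormedAddCommGroup (fun ρ : ℝ => ((‖G (max ρ 0)‖ ^ 2 : ℝ) : ℂ))
    (by fun_prop) (‖G‖ ^ 2) (fun ρ => by
      rw [Complex.norm_real, Real.norm_of_nonneg (by positivity)]
      gcongr
      exact G.norm_coe_le_norm _)

/-- the square on the negative half line -/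
noncomputable def sqN (G : ℝ →ᵇ ℂ) : ℝ →ᵇ ℂ :=
  BoundedContinuousFunction.ofNormedAddCommGroup (fun ρ : ℝ => ((‖G (min ρ 0)‖ ^ 2 : ℝ) : ℂ))
    (by fun_prop) (‖G‖ ^ 2) (fun ρ => by
      rw [Complex.norm_real, Real.norm_of_nonneg (by positivity)]
      gcongr
      exact G.norm_coe_le_norm _)

lemma sq_split {G : ℝ →ᵇ ℂ} (h0 : G 0 = 0) : star G * G = sqP G + sqN G := by
  ext ρ
  rw [BoundedContinuousFunction.mul_apply, BoundedContinuousFunction.add_apply,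
    BoundedContinuousFunction.star_apply]
  change star (G ρ) * G ρ = ((‖G (max ρ 0)‖ ^ 2 : ℝ) : ℂ) + ((‖G (min ρ 0)‖ ^ 2 : ℝ) : ℂ)
  have h1 : star (G ρ) * G ρ = ((‖G ρ‖ ^ 2 : ℝ) : ℂ) := by
    rw [Complex.star_def, Complex.conj_mul', Complex.ofReal_pow]
  rw [h1]
  rcases le_total 0 ρ with h | h
  · rw [max_eq_left h, min_eq_right h, h0, norm_zero]
    norm_num
  · rw [max_eq_right h, min_eq_left h, h0, norm_zero]
    norm_num

/-- compactly supported functions away from zero -/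
lemma compact_away {v : H} (hneg : ∀ (K : ℝ →ᵇ ℂ) (k : ℝ → ℝ), (∀ ρ, K ρ = k ρ) →
      (∀ ρ, 0 ≤ k ρ) → ∀ a b : ℝ, 0 < a → (∀ ρ, k ρ ≠ 0 → -b ≤ ρ ∧ ρ ≤ -a) → Ψ K v = 0)
    (hpos : ∀ (K : ℝ →ᵇ ℂ) (k : ℝ → ℝ), (∀ ρ, K ρ = k ρ) →
      (∀ ρ, 0 ≤ k ρ) → ∀ a b : ℝ, 0 < a → (∀ ρ, k ρ ≠ 0 → a ≤ ρ ∧ ρ ≤ b) → Ψ K v = 0)
    {G : ℝ →ᵇ ℂ} {a b : ℝ} (ha : 0 < a) (hG : ∀ ρ, G ρ ≠ 0 → a ≤ |ρ| ∧ |ρ| ≤ b) :
    Ψ G v = 0 := by
  have h0 : G 0 = 0 := by
    by_contra h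
    have := (hG 0 h).1
    rw [abs_zero] at this
    linarith
  have h1 : Ψ (sqP G) v = 0 := by
    refine hpos (sqP G) (fun ρ => ‖G (max ρ 0)‖ ^ 2) (fun ρ => rfl) (fun ρ => by positivity) a b ha
      fun ρ hρ => ?_
    have h2 : G (max ρ 0) ≠ 0 := by
      intro h
      exact hρ (by simp only [h, norm_zero]; norm_num)
    rcases le_total ρ 0 with h | h
    · rw [max_eq_right h] at h2
      exact absurd h0 h2
    · rw [max_eq_left h] at h2
      have := hG ρ h2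
      rwa [abs_of_nonneg h] at this
  have h3 : Ψ (sqN G) v = 0 := by
    refine hneg (sqN G) (fun ρ => ‖G (min ρ 0)‖ ^ 2) (fun ρ => rfl) (fun ρ => by positivity) a b ha
      fun ρ hρ => ?_
    have h2 : G (min ρ 0) ≠ 0 := by
      intro h
      exact hρ (by simp only [h, norm_zero]; norm_num)
    rcases le_total 0 ρ with h | h
    · rw [min_eq_right h] at h2
      exact absurd h0 h2
    · rw [min_eq_left h] at h2
      have := hG ρ h2
      rw [abs_of_nonpos h] at this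
      exact ⟨by linarith, by linarith⟩
  have h4 : ⟪Ψ G v, Ψ G v⟫_ℂ = 0 := by
    rw [psi_adj, ← psi_mul_apply, sq_split h0, map_add, add_apply, h1, h3, add_zero,
      inner_zero_right]
  exact inner_self_eq_zero.1 h4

/-- the cut off function away from zero -/
noncomputable def chi (n : ℕ) : ℝ →ᵇ ℂ :=
  BoundedContinuousFunction.ofNormedAddCommGroup
    (fun ρ : ℝ => ((min 1 (max 0 (n * |ρ| - 1)) : ℝ) : ℂ)) (by fun_prop) 1 (fun ρ => by
      rw [Complex.norm_real, Real.norm_of_nonneg (by positivity)]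
      exact min_le_left _ _)

lemma chi_apply (n : ℕ) (ρ : ℝ) : chi n ρ = ((min 1 (max 0 (n * |ρ| - 1)) : ℝ) : ℂ) := rfl

lemma chi_norm (n : ℕ) (ρ : ℝ) : ‖chi n ρ‖ ≤ 1 := by
  rw [chi_apply, Complex.norm_real, Real.norm_of_nonneg (by positivity)]
  exact min_le_left _ _

lemma one_sub_chi_norm (n : ℕ) (ρ : ℝ) : ‖1 - chi n ρ‖ ≤ 1 := by
  rw [chi_apply, ← Complex.ofReal_one, ← Complex.ofReal_sub, Complex.norm_real, Real.norm_eq_abs,
    abs_le]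
  have h1 : (0 : ℝ) ≤ min 1 (max 0 (n * |ρ| - 1)) := by positivity
  have h2 : min 1 (max 0 (n * |ρ| - 1)) ≤ (1 : ℝ) := min_le_left _ _
  exact ⟨by linarith, by linarith⟩

lemma chi_norm' (n : ℕ) : ‖chi n‖ ≤ 1 :=
  (BoundedContinuousFunction.norm_le zero_le_one).2 fun ρ => chi_norm n ρ

/-- bounded continuous functions vanishing at zero -/
lemma vanish (hΨ : Modular M ξ R D Ψ) {v : H}
    (hc : ∀ (G : ℝ →ᵇ ℂ) (a b : ℝ), 0 < a → (∀ ρ, G ρ ≠ 0 → a ≤ |ρ| ∧ |ρ| ≤ b) → Ψ G v = 0)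
    {G : ℝ →ᵇ ℂ} (h0 : G 0 = 0) : Ψ G v = 0 := by
  have hb : ∀ n : ℕ, ‖chi n * cutB n‖ ≤ 1 := fun n =>
    (norm_mul_le _ _).trans (mul_le_one₀ (chi_norm' n) (norm_nonneg _) (cutB_norm n))
  have h1 := hΨ.psi_cont (fun n => G * (chi n * cutB n)) G ‖G‖ (fun n => by
    refine (norm_mul_le _ _).trans ?_
    have := mul_le_mul_of_nonneg_left (hb n) (norm_nonneg G)
    rwa [mul_one] at this) (fun L => by
    rw [Metric.tendstoUniformlyOn_iff]
    intro ε hε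
    obtain ⟨δ, hδ, hh⟩ := Metric.continuous_iff.1 G.continuous 0 ε hε
    obtain ⟨n0, hn0⟩ := exists_nat_gt (max (2 / δ) L)
    filter_upwards [eventually_ge_atTop n0] with n hn ρ hρ
    have hnn : (n0 : ℝ) ≤ n := by exact_mod_cast hn
    have hρL : |ρ| ≤ L := abs_le.2 hρ
    have hcut : cutB n ρ = 1 := cutB_one (by
      have := le_max_right (2 / δ) L
      linarith)
    have e1 : (G * (chi n * cutB n)) ρ = G ρ * chi n ρ := by
      rw [BoundedContinuousFunction.mul_apply, BoundedContinuousFunction.mul_apply, hcut, mul_one]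
    rw [e1, dist_eq_norm]
    have e2 : G ρ - G ρ * chi n ρ = G ρ * (1 - chi n ρ) := by ring
    rw [e2, norm_mul]
    by_cases hρδ : |ρ| < δ
    · have h3 := hh ρ (by rw [dist_eq_norm, sub_zero, Real.norm_eq_abs]; exact hρδ)
      rw [h0, dist_zero_right] at h3
      calc ‖G ρ‖ * ‖1 - chi n ρ‖ ≤ ‖G ρ‖ * 1 :=
            mul_le_mul_of_nonneg_left (one_sub_chi_norm n ρ) (norm_nonneg _)
        _ < ε := by rw [mul_one]; exact h3
    · push Not at hρδ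
      have h4 : 2 / δ < n := by
        have := le_max_left (2 / δ) L
        linarith
      rw [div_lt_iff₀ hδ] at h4
      have h5 : (2 : ℝ) ≤ n * |ρ| := by
        have : (n : ℝ) * δ ≤ n * |ρ| := mul_le_mul_of_nonneg_left hρδ (Nat.cast_nonneg n)
        linarith
      have h6 : chi n ρ = 1 := by
        rw [chi_apply, max_eq_right (by linarith), min_eq_left (by linarith), Complex.ofReal_one]
      rw [h6, sub_self, norm_zero, mul_zero]
      exact hε) v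
  refine tendsto_nhds_unique h1 ?_
  have h2 : ∀ᶠ n : ℕ in atTop, Ψ (G * (chi n * cutB n)) v = 0 := by
    filter_upwards [eventually_gt_atTop 0] with n hn
    have hn' : (0 : ℝ) < n := by exact_mod_cast hn
    refine hc _ (1 / n) (n + 1) (by positivity) fun ρ hρ => ?_
    rw [BoundedContinuousFunction.mul_apply, BoundedContinuousFunction.mul_apply] at hρ
    have hchi : chi n ρ ≠ 0 := by
      intro h
      exact hρ (by rw [h, zero_mul, mul_zero])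
    have hcut : cutB n ρ ≠ 0 := by
      intro h
      exact hρ (by rw [h, mul_zero, mul_zero])
    constructor
    · by_contra hcon
      push Not at hcon
      rw [lt_div_iff₀ hn', mul_comm] at hcon
      refine hchi ?_
      rw [chi_apply, max_eq_left (by linarith), min_eq_right zero_le_one, Complex.ofReal_zero]
    · by_contra hcon
      push Not at hcon
      exact hcut (cutB_zero hcon.le)
  exact tendsto_const_nhds.congr' (h2.mono fun n hn => hn.symm)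

/-- the case of Lipschitz vectors -/
lemma lip_case (S : Setting M N E ξ) (hIII : TypeIIIOne N) (hΨ : Modular M ξ R D Ψ)
    (hσ : ∀ (t : ℝ), ∀ a ∈ N, Ψ (expB t) * a * Ψ (expB (-t)) ∈ N) {X : L2R H →L[ℂ] L2R H}
    (hX : X ∈ Rk M N ξ) {f g : L2R ℂ} {Lf Lg : ℝ} (hLf : 0 ≤ Lf) (hLg : 0 ≤ Lg)
    (hf : ∀ h : ℝ, ‖tr ℂ h f - f‖ ≤ Lf * |h|)
    (hg : ∀ h : ℝ, ‖tr ℂ h g - g‖ ≤ Lg * |h|) (G : ℝ →ᵇ ℂ) :
    Ψ G (E (slX X f g) ξ) = G 0 • E (slX X f g) ξ := by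
  have hM : E (slX X f g) ∈ M := S.le _ (S.E_mem _ (slX_mem hX.1 f g))
  have key : Ψ (G - G 0 • (1 : ℝ →ᵇ ℂ)) (E (slX X f g) ξ) = 0 := by
    refine vanish hΨ (fun G a b ha hG => compact_away (fun K k hK hk a b ha hs => ?_)
      (fun K k hK hk a b ha hs => ?_) ha hG) ?_
    · exact neg_half S hIII hΨ hσ hX hLf hLg hf hg hK hk ha hs
    · refine pos_half hΨ hM ?_
      rw [S.star_E_slX hX]
      refine neg_half S hIII hΨ hσ (Rk_star hX) hLg hLf hg hf (k := fun ρ => k (-ρ)) (a := a)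
        (b := b) (fun ρ => ?_) (fun ρ => hk _) ha fun ρ hρ => ?_
      · rw [rf_apply, hK, Complex.conj_ofReal]
      · have := hs _ hρ
        exact ⟨by linarith [this.2], by linarith [this.1]⟩
    · rw [BoundedContinuousFunction.sub_apply, BoundedContinuousFunction.smul_apply,
        show (1 : ℝ →ᵇ ℂ) 0 = 1 from rfl, smul_eq_mul, mul_one, sub_self]
  rw [map_sub, map_smul, map_one, sub_apply, smul_apply, one_apply_eq_self, sub_eq_zero] at key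
  exact key

lemma norm_E_sub (S : Setting M N E ξ) {x y : H →L[ℂ] H} (hx : x ∈ M) (hy : y ∈ M) :
    ‖E x ξ - E y ξ‖ ≤ ‖x ξ - y ξ‖ := by
  set d := E x - E y with hd
  have hdN : d ∈ N := sub_mem (S.E_mem x hx) (S.E_mem y hy)
  have h1 : ⟪d ξ, d ξ⟫_ℂ = ⟪d ξ, x ξ - y ξ⟫_ℂ := by
    have h2 := S.E_inner hdN (one_mem N) hx
    have h3 := S.E_inner hdN (one_mem N) hy
    rw [one_apply_eq_self] at h2 h3
    calc ⟪d ξ, d ξ⟫_ℂ = ⟪d ξ, E x ξ - E y ξ⟫_ℂ := rfl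
      _ = _ := by rw [inner_sub_right, inner_sub_right, h2, h3]
  have h2 : ‖d ξ‖ ^ 2 ≤ ‖d ξ‖ * ‖x ξ - y ξ‖ := by
    have h3 : ‖⟪d ξ, d ξ⟫_ℂ‖ = ‖d ξ‖ ^ 2 := by
      rw [inner_self_eq_norm_sq_to_K]
      simp
    rw [← h3, h1]
    exact norm_inner_le_norm _ _
  change ‖d ξ‖ ≤ _
  by_contra hcon
  push Not at hcon
  have h4 : 0 ≤ ‖x ξ - y ξ‖ := norm_nonneg _
  nlinarith [norm_nonneg (d ξ)]

end Fixed

theorem Setting.slE_fixed (S : Setting M N E ξ) (hIII : TypeIIIOne N) (hΨ : Modular M ξ R D Ψ)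
    (hσ : ∀ (t : ℝ), ∀ a ∈ N, Ψ (expB t) * a * Ψ (expB (-t)) ∈ N) {X : L2R H →L[ℂ] L2R H}
    (hX : X ∈ Rk M N ξ) (f g : L2R ℂ) (G : ℝ →ᵇ ℂ) :
    Ψ G (E (slX X f g) ξ) = G 0 • E (slX X f g) ξ := by
  have hpos : ∀ n : ℕ, (0 : ℝ) < 1 / ((n : ℝ) + 1) := fun n => by positivity
  choose f' hf1 Lf hLf hf2 using fun n => exists_lip f (hpos n)
  choose g' hg1 Lg hLg hg2 using fun n => exists_lip g (hpos n)
  have hlim : Tendsto (fun n => E (slX X (f' n) (g' n)) ξ) atTop (𝓝 (E (slX X f g) ξ)) := by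
    rw [tendsto_iff_norm_sub_tendsto_zero]
    have h0 : Tendsto (fun n : ℕ => ‖X‖ * (1 / ((n : ℝ) + 1) * ‖g‖ +
        (‖f‖ + 1) * (1 / ((n : ℝ) + 1))) * ‖ξ‖) atTop (𝓝 (‖X‖ * (0 * ‖g‖ + (‖f‖ + 1) * 0) * ‖ξ‖)) := by
      have h1 := tendsto_one_div_add_atTop_nhds_zero_nat (𝕜 := ℝ)
      exact (((h1.mul_const _).add (h1.const_mul _)).const_mul _).mul_const _
    rw [zero_mul, mul_zero, add_zero, mul_zero, zero_mul] at h0
    refine squeeze_zero (fun _ => norm_nonneg _) (fun n => ?_) h0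
    refine (Fixed.norm_E_sub S (slX_mem hX.1 _ _) (slX_mem hX.1 _ _)).trans ?_
    rw [norm_sub_rev]
    refine (slX_norm_sub X f g (f' n) (g' n) ξ).trans ?_
    have e1 : ‖f' n‖ ≤ ‖f‖ + 1 := by
      have e2 : ‖f' n‖ ≤ ‖f‖ + ‖f - f' n‖ := by
        have : f' n = f - (f - f' n) := by abel
        calc ‖f' n‖ = ‖f - (f - f' n)‖ := by rw [← this]
          _ ≤ _ := norm_sub_le _ _
      have e3 : (1 : ℝ) / ((n : ℝ) + 1) ≤ 1 := by
        rw [div_le_one (by positivity)]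
        have : (0 : ℝ) ≤ n := Nat.cast_nonneg n
        linarith
      linarith [hf1 n]
    have e4 := (hf1 n).le
    have e5 := (hg1 n).le
    gcongr
  have h1 : Tendsto (fun n => Ψ G (E (slX X (f' n) (g' n)) ξ)) atTop
      (𝓝 (Ψ G (E (slX X f g) ξ))) := ((Ψ G).continuous.tendsto _).comp hlim
  have h2 : Tendsto (fun n => G 0 • E (slX X (f' n) (g' n)) ξ) atTop
      (𝓝 (G 0 • E (slX X f g) ξ)) := hlim.const_smul _
  refine tendsto_nhds_unique h1 (h2.congr fun n => ?_)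
  exact (Fixed.lip_case S hIII hΨ hσ hX (hLf n) (hLg n) (hf2 n) (hg2 n) G).symm

end Pool.Agent.Helper23
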