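import Pool.Agent.Helper53.U.III1

/-!
# V-1: asymptotic isometries in algebras of type III_1
-/

open scoped InnerProductSpace Topology
open ContinuousLinearMap Filter

namespace Pool.Agent.Helper23

universe u

variable {H : Type u} [NormedAddCommGroup H] [InnerProductSpace ℂ H] [CompleteSpace H]
  {N : VonNeumannAlgebra H} {ξ : H}

namespace Isom

theorem defect {a b : H →L[ℂ] H} {s r ε : ℝ} (hs : 0 < s) (hε : 0 ≤ ε) (ha : a ∈ N)
    (haa : star a * a = 1) (hba : star b * a = 0)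
    (h : ∀ x ∈ N, ‖⟪ξ, x ξ⟫_ℂ - ((s : ℂ) * ⟪ξ, (star a * x * a) ξ⟫_ℂ +
      (r : ℂ) * ⟪ξ, (star b * x * b) ξ⟫_ℂ)‖ ≤ ε * ‖x‖) :
    Defect N ξ s⁻¹ (s⁻¹ * ε) a := by
  intro z hz
  have h1 := h (a * z) (mul_mem ha hz)
  have e1 : star a * (a * z) * a = z * a := by
    rw [← mul_assoc, haa, one_mul]
  have e2 : star b * (a * z) * b = 0 := by
    rw [← mul_assoc, hba, zero_mul, zero_mul]
  have hz0 : ⟪ξ, (0 : H →L[ℂ] H) ξ⟫_ℂ = 0 := inner_zero_right ξ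
  rw [e1, e2, hz0, mul_zero, add_zero] at h1
  have a1 : (z * a) ξ = z (a ξ) := rfl
  have a2 : (a * z) ξ = a (z ξ) := rfl
  rw [a1, a2] at h1
  have hsC : (s : ℂ) ≠ 0 := by exact_mod_cast hs.ne'
  have e3 : ⟪ξ, z (a ξ)⟫_ℂ - ((s⁻¹ : ℝ) : ℂ) * ⟪ξ, a (z ξ)⟫_ℂ =
      -((s⁻¹ : ℝ) : ℂ) * (⟪ξ, a (z ξ)⟫_ℂ - (s : ℂ) * ⟪ξ, z (a ξ)⟫_ℂ) := by
    push_cast
    field_simp
    ring
  have hna : ‖a‖ ≤ 1 := norm_le_one_of_isom haa
  have h2 : ‖a * z‖ ≤ ‖z‖ := by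
    refine (norm_mul_le _ _).trans ?_
    have := mul_le_mul_of_nonneg_right hna (norm_nonneg z)
    rwa [one_mul] at this
  rw [e3, norm_mul, norm_neg, Complex.norm_real, Real.norm_eq_abs, abs_of_pos (inv_pos.2 hs)]
  calc s⁻¹ * ‖⟪ξ, a (z ξ)⟫_ℂ - (s : ℂ) * ⟪ξ, z (a ξ)⟫_ℂ‖
      ≤ s⁻¹ * (ε * ‖a * z‖) := by gcongr
    _ ≤ s⁻¹ * (ε * ‖z‖) := by gcongr
    _ = s⁻¹ * ε * ‖z‖ := by ring

theorem tendsto_aux (c : ℝ) {ε : ℝ} (hε : 0 < ε) :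
    ∀ᶠ n : ℕ in atTop, c * (1 / ((n : ℝ) + 1)) < ε := by
  have h2 := (tendsto_one_div_add_atTop_nhds_zero_nat (𝕜 := ℝ)).const_mul c
  rw [mul_zero] at h2
  exact h2.eventually (gt_mem_nhds hε)

end Isom

theorem TypeIIIOne.exists_isometries (hIII : TypeIIIOne N) (hξ : ‖ξ‖ = 1) {t : ℝ} (h0 : 0 < t)
    (h1 : t < 1) : ∃ a b : ℕ → H →L[ℂ] H, LamSeq N ξ t⁻¹ a ∧ LamSeq N ξ (1 - t)⁻¹ b ∧
      (∀ n, star (a n) * a n = 1) ∧ (∀ n, star (b n) * b n = 1) ∧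
      (∀ n, star (a n) * b n = 0) ∧
      ∀ ε : ℝ, 0 < ε → ∀ᶠ n in atTop, ∀ x ∈ N,
        ‖⟪ξ, x ξ⟫_ℂ - ((t : ℂ) * ⟪ξ, (star (a n) * x * a n) ξ⟫_ℂ +
          ((1 - t : ℝ) : ℂ) * ⟪ξ, (star (b n) * x * b n) ξ⟫_ℂ)‖ ≤ ε * ‖x‖ := by
  obtain ⟨⟨v, hv, w, hw, hvv, hww, hvw⟩, hst⟩ := hIII
  have h1' : 0 < 1 - t := by linarith
  have hα : Real.sqrt t ^ 2 = t := Real.sq_sqrt h0.le
  have hβ : Real.sqrt (1 - t) ^ 2 = 1 - t := Real.sq_sqrt h1'.le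
  generalize Real.sqrt t = α at hα
  generalize Real.sqrt (1 - t) = β at hβ
  have hnorm : ‖(α : ℂ) • v ξ‖ ^ 2 + ‖(β : ℂ) • w ξ‖ ^ 2 = 1 := by
    rw [norm_smul, norm_smul, norm_isom_apply hvv, norm_isom_apply hww, hξ, Complex.norm_real,
      Complex.norm_real, mul_one, mul_one, Real.norm_eq_abs, Real.norm_eq_abs, sq_abs, sq_abs,
      hα, hβ]
    ring
  have hζ : ‖ξ‖ ^ 2 + ‖(0 : H)‖ ^ 2 = 1 := by rw [hξ, norm_zero]; norm_num
  have hex : ∀ n : ℕ, ∃ u ∈ N, star u * u = 1 ∧ ∀ x ∈ N,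
      ‖⟪ξ, x ξ⟫_ℂ - ((t : ℂ) * ⟪ξ, (star (u * v) * x * (u * v)) ξ⟫_ℂ +
        ((1 - t : ℝ) : ℂ) * ⟪ξ, (star (u * w) * x * (u * w)) ξ⟫_ℂ)‖ ≤
          (1 / ((n : ℝ) + 1)) * ‖x‖ := by
    intro n
    obtain ⟨u, hu, hu1, -, h3⟩ := hst _ _ ξ 0 hnorm hζ (1 / ((n : ℝ) + 1)) (by positivity)
    refine ⟨u, hu, hu1, fun x hx => ?_⟩
    have h4 := h3 x hx
    rw [inner_conj_aux, inner_conj_aux, inner_zero_left, add_zero, hα, hβ] at h4
    rw [norm_sub_rev]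
    exact h4
  choose u hu hu1 hux using hex
  have haa : ∀ n, star (u n * v) * (u n * v) = 1 := by
    intro n
    have : star (u n * v) * (u n * v) = star v * ((star (u n) * u n) * v) := by
      rw [star_mul]; noncomm_ring
    rw [this, hu1, one_mul, hvv]
  have hbb : ∀ n, star (u n * w) * (u n * w) = 1 := by
    intro n
    have : star (u n * w) * (u n * w) = star w * ((star (u n) * u n) * w) := by
      rw [star_mul]; noncomm_ring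
    rw [this, hu1, one_mul, hww]
  have hab : ∀ n, star (u n * v) * (u n * w) = 0 := by
    intro n
    have : star (u n * v) * (u n * w) = star v * ((star (u n) * u n) * w) := by
      rw [star_mul]; noncomm_ring
    rw [this, hu1, one_mul, hvw]
  have hba : ∀ n, star (u n * w) * (u n * v) = 0 := by
    intro n
    have := congrArg star (hab n)
    rwa [star_mul, star_star, star_zero] at this
  refine ⟨fun n => u n * v, fun n => u n * w, ⟨fun n => mul_mem (hu n) hv,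
    ⟨1, fun n => norm_le_one_of_isom (haa n)⟩, ?_⟩, ⟨fun n => mul_mem (hu n) hw,
    ⟨1, fun n => norm_le_one_of_isom (hbb n)⟩, ?_⟩, haa, hbb, hab, ?_⟩
  · intro ε hε
    refine (Isom.tendsto_aux t⁻¹ hε).mono fun n hn => ?_
    exact (Isom.defect h0 (by positivity) (mul_mem (hu n) hv) (haa n) (hba n) (hux n)).mono hn.le
  · intro ε hε
    refine (Isom.tendsto_aux (1 - t)⁻¹ hε).mono fun n hn => ?_
    refine (Isom.defect (r := t) h1' (by positivity) (mul_mem (hu n) hw) (hbb n) (hab n)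
      fun x hx => ?_).mono hn.le
    rw [add_comm]
    exact hux n x hx
  · intro ε hε
    have h5 := Isom.tendsto_aux 1 hε
    refine h5.mono fun n hn x hx => (hux n x hx).trans ?_
    rw [one_mul] at hn
    gcongr

end Pool.Agent.Helper23
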