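import Pool.Agent.Helper23.VDefs

/-!
# The KMS condition in the functional calculus, and smoothing of arbitrary index
-/

open scoped InnerProductSpace Topology ENNReal BoundedContinuousFunction
open ContinuousLinearMap Filter MeasureTheory

namespace Pool.Agent.Helper23

universe u

variable {H : Type u} [NormedAddCommGroup H] [InnerProductSpace ℂ H] [CompleteSpace H]
variable {M N : VonNeumannAlgebra H} {ξ : H} {E : (H →L[ℂ] H) → (H →L[ℂ] H)}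
variable {R : H →L[ℂ] H} {D : H →L[ℝ] H} {Ψ : (ℝ →ᵇ ℂ) →⋆ₐ[ℂ] (H →L[ℂ] H)}

namespace Kms

open Helper70.U8

/-- the function `(2 - FR)⁻² Helper70.U8.GB` -/
noncomputable def G1 (ε : ℝ) (hε : 0 < ε) (κ : ℝ) : ℝ →ᵇ ℂ :=
  (1 / 4 : ℂ) • (Helper70.U8.GB ε hε κ + (2 : ℂ) • Helper70.U8.GB ε hε (κ - 1) + Helper70.U8.GB ε hε (κ - 2))

/-- its reflection -/
noncomputable def G2 (ε : ℝ) (hε : 0 < ε) (κ : ℝ) : ℝ →ᵇ ℂ :=
  (1 / 4 : ℂ) • (Helper70.U8.GB ε hε (-κ) + (2 : ℂ) • Helper70.U8.GB ε hε (1 - κ) + Helper70.U8.GB ε hε (2 - κ))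

lemma G1_apply {ε : ℝ} (hε : 0 < ε) (κ ρ : ℝ) : G1 ε hε κ ρ =
    (((1 + Real.exp (-ρ)) ^ 2 / 4 * Real.exp (-(ε * ρ ^ 2) + κ * ρ) : ℝ) : ℂ) := by
  have h1 : Real.exp (-(ε * ρ ^ 2) + (κ - 1) * ρ) =
      Real.exp (-ρ) * Real.exp (-(ε * ρ ^ 2) + κ * ρ) := by
    rw [← Real.exp_add]; ring_nf
  have h2 : Real.exp (-(ε * ρ ^ 2) + (κ - 2) * ρ) =
      Real.exp (-ρ) * (Real.exp (-ρ) * Real.exp (-(ε * ρ ^ 2) + κ * ρ)) := by
    rw [← Real.exp_add, ← Real.exp_add]; ring_nf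
  unfold G1
  rw [BoundedContinuousFunction.smul_apply, BoundedContinuousFunction.add_apply,
    BoundedContinuousFunction.add_apply, BoundedContinuousFunction.smul_apply, Helper70.U8.GB_apply, Helper70.U8.GB_apply,
    Helper70.U8.GB_apply, h1, h2]
  push_cast
  simp only [smul_eq_mul]
  ring

lemma G2_apply {ε : ℝ} (hε : 0 < ε) (κ ρ : ℝ) : G2 ε hε κ ρ =
    (((1 + Real.exp ρ) ^ 2 / 4 * Real.exp (-(ε * ρ ^ 2) + -κ * ρ) : ℝ) : ℂ) := by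
  have h1 : Real.exp (-(ε * ρ ^ 2) + (1 - κ) * ρ) =
      Real.exp ρ * Real.exp (-(ε * ρ ^ 2) + -κ * ρ) := by
    rw [← Real.exp_add]; ring_nf
  have h2 : Real.exp (-(ε * ρ ^ 2) + (2 - κ) * ρ) =
      Real.exp ρ * (Real.exp ρ * Real.exp (-(ε * ρ ^ 2) + -κ * ρ)) := by
    rw [← Real.exp_add, ← Real.exp_add]; ring_nf
  unfold G2
  rw [BoundedContinuousFunction.smul_apply, BoundedContinuousFunction.add_apply,
    BoundedContinuousFunction.add_apply, BoundedContinuousFunction.smul_apply, Helper70.U8.GB_apply, Helper70.U8.GB_apply,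
    Helper70.U8.GB_apply, h1, h2]
  push_cast
  simp only [smul_eq_mul]
  ring

lemma two_sub_apply (ρ : ℝ) : (2 - FR : ℝ →ᵇ ℂ) ρ =
    ((2 * Real.exp ρ / (1 + Real.exp ρ) : ℝ) : ℂ) := by
  have h3 : (2 : ℝ →ᵇ ℂ) ρ = 2 := rfl
  rw [BoundedContinuousFunction.sub_apply, Pool.Agent.Helper43.TTF.FR_apply, h3]
  have h4 : (0 : ℝ) < 1 + Real.exp ρ := by positivity
  have h5 : 2 - 2 / (1 + Real.exp ρ) = 2 * Real.exp ρ / (1 + Real.exp ρ) := by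
    field_simp
    ring
  rw [← h5]
  push_cast
  ring

lemma key1 {ε : ℝ} (hε : 0 < ε) (κ : ℝ) :
    (2 - FR) * (G1 ε hε κ * (2 - FR)) = Helper70.U8.GB ε hε κ := by
  ext ρ
  rw [BoundedContinuousFunction.mul_apply, BoundedContinuousFunction.mul_apply, two_sub_apply,
    G1_apply, Helper70.U8.GB_apply, ← Complex.ofReal_mul, ← Complex.ofReal_mul, Real.exp_neg]
  congr 1
  have h4 : (0 : ℝ) < 1 + Real.exp ρ := by positivity
  have h6 : (0 : ℝ) < Real.exp ρ := Real.exp_pos _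
  field_simp
  ring

lemma key2 {ε : ℝ} (hε : 0 < ε) (κ : ℝ) :
    G2 ε hε κ * (FR * (2 - FR)) = Helper70.U8.GB ε hε (1 - κ) := by
  ext ρ
  rw [BoundedContinuousFunction.mul_apply, BoundedContinuousFunction.mul_apply, two_sub_apply,
    G2_apply, Helper70.U8.GB_apply, Pool.Agent.Helper43.TTF.FR_apply, ← Complex.ofReal_mul,
    ← Complex.ofReal_mul]
  congr 1
  have h4 : (0 : ℝ) < 1 + Real.exp ρ := by positivity
  have h1 : Real.exp (-(ε * ρ ^ 2) + (1 - κ) * ρ) =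
      Real.exp ρ * Real.exp (-(ε * ρ ^ 2) + -κ * ρ) := by
    rw [← Real.exp_add]; ring_nf
  rw [h1]
  field_simp
  norm_num

lemma star_two_sub : star (2 - FR : ℝ →ᵇ ℂ) = 2 - FR := by
  ext ρ
  rw [BoundedContinuousFunction.star_apply, two_sub_apply, Complex.star_def, Complex.conj_ofReal]

lemma star_G2 {ε : ℝ} (hε : 0 < ε) (κ : ℝ) : star (G2 ε hε κ) = G2 ε hε κ := by
  ext ρ
  rw [BoundedContinuousFunction.star_apply, G2_apply, Complex.star_def, Complex.conj_ofReal]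

lemma star_GB {ε : ℝ} (hε : 0 < ε) (κ : ℝ) : star (Helper70.U8.GB ε hε κ) = Helper70.U8.GB ε hε κ := by
  ext ρ
  rw [BoundedContinuousFunction.star_apply, Helper70.U8.GB_apply, Complex.star_def, Complex.conj_ofReal]

lemma D_apply (hΨ : Modular M ξ R D Ψ) {a : H →L[ℂ] H} (ha : a ∈ M) :
    D (a ξ) = Ψ (2 - FR) ((star a) ξ) := by
  rw [hΨ.data.D_mem _ ha, map_sub, hΨ.psi_FR, Pool.Agent.Helper43.TTF.psi_two, sub_apply,
    smul_apply, one_apply_eq_self]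

lemma sm_star' (h : Modular M ξ R D Ψ) {k k' : ℝ → ℂ} (hk : Integrable k) (hk' : Integrable k')
    (hr : ∀ t, (starRingEnd ℂ) (k t) = k' t) (z : H →L[ℂ] H) :
    star (sm h hk z) = sm h hk' (star z) := by
  ext w
  refine ext_inner_left ℂ fun v => ?_
  rw [inner_star_right, ← inner_conj_symm, inner_sm, inner_sm, ← integral_conj]
  congr 1
  funext t
  rw [map_mul, hr, inner_conj_symm, ← inner_star_right (U Ψ t), U_star, ← inner_star_right z,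
    ← inner_star_right (V Ψ t), V_star]

lemma kg_conj (ε κ t : ℝ) : (starRingEnd ℂ) (kg ε κ t) = kg ε (-κ) t := by
  unfold kg
  rw [map_mul, map_mul, Complex.conj_ofReal, Complex.conj_ofReal, ← Complex.exp_conj, map_mul,
    Complex.conj_ofReal, Complex.conj_I]
  congr 2
  · congr 1
    push_cast
    ring
  · rw [neg_sq]

end Kms

open Helper70.U8 in
theorem Modular.kms (hΨ : Modular M ξ R D Ψ) {a b : H →L[ℂ] H} (ha : a ∈ M) (hb : b ∈ M)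
    {ε : ℝ} (hε : 0 < ε) (κ : ℝ) :
    ⟪(star a) ξ, Ψ (Helper70.U8.GB ε hε κ) ((star b) ξ)⟫_ℂ =
      ⟪Ψ (Helper70.U8.GB ε hε (1 - κ)) (b ξ), a ξ⟫_ℂ := by
  have h1 : ⟪(star a) ξ, Ψ (Helper70.U8.GB ε hε κ) ((star b) ξ)⟫_ℂ =
      ⟪D (a ξ), Ψ (Kms.G1 ε hε κ) (D (b ξ))⟫_ℂ := by
    rw [Kms.D_apply hΨ ha, Kms.D_apply hΨ hb, psi_adj, Kms.star_two_sub, ← psi_mul_apply,
      ← psi_mul_apply, mul_assoc, Kms.key1]
  have h2 : Ψ (Kms.G1 ε hε κ) (D (b ξ)) = D (Ψ (Kms.G2 ε hε κ) (b ξ)) := by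
    refine (hΨ.psi_D _ _ (fun ρ => ?_) _).symm
    rw [Kms.G1_apply, Kms.G2_apply, Complex.conj_ofReal]
    congr 3
    ring
  have h3 : D (D (a ξ)) = Ψ (FR * (2 - FR)) (a ξ) := by
    rw [hΨ.data.D_sq, psi_mul_apply, hΨ.psi_FR, map_sub Ψ, hΨ.psi_FR,
      Pool.Agent.Helper43.TTF.psi_two, sub_apply, smul_apply, one_apply_eq_self]
  rw [h1, h2, hΨ.data.D_symm, h3, psi_adj, Kms.star_G2, ← psi_mul_apply, Kms.key2, psi_adj,
    Kms.star_GB]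

open Helper70.U8 in
theorem Modular.exists_sm (hΨ : Modular M ξ R D Ψ) {B : VonNeumannAlgebra H}
    (hB : ∀ (t : ℝ), ∀ a ∈ B, Ψ (expB t) * a * Ψ (expB (-t)) ∈ B) {b : H →L[ℂ] H} (hb : b ∈ B)
    {ε : ℝ} (hε : 0 < ε) (κ : ℝ) :
    ∃ b' ∈ B, b' ξ = Ψ (Helper70.U8.GB ε hε κ) (b ξ) ∧
      (star b') ξ = Ψ (Helper70.U8.GB ε hε (-κ)) ((star b) ξ) := by
  refine ⟨sm hΨ (kg_int hε κ) b, sm_mem hΨ _ hB hb, ?_, ?_⟩
  · exact sm_xi hΨ _ (fun ρ => by rw [Helper70.U8.GB_apply]; exact kg_fourier hε _ ρ) _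
  · rw [Kms.sm_star' hΨ (kg_int hε κ) (kg_int hε (-κ)) (fun t => Kms.kg_conj ε κ t)]
    exact sm_xi hΨ _ (fun ρ => by rw [Helper70.U8.GB_apply]; exact kg_fourier hε _ ρ) _

end Pool.Agent.Helper23
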