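import Pool.Agent.Helper23.VDefs
import Pool.Agent.Helper68.G2b4

/-!
# Project V, module LamB: uniform bound for right multiplication by asymptotic eigenoperators
-/

open scoped InnerProductSpace Topology ENNReal BoundedContinuousFunction
open ContinuousLinearMap Filter MeasureTheory

namespace Pool.Agent.Helper23

universe u

variable {H : Type u} [NormedAddCommGroup H] [InnerProductSpace ℂ H] [CompleteSpace H]
variable {M N : VonNeumannAlgebra H} {ξ : H} {E : (H →L[ℂ] H) → (H →L[ℂ] H)}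

namespace LamB

lemma defect_M (S : Setting M N E ξ) {l : ℝ} {u : H →L[ℂ] H} (hu : u ∈ N) {δ : ℝ} (hδ : 0 ≤ δ)
    (hD : Defect N ξ l δ u) : Defect M ξ l δ u := by
  intro z hz
  have h1 := S.E_inner (one_mem N) hu hz
  rw [one_apply_eq_self] at h1
  have h2 := S.E_inner (star_mem hu) (one_mem N) hz
  rw [one_apply_eq_self, inner_star_left, inner_star_left] at h2
  have h3 := hD (E z) (S.E_mem z hz)
  rw [h1, h2] at h3
  exact h3.trans (mul_le_mul_of_nonneg_left (S.E_norm hz) hδ)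

lemma inner_mul_apply (z a : H →L[ℂ] H) (ζ : H) :
    ⟪ζ, (star a * (star z * z)) (a ζ)⟫_ℂ = ((‖z (a ζ)‖ ^ 2 : ℝ) : ℂ) := by
  change ⟪ζ, (star a) ((star z) (z (a ζ)))⟫_ℂ = _
  rw [inner_star_right, inner_star_right, inner_self_eq_norm_sq_to_K]
  push_cast
  rfl

lemma norm_le_sq {u : H →L[ℂ] H} {C : ℝ} (hu : ‖u‖ ≤ C) (z : H →L[ℂ] H) :
    ‖star u * (star z * z)‖ ≤ C * ‖z‖ ^ 2 := by
  refine (norm_mul_le _ _).trans ?_
  rw [norm_star]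
  refine mul_le_mul hu ?_ (norm_nonneg _) ((norm_nonneg _).trans hu)
  refine (norm_mul_le _ _).trans ?_
  rw [norm_star, sq]

/-- the case of unitaries -/
lemma unitary (S : Setting M N E ξ) {u : H →L[ℂ] H} (hu : u ∈ N)
    (hu1 : star u * u = 1) (hu2 : u * star u = 1) {δ : ℝ} (hδ : 0 ≤ δ)
    (hD : Defect N ξ 1 δ u) {z : H →L[ℂ] H} (hz : z ∈ M) :
    ‖z (u ξ)‖ ≤ ‖z ξ‖ + Real.sqrt δ * ‖z‖ := by
  have hDM := defect_M S hu hδ hD
  have h1 := hDM (star u * (star z * z)) (mul_mem (star_mem (S.le u hu))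
    (mul_mem (star_mem hz) hz))
  rw [inner_mul_apply] at h1
  have h2 : ⟪ξ, u ((star u * (star z * z)) ξ)⟫_ℂ = ((‖z ξ‖ ^ 2 : ℝ) : ℂ) := by
    have e1 : u ((star u * (star z * z)) ξ) = (star z) (z ξ) :=
      congrArg (fun T : H →L[ℂ] H => T ((star z) (z ξ))) hu2
    rw [e1, inner_star_right, inner_self_eq_norm_sq_to_K]
    push_cast
    rfl
  rw [h2, Complex.ofReal_one, one_mul, ← Complex.ofReal_sub, Complex.norm_real,
    Real.norm_eq_abs] at h1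
  have h3 : ‖star u * (star z * z)‖ ≤ 1 * ‖z‖ ^ 2 := norm_le_sq (norm_le_one_of_isom hu1) z
  have h4 : ‖z (u ξ)‖ ^ 2 ≤ ‖z ξ‖ ^ 2 + δ * ‖z‖ ^ 2 := by
    have h5 := (abs_le.1 h1).2
    have h6 : δ * ‖star u * (star z * z)‖ ≤ δ * ‖z‖ ^ 2 := by
      rw [one_mul] at h3
      exact mul_le_mul_of_nonneg_left h3 hδ
    linarith
  have h5 : ‖z (u ξ)‖ ^ 2 ≤ (‖z ξ‖ + Real.sqrt δ * ‖z‖) ^ 2 := by
    have h6 : Real.sqrt δ ^ 2 = δ := Real.sq_sqrt hδ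
    have h7 : 0 ≤ ‖z ξ‖ * (Real.sqrt δ * ‖z‖) := by positivity
    nlinarith
  exact (pow_le_pow_iff_left₀ (norm_nonneg _) (by positivity) two_ne_zero).1 h5

/-- decomposition of an almost centralizing sequence into four sequences of unitaries -/
lemma four (S : Setting M N E ξ) {b : ℕ → H →L[ℂ] H} (hb : ∀ n, b n ∈ N) {C : ℝ}
    (hC0 : 0 ≤ C) (hC : ∀ n, ‖b n‖ ≤ C) (hD : Dseq N ξ 1 b) :
    ∃ (u : Fin 4 → ℕ → H →L[ℂ] H) (k : Fin 4 → ℂ), (∀ i, ‖k i‖ ≤ C / 2) ∧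
      (∀ i, ACU N ξ (u i)) ∧ ∀ n, b n = ∑ i, k i • u i n := by
  have hcl : IsClosed (ACalg N ξ : Set (ℕ →ᵇ N.toStarSubalgebra)) := ACalg_isClosed S.norm_one
  let a' : ℕ →ᵇ N.toStarSubalgebra :=
    BoundedContinuousFunction.ofNormedAddCommGroup
      (fun n => (⟨b n, hb n⟩ : N.toStarSubalgebra))
      continuous_of_discreteTopology C (fun n => hC n)
  have hnorm : ‖a'‖ ≤ C := by
    rw [BoundedContinuousFunction.norm_le hC0]
    exact fun n => hC n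
  have ha'n : ∀ n, ((a' n : N.toStarSubalgebra) : H →L[ℂ] H) = b n := fun n => rfl
  have ha' : a' ∈ ACalg N ξ := hD
  obtain ⟨u, k, hk, hkn⟩ := CStarAlgebra.exists_sum_four_unitary (⟨a', ha'⟩ : ACalg N ξ)
  have hkn' : ∀ i, ‖k i‖ ≤ ‖a'‖ / 2 := hkn
  refine ⟨fun i n => ((((u i : ACalg N ξ) : ℕ →ᵇ N.toStarSubalgebra) n : N.toStarSubalgebra) :
      H →L[ℂ] H), k, fun i => (hkn' i).trans (by linarith), fun i => ?_, fun n => ?_⟩
  · refine ⟨fun n => ((((u i : ACalg N ξ) : ℕ →ᵇ N.toStarSubalgebra) n).2), fun n => ?_,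
        fun n => ?_, (u i : ACalg N ξ).2⟩
    · have e1 : star (((u i : ACalg N ξ) : ℕ →ᵇ N.toStarSubalgebra) n) *
          (((u i : ACalg N ξ) : ℕ →ᵇ N.toStarSubalgebra) n) = 1 := by
        have := Unitary.star_mul_self_of_mem (u i).2
        exact congrArg (fun z : ACalg N ξ => (z : ℕ →ᵇ N.toStarSubalgebra) n) this
      exact congrArg (fun z : N.toStarSubalgebra => (z : H →L[ℂ] H)) e1
    · have e2 : (((u i : ACalg N ξ) : ℕ →ᵇ N.toStarSubalgebra) n) *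
          star (((u i : ACalg N ξ) : ℕ →ᵇ N.toStarSubalgebra) n) = 1 := by
        have := Unitary.mul_star_self_of_mem (u i).2
        exact congrArg (fun z : ACalg N ξ => (z : ℕ →ᵇ N.toStarSubalgebra) n) this
      exact congrArg (fun z : N.toStarSubalgebra => (z : H →L[ℂ] H)) e2
  · have h1 : a' = ∑ i, k i • (((u i : ACalg N ξ) : ℕ →ᵇ N.toStarSubalgebra)) := by
      have := congrArg (fun z : ACalg N ξ => (z : ℕ →ᵇ N.toStarSubalgebra)) hk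
      simpa using this
    have h2 : a' n = ∑ i, k i • (((u i : ACalg N ξ) : ℕ →ᵇ N.toStarSubalgebra)) n := by
      rw [h1, BoundedContinuousFunction.sum_apply]
      rfl
    rw [← ha'n n, h2]
    simp

end LamB

theorem Setting.lam_bound (S : Setting M N E ξ) {l : ℝ} (hl : 0 < l) {a : ℕ → H →L[ℂ] H}
    (ha : LamSeq N ξ l a) : ∃ K : ℝ, 0 ≤ K ∧ ∀ ε : ℝ, 0 < ε → ∀ᶠ n in atTop, ∀ z ∈ M,
      ‖z (a n ξ)‖ ^ 2 ≤ K * ‖z ξ‖ ^ 2 + ε * ‖z‖ ^ 2 := by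
  obtain ⟨haN, ⟨C', hC'⟩, hD⟩ := ha
  have hC0' : 0 ≤ C' := (norm_nonneg _).trans (hC' 0)
  set C := C' + 1 with hC
  have hC0 : 0 < C := by positivity
  have hCa : ∀ n, ‖a n‖ ≤ C := fun n => (hC' n).trans (by linarith)
  have hbN : ∀ n, a n * star (a n) ∈ N := fun n => mul_mem (haN n) (star_mem (haN n))
  have hbC : ∀ n, ‖a n * star (a n)‖ ≤ C ^ 2 := fun n => by
    refine (norm_mul_le _ _).trans ?_
    rw [norm_star, sq]
    exact mul_le_mul (hCa n) (hCa n) (norm_nonneg _) hC0.le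
  have hbD : Dseq N ξ 1 (fun n => a n * star (a n)) := by
    have h1 := Dseq.mul (N := N) (ξ := ξ) haN (fun n => star_mem (haN n)) hCa
      (fun n => by rw [norm_star]; exact hCa n) hD (Dseq.star hl hD)
    rwa [mul_inv_cancel₀ hl.ne'] at h1
  obtain ⟨u, k, hk, hu, hsum⟩ := LamB.four S hbN (by positivity) hbC hbD
  refine ⟨3 * l * C ^ 2, by positivity, fun ε hε => ?_⟩
  set δ := ε / (l * C ^ 2 + C + 1) with hδ
  have hδ0 : 0 < δ := by positivity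
  have hδε : (l * C ^ 2 + C) * δ ≤ ε := by
    have h1 : (l * C ^ 2 + C + 1) * δ = ε := by rw [hδ]; field_simp
    nlinarith
  have hev : ∀ᶠ n in atTop, ∀ i, Defect N ξ 1 δ (u i n) :=
    eventually_all.2 fun i => (hu i).2.2.2 δ hδ0
  filter_upwards [hD δ hδ0, hev] with n h1 h2
  intro z hz
  have h3 := LamB.defect_M S (haN n) hδ0.le h1 (star (a n) * (star z * z))
    (mul_mem (star_mem (S.le _ (haN n))) (mul_mem (star_mem hz) hz))
  rw [LamB.inner_mul_apply] at h3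
  have h4 : ⟪ξ, a n ((star (a n) * (star z * z)) ξ)⟫_ℂ =
      ⟪z ((a n * star (a n)) ξ), z ξ⟫_ℂ := by
    change ⟪ξ, a n ((star (a n)) ((star z) (z ξ)))⟫_ℂ = ⟪z (a n ((star (a n)) ξ)), z ξ⟫_ℂ
    rw [← inner_star_left (a n) ξ, inner_star_right, inner_star_right]
  rw [h4] at h3
  have h5 : ‖z ((a n * star (a n)) ξ)‖ ≤ 2 * C ^ 2 * (‖z ξ‖ + Real.sqrt δ * ‖z‖) := by
    rw [hsum n]
    have e1 : z ((∑ i, k i • u i n) ξ) = ∑ i, k i • z (u i n ξ) := by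
      simp only [sum_apply, FunLike.coe_smul, Pi.smul_apply, map_sum, map_smul]
    rw [e1]
    calc ‖∑ i, k i • z (u i n ξ)‖ ≤ ∑ i, ‖k i • z (u i n ξ)‖ := norm_sum_le _ _
      _ ≤ ∑ _i : Fin 4, C ^ 2 / 2 * (‖z ξ‖ + Real.sqrt δ * ‖z‖) := by
          refine Finset.sum_le_sum fun i _ => ?_
          rw [norm_smul]
          exact mul_le_mul (hk i) (LamB.unitary S ((hu i).1 n) ((hu i).2.1 n) ((hu i).2.2.1 n)
            hδ0.le (h2 i) hz) (norm_nonneg _) (by positivity)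
      _ = 2 * C ^ 2 * (‖z ξ‖ + Real.sqrt δ * ‖z‖) := by
          simp only [Finset.sum_const, Finset.card_univ, Fintype.card_fin, nsmul_eq_mul]
          push_cast
          ring
  have h6 : ‖z (a n ξ)‖ ^ 2 ≤ l * (‖z ((a n * star (a n)) ξ)‖ * ‖z ξ‖) + δ * (C * ‖z‖ ^ 2) := by
    have e1 : ‖((‖z (a n ξ)‖ ^ 2 : ℝ) : ℂ)‖ ≤
        ‖((‖z (a n ξ)‖ ^ 2 : ℝ) : ℂ) - l * ⟪z ((a n * star (a n)) ξ), z ξ⟫_ℂ‖ +
        ‖(l : ℂ) * ⟪z ((a n * star (a n)) ξ), z ξ⟫_ℂ‖ := by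
      have := norm_add_le (((‖z (a n ξ)‖ ^ 2 : ℝ) : ℂ) -
        l * ⟪z ((a n * star (a n)) ξ), z ξ⟫_ℂ) ((l : ℂ) * ⟪z ((a n * star (a n)) ξ), z ξ⟫_ℂ)
      rwa [sub_add_cancel] at this
    rw [Complex.norm_real, Real.norm_of_nonneg (by positivity), norm_mul, Complex.norm_real,
      Real.norm_of_nonneg hl.le] at e1
    have e2 := norm_inner_le_norm (𝕜 := ℂ) (z ((a n * star (a n)) ξ)) (z ξ)
    have e3 : δ * ‖star (a n) * (star z * z)‖ ≤ δ * (C * ‖z‖ ^ 2) :=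
      mul_le_mul_of_nonneg_left (LamB.norm_le_sq (hCa n) z) hδ0.le
    have e4 := mul_le_mul_of_nonneg_left e2 hl.le
    linarith
  have h7 : Real.sqrt δ ^ 2 = δ := Real.sq_sqrt hδ0.le
  have h8 : l * (‖z ((a n * star (a n)) ξ)‖ * ‖z ξ‖) ≤
      l * (2 * C ^ 2 * (‖z ξ‖ + Real.sqrt δ * ‖z‖) * ‖z ξ‖) :=
    mul_le_mul_of_nonneg_left (mul_le_mul_of_nonneg_right h5 (norm_nonneg _)) hl.le
  have h9 : (Real.sqrt δ * ‖z‖) * ‖z ξ‖ ≤ (‖z ξ‖ ^ 2 + δ * ‖z‖ ^ 2) / 2 := by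
    have e1 : (Real.sqrt δ * ‖z‖) ^ 2 = δ * ‖z‖ ^ 2 := by rw [mul_pow, h7]
    nlinarith [sq_nonneg (Real.sqrt δ * ‖z‖ - ‖z ξ‖)]
  have h10 : l * (2 * C ^ 2 * (‖z ξ‖ + Real.sqrt δ * ‖z‖) * ‖z ξ‖) ≤
      3 * l * C ^ 2 * ‖z ξ‖ ^ 2 + l * C ^ 2 * δ * ‖z‖ ^ 2 := by
    have e1 : l * (2 * C ^ 2 * (‖z ξ‖ + Real.sqrt δ * ‖z‖) * ‖z ξ‖) =
        l * (2 * C ^ 2) * (‖z ξ‖ ^ 2 + (Real.sqrt δ * ‖z‖) * ‖z ξ‖) := by ring
    rw [e1]
    have e2 : l * (2 * C ^ 2) * (‖z ξ‖ ^ 2 + (Real.sqrt δ * ‖z‖) * ‖z ξ‖) ≤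
        l * (2 * C ^ 2) * (‖z ξ‖ ^ 2 + (‖z ξ‖ ^ 2 + δ * ‖z‖ ^ 2) / 2) := by
      refine mul_le_mul_of_nonneg_left ?_ (by positivity)
      linarith
    refine e2.trans (le_of_eq ?_)
    ring
  have h11 : (l * C ^ 2 + C) * δ * ‖z‖ ^ 2 ≤ ε * ‖z‖ ^ 2 :=
    mul_le_mul_of_nonneg_right hδε (by positivity)
  nlinarith

end Pool.Agent.Helper23
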