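import Pool.Agent.V.Isom
import Pool.Agent.V.LamB

/-!
# Asymptotic eigenvectors of the state separate the points of `M`
-/

open scoped InnerProductSpace Topology ENNReal BoundedContinuousFunction
open ContinuousLinearMap Filter MeasureTheory

namespace Pool.Agent.Helper23

universe u

variable {H : Type u} [NormedAddCommGroup H] [InnerProductSpace ℂ H] [CompleteSpace H]
variable {M N : VonNeumannAlgebra H} {ξ : H} {E : (H →L[ℂ] H) → (H →L[ℂ] H)}

namespace LamZ

lemma lam_mul {l l' : ℝ} {a b : ℕ → H →L[ℂ] H} (ha : LamSeq N ξ l a) (hb : LamSeq N ξ l' b) :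
    LamSeq N ξ (l * l') (fun n => a n * b n) := by
  obtain ⟨ha1, ⟨C, hC⟩, ha3⟩ := ha
  obtain ⟨hb1, ⟨C', hC'⟩, hb3⟩ := hb
  have hC0 : 0 ≤ C := (norm_nonneg _).trans (hC 0)
  have hC0' : 0 ≤ C' := (norm_nonneg _).trans (hC' 0)
  refine ⟨fun n => mul_mem (ha1 n) (hb1 n), ⟨C * C', fun n => ?_⟩, ?_⟩
  · exact (norm_mul_le _ _).trans (mul_le_mul (hC n) (hC' n) (norm_nonneg _) hC0)
  · exact Dseq.mul ha1 hb1 (C := max C C') (fun n => (hC n).trans (le_max_left _ _))
      (fun n => (hC' n).trans (le_max_right _ _)) ha3 hb3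

lemma lam_star {l : ℝ} (hl : 0 < l) {a : ℕ → H →L[ℂ] H} (ha : LamSeq N ξ l a) :
    LamSeq N ξ l⁻¹ (fun n => star (a n)) := by
  obtain ⟨ha1, ⟨C, hC⟩, ha3⟩ := ha
  exact ⟨fun n => star_mem (ha1 n), ⟨C, fun n => by rw [norm_star]; exact hC n⟩, Dseq.star hl ha3⟩

lemma lam_one : LamSeq N ξ 1 (fun _ => (1 : H →L[ℂ] H)) :=
  ⟨fun _ => one_mem N, ⟨‖(1 : H →L[ℂ] H)‖, fun _ => le_rfl⟩, fun _ hε =>
    Eventually.of_forall fun _ => Defect.one hε.le⟩

/-- the transfer of convergence through an asymptotic eigensequence -/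
lemma transfer (S : Setting M N E ξ) {l : ℝ} (hl : 0 < l) {a : ℕ → H →L[ℂ] H}
    (ha : LamSeq N ξ l a) {w : ℕ → H →L[ℂ] H} (hw : ∀ n, w n ∈ M) {C : ℝ}
    (hC : ∀ n, ‖w n‖ ≤ C) (h0 : Tendsto (fun n => w n ξ) atTop (𝓝 0)) :
    Tendsto (fun n => w n (a n ξ)) atTop (𝓝 0) := by
  obtain ⟨K, hK, hb⟩ := S.lam_bound hl ha
  have hC0 : 0 ≤ C := (norm_nonneg _).trans (hC 0)
  rw [tendsto_zero_iff_norm_tendsto_zero] at h0 ⊢
  have h1 : Tendsto (fun n => ‖w n (a n ξ)‖ ^ 2) atTop (𝓝 0) := by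
    rw [Metric.tendsto_atTop']
    intro ε hε
    have hb1 := hb (ε / 2 / (C ^ 2 + 1)) (by positivity)
    have h2 : Tendsto (fun n => K * ‖w n ξ‖ ^ 2) atTop (𝓝 (K * 0 ^ 2)) :=
      (h0.pow 2).const_mul K
    have h3 : ∀ᶠ n in atTop, K * ‖w n ξ‖ ^ 2 < ε / 2 :=
      h2.eventually (gt_mem_nhds (by simpa using half_pos hε))
    obtain ⟨n0, hn0⟩ := eventually_atTop.1 (hb1.and h3)
    refine ⟨n0, fun n hn => ?_⟩
    obtain ⟨h4, h5⟩ := hn0 n hn.le
    have h6 := h4 (w n) (hw n)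
    rw [Real.dist_eq, sub_zero, abs_of_nonneg (by positivity)]
    have h7 : ε / 2 / (C ^ 2 + 1) * ‖w n‖ ^ 2 ≤ ε / 2 := by
      have h8 : ‖w n‖ ^ 2 ≤ C ^ 2 := pow_le_pow_left₀ (norm_nonneg _) (hC n) 2
      calc ε / 2 / (C ^ 2 + 1) * ‖w n‖ ^ 2 ≤ ε / 2 / (C ^ 2 + 1) * (C ^ 2 + 1) := by
            gcongr; linarith
        _ = ε / 2 := by field_simp
    linarith
  have h2 := h1.sqrt
  simp only [Real.sqrt_zero] at h2
  refine h2.congr fun n => ?_
  rw [Real.sqrt_sq (norm_nonneg _)]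

/-- `z` annihilates asymptotically the `l`-eigensequences -/
def Q (N : VonNeumannAlgebra H) (ξ : H) (z : H →L[ℂ] H) (l : ℝ) : Prop :=
  ∀ a, LamSeq N ξ l a → Tendsto (fun n => z (a n ξ)) atTop (𝓝 0)

lemma Q_up (S : Setting M N E ξ) (hIII : TypeIIIOne N) {l l' : ℝ} (hl : 0 < l)
    {z : H →L[ℂ] H} (hz : z ∈ M) (h : Q N ξ z l) (hl' : l ≤ l') : Q N ξ z l' := by
  rcases hl'.eq_or_lt with rfl | hlt
  · exact h
  have hl'0 : 0 < l' := hl.trans hlt
  intro c hc
  have ht0 : 0 < l / l' := div_pos hl hl'0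
  have ht1 : l / l' < 1 := (div_lt_one hl'0).2 hlt
  obtain ⟨a, -, ha, -, haa, -, -, -⟩ := hIII.exists_isometries S.norm_one ht0 ht1
  have hsa := lam_star (inv_pos.2 ht0) ha
  rw [inv_inv] at hsa
  have hca := lam_mul hc hsa
  have e1 : l' * (l / l') = l := by field_simp
  rw [e1] at hca
  have h1 := h _ hca
  obtain ⟨C, hC⟩ := hca.2.1
  have h2 := transfer S (inv_pos.2 ht0) ha (w := fun n => z * (c n * star (a n)))
    (fun n => mul_mem hz (S.le _ (hca.1 n))) (C := ‖z‖ * C)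
    (fun n => (norm_mul_le _ _).trans (mul_le_mul_of_nonneg_left (hC n) (norm_nonneg _))) h1
  refine h2.congr fun n => ?_
  have e2 : (z * (c n * star (a n))) (a n ξ) = (z * (c n * (star (a n) * a n))) ξ := rfl
  rw [e2, haa n, mul_one]
  rfl

lemma Q_down (S : Setting M N E ξ) (hIII : TypeIIIOne N) {l l' : ℝ} (hl : 0 < l)
    {z : H →L[ℂ] H} (hz : z ∈ M) (h : Q N ξ z l) (hl' : l / 2 ≤ l') : Q N ξ z l' := by
  rcases le_or_gt l l' with hle | hlt
  · exact Q_up S hIII hl hz h hle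
  have hl'0 : 0 < l' := (half_pos hl).trans_le hl'
  intro c hc
  have ht0 : 0 < l' / l := div_pos hl'0 hl
  have ht1 : l' / l < 1 := (div_lt_one hl).2 hlt
  obtain ⟨a, b, ha, hb, haa, hbb, hab, hst⟩ := hIII.exists_isometries S.norm_one ht0 ht1
  have hba : ∀ n, star (b n) * a n = 0 := by
    intro n
    have := congrArg star (hab n)
    rwa [star_mul, star_star, star_zero] at this
  have ht1' : 0 < 1 - l' / l := by linarith
  obtain ⟨C, hC⟩ := hc.2.1
  have hC0 : 0 ≤ C := (norm_nonneg _).trans (hC 0)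
  -- the part on the range of `a`
  have hca := lam_mul hc ha
  have e1 : l' * (l' / l)⁻¹ = l := by field_simp
  rw [e1] at hca
  obtain ⟨Ca, hCa⟩ := hca.2.1
  have hsa := lam_star (inv_pos.2 ht0) ha
  have h1 := transfer S (inv_pos.2 (inv_pos.2 ht0)) hsa (w := fun n => z * (c n * a n))
    (fun n => mul_mem hz (S.le _ (hca.1 n))) (C := ‖z‖ * Ca)
    (fun n => (norm_mul_le _ _).trans (mul_le_mul_of_nonneg_left (hCa n) (norm_nonneg _)))
    (h _ hca)
  -- the part on the range of `b`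
  have hcb := lam_mul hc hb
  have hQ : Q N ξ z (l' * (1 - l' / l)⁻¹) := by
    refine Q_up S hIII hl hz h ?_
    rw [← div_eq_mul_inv, le_div_iff₀ ht1']
    have : l * (1 - l' / l) = l - l' := by field_simp
    rw [this]
    linarith
  obtain ⟨Cb, hCb⟩ := hcb.2.1
  have hsb := lam_star (inv_pos.2 ht1') hb
  have h2 := transfer S (inv_pos.2 (inv_pos.2 ht1')) hsb (w := fun n => z * (c n * b n))
    (fun n => mul_mem hz (S.le _ (hcb.1 n))) (C := ‖z‖ * Cb)
    (fun n => (norm_mul_le _ _).trans (mul_le_mul_of_nonneg_left (hCb n) (norm_nonneg _)))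
    (hQ _ hcb)
  -- the rest
  set q : ℕ → H →L[ℂ] H := fun n => 1 - a n * star (a n) - b n * star (b n) with hq
  have hqN : ∀ n, q n ∈ N := fun n =>
    sub_mem (sub_mem (one_mem N) (mul_mem (ha.1 n) (star_mem (ha.1 n))))
      (mul_mem (hb.1 n) (star_mem (hb.1 n)))
  have haq : ∀ n, star (a n) * q n = 0 := by
    intro n
    have : star (a n) * q n = star (a n) - (star (a n) * a n) * star (a n) -
        (star (a n) * b n) * star (b n) := by
      rw [hq]; noncomm_ring
    rw [this, haa, hab]; simp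
  have hbq : ∀ n, star (b n) * q n = 0 := by
    intro n
    have : star (b n) * q n = star (b n) - (star (b n) * a n) * star (a n) -
        (star (b n) * b n) * star (b n) := by
      rw [hq]; noncomm_ring
    rw [this, hbb, hba]; simp
  have hqs : ∀ n, star (q n) = q n := by
    intro n
    rw [hq]
    simp only [star_sub, star_one, star_mul, star_star]
  have hqq : ∀ n, star (q n) * q n = q n := by
    intro n
    rw [hqs]
    have : q n * q n = q n - a n * (star (a n) * q n) - b n * (star (b n) * q n) := by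
      have e5 : q n * q n = (1 - a n * star (a n) - b n * star (b n)) * q n := rfl
      rw [e5]
      noncomm_ring
    rw [this, haq, hbq]; simp
  have hqn : ∀ n, ‖q n‖ ≤ 1 := by
    intro n
    have h3 : ‖q n‖ * ‖q n‖ = ‖q n‖ := by
      have := CStarRing.norm_star_mul_self (x := q n)
      rw [hqq n] at this
      exact this.symm
    rcases (norm_nonneg (q n)).eq_or_lt with h4 | h4
    · rw [← h4]; exact zero_le_one
    · have := mul_right_cancel₀ h4.ne' (h3.trans (one_mul _).symm)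
      exact this.le
  have hqξ : Tendsto (fun n => q n ξ) atTop (𝓝 0) := by
    rw [tendsto_zero_iff_norm_tendsto_zero]
    have h3 : Tendsto (fun n => ‖q n ξ‖ ^ 2) atTop (𝓝 0) := by
      rw [Metric.tendsto_atTop']
      intro ε hε
      obtain ⟨n0, hn0⟩ := eventually_atTop.1 (hst (ε / 2) (half_pos hε))
      refine ⟨n0, fun n hn => ?_⟩
      have h4 := hn0 n hn.le (q n) (hqN n)
      rw [haq n, hbq n] at h4
      simp only [zero_mul, zero_apply, inner_zero_right, mul_zero, add_zero, sub_zero] at h4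
      have h5 : ⟪ξ, q n ξ⟫_ℂ = ((‖q n ξ‖ ^ 2 : ℝ) : ℂ) := by
        rw [← inner_star_mul_self, hqq]
      rw [h5, Complex.norm_real, Real.norm_of_nonneg (by positivity)] at h4
      rw [Real.dist_eq, sub_zero, abs_of_nonneg (by positivity)]
      have h6 : ε / 2 * ‖q n‖ ≤ ε / 2 * 1 := by
        gcongr
        exact hqn n
      linarith
    have h4 := h3.sqrt
    simp only [Real.sqrt_zero] at h4
    refine h4.congr fun n => ?_
    rw [Real.sqrt_sq (norm_nonneg _)]
  have h3 : Tendsto (fun n => (z * c n) (q n ξ)) atTop (𝓝 0) := by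
    rw [tendsto_zero_iff_norm_tendsto_zero] at hqξ ⊢
    have h4 : Tendsto (fun n => ‖z‖ * C * ‖q n ξ‖) atTop (𝓝 0) := by
      have := hqξ.const_mul (‖z‖ * C)
      rwa [mul_zero] at this
    refine squeeze_zero (fun n => norm_nonneg _) (fun n => ?_) h4
    refine (ContinuousLinearMap.le_opNorm _ _).trans ?_
    gcongr
    exact (norm_mul_le _ _).trans (mul_le_mul_of_nonneg_left (hC n) (norm_nonneg _))
  have h4 := (h1.add h2).add h3
  simp only [add_zero] at h4
  refine h4.congr fun n => ?_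
  have e : z * c n = z * (c n * a n) * star (a n) + z * (c n * b n) * star (b n) +
      z * c n * q n := by
    rw [hq]; noncomm_ring
  have e' := congrArg (fun T : H →L[ℂ] H => T ξ) e
  exact e'.symm

end LamZ

theorem Setting.lam_zero (S : Setting M N E ξ) (hIII : TypeIIIOne N) {l : ℝ} (hl : 0 < l)
    {z : H →L[ℂ] H} (hz : z ∈ M)
    (h : ∀ a, LamSeq N ξ l a → Tendsto (fun n => z (a n ξ)) atTop (𝓝 0)) : z = 0 := by
  have h1 : ∀ k : ℕ, LamZ.Q N ξ z (l / 2 ^ k) := by
    intro k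
    induction k with
    | zero => rw [pow_zero, div_one]; exact h
    | succ k ih =>
      refine LamZ.Q_down S hIII (by positivity) hz ih (le_of_eq ?_)
      rw [pow_succ]
      field_simp
  obtain ⟨k, hk⟩ := pow_unbounded_of_one_lt l (one_lt_two : (1 : ℝ) < 2)
  have h2 : LamZ.Q N ξ z 1 :=
    LamZ.Q_up S hIII (by positivity) hz (h1 k) ((div_le_one (by positivity)).2 hk.le)
  have h3 := h2 _ LamZ.lam_one
  have h4 := tendsto_nhds_unique h3 tendsto_const_nhds
  exact S.sep z hz (by simpa using h4.symm)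

end Pool.Agent.Helper23
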