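import Pool.Agent.Helper23.VDefs

/-!
# Vectors that are Lipschitz for translations are dense
-/

open scoped InnerProductSpace Topology ENNReal BoundedContinuousFunction
open ContinuousLinearMap Filter MeasureTheory

namespace Pool.Agent.Helper23

theorem exists_lip (f : L2R ℂ) {ε : ℝ} (hε : 0 < ε) : ∃ f' : L2R ℂ, ‖f - f'‖ < ε ∧
    ∃ L : ℝ, 0 ≤ L ∧ ∀ h : ℝ, ‖tr ℂ h f' - f'‖ ≤ L * |h| := by
  have hc : Continuous fun t : ℝ => tr ℂ t f := tr_continuous f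
  obtain ⟨d, hd, hdc⟩ : ∃ d : ℝ, 0 < d ∧ ∀ c ∈ Set.Icc (0 : ℝ) d, ‖tr ℂ c f - f‖ ≤ ε / 2 := by
    have h0 := hc.tendsto 0
    rw [tr_zero] at h0
    obtain ⟨δ, hδ, hh⟩ := Metric.tendsto_nhds_nhds.1 h0 (ε / 2) (half_pos hε)
    refine ⟨δ / 2, half_pos hδ, fun c hcc => ?_⟩
    have h1 : dist c 0 < δ := by
      rw [Real.dist_eq, sub_zero, abs_of_nonneg hcc.1]
      linarith [hcc.2]
    have h2 := hh h1
    rw [dist_eq_norm] at h2
    exact le_of_lt h2
  have hint : ∀ a b : ℝ, IntervalIntegrable (fun t : ℝ => tr ℂ t f) volume a b :=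
    fun a b => hc.intervalIntegrable a b
  have hd0 : (d : ℝ) ≠ 0 := hd.ne'
  refine ⟨(d⁻¹ : ℝ) • ∫ c in (0 : ℝ)..d, tr ℂ c f, ?_, 2 * ‖f‖ / d, by positivity, fun h => ?_⟩
  · have h1 : f - (d⁻¹ : ℝ) • ∫ c in (0 : ℝ)..d, tr ℂ c f =
        -((d⁻¹ : ℝ) • ∫ c in (0 : ℝ)..d, (tr ℂ c f - f)) := by
      rw [intervalIntegral.integral_sub (hint 0 d) intervalIntegrable_const,
        intervalIntegral.integral_const, smul_sub, sub_zero, smul_smul, inv_mul_cancel₀ hd0,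
        one_smul]
      abel
    rw [h1, norm_neg, norm_smul, Real.norm_eq_abs, abs_of_pos (inv_pos.2 hd)]
    have h2 : ‖∫ c in (0 : ℝ)..d, (tr ℂ c f - f)‖ ≤ ε / 2 * |d - 0| := by
      refine intervalIntegral.norm_integral_le_of_norm_le_const fun c hcc => ?_
      rw [Set.uIoc_of_le hd.le] at hcc
      exact hdc c ⟨hcc.1.le, hcc.2⟩
    rw [sub_zero, abs_of_pos hd] at h2
    calc d⁻¹ * ‖∫ c in (0 : ℝ)..d, (tr ℂ c f - f)‖ ≤ d⁻¹ * (ε / 2 * d) :=
          mul_le_mul_of_nonneg_left h2 (inv_pos.2 hd).le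
      _ = ε / 2 := by field_simp
      _ < ε := half_lt_self hε
  · have h1 : tr ℂ h (∫ c in (0 : ℝ)..d, tr ℂ c f) = ∫ c in h..(h + d), tr ℂ c f := by
      rw [← ContinuousLinearMap.intervalIntegral_comp_comm _ (hint 0 d)]
      have h2 : (fun c : ℝ => tr ℂ h (tr ℂ c f)) = fun c : ℝ => tr ℂ (h + c) f := by
        funext c
        rw [tr_tr]
      rw [h2, intervalIntegral.integral_comp_add_left (fun c : ℝ => tr ℂ c f), add_zero]
    have h3 : tr ℂ h ((d⁻¹ : ℝ) • ∫ c in (0 : ℝ)..d, tr ℂ c f) =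
        (d⁻¹ : ℝ) • ∫ c in h..(h + d), tr ℂ c f := by
      rw [← h1]
      exact ((tr ℂ h).restrictScalars ℝ).map_smul _ _
    rw [h3, ← smul_sub, norm_smul, Real.norm_eq_abs, abs_of_pos (inv_pos.2 hd),
      intervalIntegral.integral_interval_sub_interval_comm (hint _ _) (hint _ _) (hint _ _)]
    have hb : ∀ a b : ℝ, ‖∫ c in a..b, tr ℂ c f‖ ≤ ‖f‖ * |b - a| := fun a b =>
      intervalIntegral.norm_integral_le_of_norm_le_const fun c _ => (tr_norm c f).le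
    have h4 := hb h 0
    have h5 := hb (h + d) d
    rw [zero_sub, abs_neg] at h4
    have h6 : d - (h + d) = -h := by ring
    rw [h6, abs_neg] at h5
    calc d⁻¹ * ‖(∫ c in h..(0 : ℝ), tr ℂ c f) - ∫ c in (h + d)..d, tr ℂ c f‖
        ≤ d⁻¹ * (‖f‖ * |h| + ‖f‖ * |h|) :=
          mul_le_mul_of_nonneg_left ((norm_sub_le _ _).trans (add_le_add h4 h5))
            (inv_pos.2 hd).le
      _ = 2 * ‖f‖ / d * |h| := by
          field_simp
          ring

end Pool.Agent.Helper23
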