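import Pool.Agent.Helper23.VDefs
import Pool.Agent.Helper68.G2b4

/-!
# Project V, module Scalar: elements of the bicentralizer fixed by the modular group are scalars
-/

open scoped InnerProductSpace Topology ENNReal BoundedContinuousFunction
open ContinuousLinearMap Filter MeasureTheory

namespace Pool.Agent.Helper23

universe u

variable {H : Type u} [NormedAddCommGroup H] [InnerProductSpace ℂ H] [CompleteSpace H]
variable {M N : VonNeumannAlgebra H} {ξ : H} {E : (H →L[ℂ] H) → (H →L[ℂ] H)}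
variable {R : H →L[ℂ] H} {D : H →L[ℝ] H} {Ψ : (ℝ →ᵇ ℂ) →⋆ₐ[ℂ] (H →L[ℂ] H)}

namespace Scalar

/-- spectral projections -/
lemma exists_proj {y : H →L[ℂ] H} (hy : star y = y) (hns : ∀ c : ℂ, y ≠ c • 1) :
    ∃ p : H →L[ℂ] H, star p = p ∧ p * p = p ∧ p ≠ 0 ∧ p ≠ 1 ∧
      ∀ T : H →L[ℂ] H, T * y = y * T → star T * y = y * star T → T * p = p * T := by
  have hsa : IsSelfAdjoint y := hy
  have h2 : ∃ a ∈ spectrum ℝ y, ∃ b ∈ spectrum ℝ y, a < b := by
    by_contra hcon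
    push Not at hcon
    have hμ : ∃ μ : ℝ, ∀ x ∈ spectrum ℝ y, x = μ := by
      rcases (spectrum ℝ y).eq_empty_or_nonempty with h | ⟨μ, hμ⟩
      · exact ⟨0, fun x hx => by rw [h] at hx; exact hx.elim⟩
      · exact ⟨μ, fun x hx => le_antisymm (hcon μ hμ x hx) (hcon x hx μ hμ)⟩
    obtain ⟨μ, hμ⟩ := hμ
    refine hns μ ?_
    have h1 : cfc (id : ℝ → ℝ) y = cfc (fun _ : ℝ => μ) y := cfc_congr fun x hx => hμ x hx
    rw [cfc_id ℝ y, cfc_const μ y] at h1
    rw [h1, Algebra.algebraMap_eq_smul_one]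
    exact (RCLike.real_smul_eq_coe_smul (K := ℂ) μ (1 : H →L[ℂ] H))
  obtain ⟨a, ha, b, hb, hab⟩ := h2
  obtain ⟨l, hal, hlb⟩ := exists_between hab
  have hcf : Continuous fun x : ℝ => max (x - l) 0 := by fun_prop
  have hcg : Continuous fun x : ℝ => max (l - x) 0 := by fun_prop
  set f := cfc (fun x : ℝ => max (x - l) 0) y with hf
  set g := cfc (fun x : ℝ => max (l - x) 0) y with hg
  have hgf : g * f = 0 := by
    rw [hf, hg, ← cfc_mul _ _ y hcg.continuousOn hcf.continuousOn]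
    have : (fun x : ℝ => max (l - x) 0 * max (x - l) 0) = fun _ => 0 := by
      funext x
      rcases le_total x l with h | h
      · rw [max_eq_right (by linarith : x - l ≤ 0), mul_zero]
      · rw [max_eq_right (by linarith : l - x ≤ 0), zero_mul]
    rw [this, cfc_const_zero]
  have hf0 : f ≠ 0 := by
    intro h
    rw [hf, ← cfc_const_zero ℝ y, cfc_eq_cfc_iff_eqOn (hf := hcf.continuousOn)] at h
    have := h hb
    simp only [] at this
    rw [max_eq_left (by linarith)] at this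
    linarith
  have hg0 : g ≠ 0 := by
    intro h
    rw [hg, ← cfc_const_zero ℝ y, cfc_eq_cfc_iff_eqOn (hf := hcg.continuousOn)] at h
    have := h ha
    simp only [] at this
    rw [max_eq_left (by linarith)] at this
    linarith
  set V : Submodule ℂ H := (LinearMap.range (f : H →ₗ[ℂ] H)).topologicalClosure with hV
  have hVc : IsClosed (V : Set H) := Submodule.isClosed_topologicalClosure _
  have : CompleteSpace V := hVc.completeSpace_coe
  have hfV : ∀ x, f x ∈ V := fun x => Submodule.le_topologicalClosure _ ⟨x, rfl⟩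
  have hVcl : (V : Set H) = closure (Set.range f) := by
    rw [hV, Submodule.topologicalClosure_coe]
    rfl
  have hinv : ∀ T : H →L[ℂ] H, T * f = f * T → ∀ v ∈ V, T v ∈ V := by
    intro T hT v hv
    have h2 : v ∈ closure (Set.range f) := by rw [← hVcl]; exact hv
    have hsub : Set.range f ⊆ T ⁻¹' (V : Set H) := by
      rintro _ ⟨z, rfl⟩
      have h3 := congrArg (fun Q : H →L[ℂ] H => Q z) hT
      change T (f z) = f (T z) at h3
      change T (f z) ∈ V
      rw [h3]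
      exact hfV _
    exact closure_minimal hsub (hVc.preimage T.continuous) h2
  refine ⟨V.starProjection, (isSelfAdjoint_starProjection V).star_eq,
    V.isIdempotentElem_starProjection, ?_, ?_, ?_⟩
  · intro h0
    refine hf0 (ContinuousLinearMap.ext fun x => ?_)
    have h1 := Submodule.starProjection_eq_self_iff.2 (hfV x)
    rw [h0] at h1
    exact h1.symm
  · intro h0
    refine hg0 (ContinuousLinearMap.ext fun x => ?_)
    have h1 : x ∈ V := by
      have h2 := Submodule.starProjection_apply_mem V x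
      rwa [h0] at h2
    have h2 : x ∈ closure (Set.range f) := by rw [← hVcl]; exact h1
    have hsub : Set.range f ⊆ g ⁻¹' {0} := by
      rintro _ ⟨z, rfl⟩
      exact congrArg (fun Q : H →L[ℂ] H => Q z) hgf
    exact closure_minimal hsub (isClosed_singleton.preimage g.continuous) h2
  · intro T hT hT'
    have c1 : T * f = f * T := by
      have h1 : Commute y T := hT.symm
      exact (h1.cfc_real _).symm
    have c2 : star T * f = f * star T := by
      have h1 : Commute y (star T) := hT'.symm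
      exact (h1.cfc_real _).symm
    ext v
    change T (V.starProjection v) = V.starProjection (T v)
    have h1 : T (V.starProjection v) ∈ V := hinv T c1 _ (Submodule.starProjection_apply_mem _ _)
    have h2 : V.starProjection (T (v - V.starProjection v)) = 0 := by
      rw [← inner_self_eq_zero (𝕜 := ℂ), Submodule.inner_starProjection_left_eq_right,
        Submodule.starProjection_eq_self_iff.2 (Submodule.starProjection_apply_mem _ _)]
      rw [← inner_star_right T]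
      have h3 : (star T) (V.starProjection (T (v - V.starProjection v))) ∈ V :=
        hinv _ c2 _ (Submodule.starProjection_apply_mem _ _)
      rw [inner_sub_left, Submodule.inner_starProjection_left_eq_right,
        Submodule.starProjection_eq_self_iff.2 h3, sub_self]
    rw [map_sub, map_sub, sub_eq_zero, Submodule.starProjection_eq_self_iff.2 h1] at h2
    exact h2.symm

/-- Gaussians fix the fixed vectors -/
lemma gauss_fixed (hΨ : Modular M ξ R D Ψ) {v : H} (hv : ∀ t : ℝ, Ψ (expB t) v = v) {ε : ℝ}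
    (hε : 0 < ε) : Ψ (Helper70.U8.GB ε hε 0) v = v := by
  refine ext_inner_left ℂ fun w => ?_
  rw [← hΨ.integral_psi (Helper70.U8.kg_int hε 0) (K := Helper70.U8.GB ε hε 0)
    (fun ρ => Helper70.U8.kg_fourier hε 0 ρ)]
  have h1 := Helper70.U8.kg_fourier hε 0 0
  simp only [hv]
  rw [integral_mul_const]
  have h2 : ∫ t, Helper70.U8.kg ε 0 t = 1 := by
    have h3 : (fun t : ℝ => Helper70.U8.kg ε 0 t * expB (2 * Real.pi * t) 0) =
        fun t => Helper70.U8.kg ε 0 t := by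
      funext t
      rw [expB_apply, mul_zero, Complex.ofReal_zero, zero_mul, Complex.exp_zero, mul_one]
    rw [h3] at h1
    rw [← h1]
    norm_num
  rw [h2, one_mul]

lemma FR_sub_le (ρ : ℝ) : ‖(FR - 1 : ℝ →ᵇ ℂ) ρ‖ ≤ |ρ| := by
  have h1 : (FR - 1 : ℝ →ᵇ ℂ) ρ = (((1 - Real.exp ρ) / (1 + Real.exp ρ) : ℝ) : ℂ) := by
    have h3 : (1 : ℝ →ᵇ ℂ) ρ = 1 := rfl
    rw [BoundedContinuousFunction.sub_apply, Pool.Agent.Helper43.TTF.FR_apply, h3]
    have h4 : (0 : ℝ) < 1 + Real.exp ρ := by positivity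
    have h5 : 2 / (1 + Real.exp ρ) - 1 = (1 - Real.exp ρ) / (1 + Real.exp ρ) := by
      field_simp
      ring
    rw [← h5]
    push_cast
    ring
  rw [h1, Complex.norm_real, Real.norm_eq_abs, abs_div]
  have h4 : (0 : ℝ) < 1 + Real.exp ρ := by positivity
  rw [abs_of_pos h4, div_le_iff₀ h4]
  rcases le_total 0 ρ with h | h
  · have h5 : (1 : ℝ) ≤ Real.exp ρ := Real.one_le_exp h
    rw [abs_of_nonpos (by linarith), abs_of_nonneg h]
    have h6 := Real.add_one_le_exp (-ρ)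
    have h7 : Real.exp (-ρ) * Real.exp ρ = 1 := by rw [← Real.exp_add]; simp
    nlinarith
  · have h5 : Real.exp ρ ≤ 1 := Real.exp_le_one_iff.2 h
    rw [abs_of_nonneg (by linarith), abs_of_nonpos h]
    have h6 := Real.add_one_le_exp ρ
    have h7 := Real.exp_pos ρ
    nlinarith

/-- vectors fixed by the modular group are fixed by `R` -/
lemma R_fixed (hΨ : Modular M ξ R D Ψ) {v : H} (hv : ∀ t : ℝ, Ψ (expB t) v = v) : R v = v := by
  have hkey : ∀ n : ℕ, ‖R v - v‖ ≤ 1 / ((n : ℝ) + 1) * ‖v‖ := by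
    intro n
    have hn : (0 : ℝ) < ((n : ℝ) + 1) ^ 2 := by positivity
    have h1 := gauss_fixed hΨ hv hn
    have h2 : R v - v = Ψ ((FR - 1) * Helper70.U8.GB _ hn 0) v := by
      rw [psi_mul_apply, h1, map_sub, hΨ.psi_FR, map_one]
      rfl
    rw [h2]
    refine (ContinuousLinearMap.le_of_opNorm_le _ (psi_norm_le Ψ _) v).trans ?_
    refine mul_le_mul_of_nonneg_right ?_ (norm_nonneg _)
    refine (BoundedContinuousFunction.norm_le (by positivity)).2 fun ρ => ?_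
    rw [BoundedContinuousFunction.mul_apply, norm_mul, Helper70.U8.GB_apply, Complex.norm_real,
      Real.norm_of_nonneg (Real.exp_pos _).le]
    have h3 : Real.exp (-((((n : ℝ) + 1) ^ 2) * ρ ^ 2) + 0 * ρ) ≤
        1 / (1 + (((n : ℝ) + 1) ^ 2) * ρ ^ 2) := by
      rw [zero_mul, add_zero, Real.exp_neg, one_div]
      gcongr
      have := Real.add_one_le_exp ((((n : ℝ) + 1) ^ 2) * ρ ^ 2)
      linarith
    have h5 : (0 : ℝ) < (n : ℝ) + 1 := by positivity
    calc ‖(FR - 1 : ℝ →ᵇ ℂ) ρ‖ * Real.exp (-((((n : ℝ) + 1) ^ 2) * ρ ^ 2) + 0 * ρ) ≤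
          |ρ| * (1 / (1 + (((n : ℝ) + 1) ^ 2) * ρ ^ 2)) := by
            gcongr
            exact FR_sub_le ρ
      _ ≤ 1 / ((n : ℝ) + 1) := by
          rw [mul_one_div, div_le_div_iff₀ (by positivity) h5]
          nlinarith [sq_nonneg (((n : ℝ) + 1) * |ρ| - 1), abs_nonneg ρ, sq_abs ρ]
  have hlim : Tendsto (fun n : ℕ => 1 / ((n : ℝ) + 1) * ‖v‖) atTop (𝓝 (0 * ‖v‖)) :=
    (tendsto_one_div_add_atTop_nhds_zero_nat (𝕜 := ℝ)).mul_const _
  rw [zero_mul] at hlim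
  have h1 : ‖R v - v‖ ≤ 0 := ge_of_tendsto' hlim hkey
  exact sub_eq_zero.1 (norm_le_zero_iff.1 h1)

/-- projections commuting with the modular group are in the centralizer -/
lemma cent_of_comm (hΨ : Modular M ξ R D Ψ) {p : H →L[ℂ] H} (hp : p ∈ M) (hps : star p = p)
    (hc : ∀ t : ℝ, Ψ (expB t) * p = p * Ψ (expB t)) {x : H →L[ℂ] H} (hx : x ∈ M) :
    ⟪ξ, x (p ξ)⟫_ℂ = ⟪ξ, p (x ξ)⟫_ℂ := by
  have hv : ∀ t, Ψ (expB t) (p ξ) = p ξ := by
    intro t
    have h1 := congrArg (fun Q : H →L[ℂ] H => Q ξ) (hc t)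
    change Ψ (expB t) (p ξ) = p (Ψ (expB t) ξ) at h1
    rw [h1, hΨ.psi_xi, expB_apply, mul_zero, Complex.ofReal_zero, zero_mul, Complex.exp_zero,
      one_smul]
  have hR := R_fixed hΨ hv
  have hD : D (p ξ) = p ξ := by
    rw [hΨ.data.D_mem p hp, hps, hR, two_smul, add_sub_cancel_right]
  have h1 := hΨ.data.D_symm ((star x) ξ) (p ξ)
  rw [hD, hΨ.data.D_mem _ (star_mem hx), star_star, inner_sub_right, inner_smul_right] at h1
  have h2 : ⟪p ξ, R (x ξ)⟫_ℂ = ⟪p ξ, x ξ⟫_ℂ := by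
    rw [← hΨ.data.R_star, inner_star_right, hR]
  have h3 : ⟪(star x) ξ, p ξ⟫_ℂ = ⟪ξ, x (p ξ)⟫_ℂ := inner_star_left x ξ (p ξ)
  have h4 : ⟪p ξ, x ξ⟫_ℂ = ⟪ξ, p (x ξ)⟫_ℂ := by
    rw [← inner_star_left p, hps]
  rw [h2, h3, h4] at h1
  rw [h1]
  ring

lemma one_sub_sq {p : H →L[ℂ] H} (hps : star p = p) (hpp : p * p = p) (w : H) :
    ‖(1 - p) w‖ ^ 2 = ‖w‖ ^ 2 - ‖p w‖ ^ 2 := by
  have h1 := inner_star_mul_self (1 - p) w
  have h2 := inner_star_mul_self p w
  have e1 : star (1 - p) * (1 - p) = 1 - star p * p := by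
    rw [star_sub, star_one, hps, sub_mul, one_mul, mul_sub, mul_one, hpp, sub_self, sub_zero]
  rw [e1, sub_apply, inner_sub_right, h2, one_apply_eq_self, inner_self_eq_norm_sq_to_K] at h1
  have h3 : (((‖w‖ ^ 2 - ‖p w‖ ^ 2 : ℝ)) : ℂ) = ((‖(1 - p) w‖ ^ 2 : ℝ) : ℂ) := by
    rw [← h1]; push_cast; rfl
  exact_mod_cast h3.symm

lemma proj_norm {p : H →L[ℂ] H} (hps : star p = p) (hpp : p * p = p) : ‖p‖ ≤ 1 := by
  refine ContinuousLinearMap.opNorm_le_bound _ zero_le_one fun w => ?_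
  have h1 := one_sub_sq hps hpp w
  have h2 : ‖p w‖ ^ 2 ≤ ‖w‖ ^ 2 := by nlinarith [sq_nonneg ‖(1 - p) w‖]
  rw [one_mul]
  exact (pow_le_pow_iff_left₀ (norm_nonneg _) (norm_nonneg _) two_ne_zero).1 h2

lemma step (hξ : ‖ξ‖ = 1) {p u v w : H →L[ℂ] H} (hp : p ∈ N) (hu : u ∈ N) (hv : v ∈ N)
    (hps : star p = p) (hpp : p * p = p)
    (hcent : ∀ x ∈ N, ⟪ξ, x (p ξ)⟫_ℂ = ⟪ξ, p (x ξ)⟫_ℂ)
    (hu1 : star u * u = 1) (hvv : star v * v = 1) (hwv : star w * v = 0)
    {r b ε : ℝ} (hr : 0 < r) (hb : 0 ≤ b) (hε : 0 ≤ ε)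
    (h : ∀ x ∈ N, ‖((1 / r : ℝ) : ℂ) * ⟪ξ, (star (u * (v * p)) * x * (u * (v * p))) ξ⟫_ℂ +
        (b : ℂ) * ⟪ξ, (star (u * (w * p)) * x * (u * (w * p))) ξ⟫_ℂ -
        ((1 / r : ℝ) : ℂ) * ⟪ξ, ((1 - p) * x * (1 - p)) ξ⟫_ℂ‖ ≤ ε * ‖x‖) :
    ∃ c ∈ N, ‖c‖ ≤ 1 ∧ Defect N ξ 1 (r * ε + Real.sqrt (r * ε)) c ∧
      ‖p ξ‖ ^ 2 - r * ε ≤ ‖c ξ‖ ^ 2 ∧ p * c = 0 ∧ c * p = c := by
  have hpn := proj_norm hps hpp
  have hpn1 : star (1 - p) = 1 - p := by rw [star_sub, star_one, hps]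
  have hpn2 : (1 - p) * (1 - p) = 1 - p := by
    rw [sub_mul, one_mul, mul_sub, mul_one, hpp, sub_self, sub_zero]
  have hqn := proj_norm hpn1 hpn2
  have hun : ‖u‖ ≤ 1 := norm_le_one_of_isom hu1
  have hvn : ‖v‖ ≤ 1 := norm_le_one_of_isom hvv
  set k := u * (v * p) with hk
  have hkN : k ∈ N := mul_mem hu (mul_mem hv hp)
  have hkn : ‖k‖ ≤ 1 := by
    refine (norm_mul_le _ _).trans (mul_le_one₀ hun (norm_nonneg _) ?_)
    exact (norm_mul_le _ _).trans (mul_le_one₀ hvn (norm_nonneg _) hpn)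
  have hkk : star k * k = p := by
    have : star k * k = p * (star v * (star u * u) * v) * p := by
      rw [hk, star_mul, star_mul, hps]; noncomm_ring
    rw [this, hu1, mul_one, hvv, mul_one, hpp]
  have hkp : k * p = k := by rw [hk, mul_assoc, mul_assoc, hpp]
  have hk'k : star (u * (w * p)) * k = 0 := by
    have : star (u * (w * p)) * k = p * (star w * (star u * u) * v) * p := by
      rw [hk, star_mul, star_mul, hps]; noncomm_ring
    rw [this, hu1, mul_one, hwv, mul_zero, zero_mul]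
  -- first estimate
  have hA : ‖p (k ξ)‖ ^ 2 ≤ r * ε := by
    have h1 := h p hp
    have e1 : star k * p * k = star (p * k) * (p * k) := by
      rw [star_mul p, hps]
      calc star k * p * k = star k * (p * p) * k := by rw [hpp]
        _ = _ := by noncomm_ring
    have e2 : star (u * (w * p)) * p * (u * (w * p)) =
        star (p * (u * (w * p))) * (p * (u * (w * p))) := by
      rw [star_mul p, hps]
      calc star (u * (w * p)) * p * (u * (w * p)) =
          star (u * (w * p)) * (p * p) * (u * (w * p)) := by rw [hpp]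
        _ = _ := by noncomm_ring
    have e3 : (1 - p) * p * (1 - p) = 0 := by
      rw [sub_mul, one_mul, hpp, sub_self, zero_mul]
    rw [e1, e2, e3, inner_star_mul_self, inner_star_mul_self, zero_apply, inner_zero_right,
      mul_zero, sub_zero, ← Complex.ofReal_mul, ← Complex.ofReal_mul, ← Complex.ofReal_add,
      Complex.norm_real, Real.norm_eq_abs] at h1
    have h2 := (abs_le.1 h1).2
    have h3 : 0 ≤ b * ‖(p * (u * (w * p))) ξ‖ ^ 2 := by positivity
    have h4 : ε * ‖p‖ ≤ ε * 1 := mul_le_mul_of_nonneg_left hpn hε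
    have h5 : 1 / r * ‖(p * k) ξ‖ ^ 2 ≤ ε := by linarith
    rw [one_div, inv_mul_le_iff₀ hr] at h5
    exact h5
  have hA' : ‖p (k ξ)‖ ≤ Real.sqrt (r * ε) := Real.le_sqrt_of_sq_le hA
  refine ⟨(1 - p) * k, mul_mem (sub_mem (one_mem N) hp) hkN,
    (norm_mul_le _ _).trans (mul_le_one₀ hqn (norm_nonneg _) hkn), ?_, ?_, ?_, ?_⟩
  · intro z hz
    have h1 := h (k * z) (mul_mem hkN hz)
    have e1 : star k * (k * z) * k = p * (z * k) := by
      rw [← mul_assoc (star k), hkk, mul_assoc]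
    have e2 : star (u * (w * p)) * (k * z) * (u * (w * p)) = 0 := by
      rw [← mul_assoc (star _), hk'k, zero_mul, zero_mul]
    have e3 : ⟪ξ, ((1 - p) * (k * z) * (1 - p)) ξ⟫_ℂ = ⟪ξ, ((1 - p) * k) (z ξ)⟫_ℂ := by
      have h2 := hcent ((1 - p) * (k * z)) (mul_mem (sub_mem (one_mem N) hp) (mul_mem hkN hz))
      have h3 : p (((1 - p) * (k * z)) ξ) = 0 := by
        have : p * ((1 - p) * (k * z)) = 0 := by
          rw [← mul_assoc, mul_sub, mul_one, hpp, sub_self, zero_mul]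
        exact congrArg (fun Q : H →L[ℂ] H => Q ξ) this
      rw [h3, inner_zero_right] at h2
      have h4 : ((1 - p) * (k * z) * (1 - p)) ξ = ((1 - p) * k) (z ξ) -
          ((1 - p) * (k * z)) (p ξ) := by
        change ((1 - p) * (k * z)) (ξ - p ξ) = _
        rw [map_sub]
        rfl
      rw [h4, inner_sub_right, h2, sub_zero]
    have e4 : ⟪ξ, (p * (z * k)) ξ⟫_ℂ = ⟪ξ, z (k ξ)⟫_ℂ := by
      have h2 := hcent (z * k) (mul_mem hz hkN)
      have h3 : (z * k) (p ξ) = z (k ξ) := congrArg (fun Q : H →L[ℂ] H => z (Q ξ)) hkp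
      rw [h3] at h2
      exact h2.symm
    rw [e1, e2, e3, e4, zero_apply, inner_zero_right, mul_zero, add_zero, ← mul_sub, norm_mul,
      Complex.norm_real, Real.norm_of_nonneg (by positivity : 0 ≤ 1 / r), one_div,
      inv_mul_le_iff₀ hr] at h1
    have h2 : ‖k * z‖ ≤ ‖z‖ := by
      refine (norm_mul_le _ _).trans ?_
      have := mul_le_mul_of_nonneg_right hkn (norm_nonneg z)
      rwa [one_mul] at this
    have e5 : z (((1 - p) * k) ξ) = z (k ξ) - z (p (k ξ)) := by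
      change z (k ξ - p (k ξ)) = _
      rw [map_sub]
    have e6 : ⟪ξ, z (((1 - p) * k) ξ)⟫_ℂ - ((1 : ℝ) : ℂ) * ⟪ξ, ((1 - p) * k) (z ξ)⟫_ℂ =
        (⟪ξ, z (k ξ)⟫_ℂ - ⟪ξ, ((1 - p) * k) (z ξ)⟫_ℂ) - ⟪ξ, z (p (k ξ))⟫_ℂ := by
      rw [e5, inner_sub_right, Complex.ofReal_one, one_mul]
      ring
    rw [e6]
    have e7 : ‖⟪ξ, z (p (k ξ))⟫_ℂ‖ ≤ Real.sqrt (r * ε) * ‖z‖ := by
      refine (norm_inner_le_norm _ _).trans ?_
      rw [hξ, one_mul, mul_comm]
      exact (z.le_opNorm _).trans (mul_le_mul_of_nonneg_left hA' (norm_nonneg _))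
    have e8 : r * (ε * ‖k * z‖) ≤ r * ε * ‖z‖ :=
      (mul_le_mul_of_nonneg_left (mul_le_mul_of_nonneg_left h2 hε) hr.le).trans
        (mul_assoc r ε ‖z‖).symm.le
    calc _ ≤ ‖⟪ξ, z (k ξ)⟫_ℂ - ⟪ξ, ((1 - p) * k) (z ξ)⟫_ℂ‖ + ‖⟪ξ, z (p (k ξ))⟫_ℂ‖ :=
          norm_sub_le _ _
      _ ≤ r * ε * ‖z‖ + Real.sqrt (r * ε) * ‖z‖ := add_le_add (h1.trans e8) e7
      _ = _ := by ring
  · have h1 := one_sub_sq hps hpp (k ξ)
    have h2 : ‖k ξ‖ = ‖p ξ‖ := by
      change ‖u (v (p ξ))‖ = _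
      rw [norm_isom_apply hu1, norm_isom_apply hvv]
    change _ ≤ ‖(1 - p) (k ξ)‖ ^ 2
    rw [h1, h2]
    linarith
  · rw [← mul_assoc, mul_sub, mul_one, hpp, sub_self, zero_mul]
  · rw [mul_assoc, hkp]

lemma contra (S : Setting M N E ξ) (hIII : TypeIIIOne N) {p : H →L[ℂ] H} (hp : p ∈ N)
    (hps : star p = p) (hpp : p * p = p) (hB : p ∈ Bicent M N ξ)
    (hcent : ∀ x ∈ N, ⟪ξ, x (p ξ)⟫_ℂ = ⟪ξ, p (x ξ)⟫_ℂ) (h0 : p ≠ 0)
    (hle : ‖p ξ‖ ^ 2 ≤ ‖(1 - p) ξ‖ ^ 2) : False := by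
  obtain ⟨⟨v, hv, w, hw, hvv, hww, hvw⟩, hst⟩ := hIII
  have hwv : star w * v = 0 := by
    have := congrArg star hvw
    rwa [star_mul, star_star, star_zero] at this
  have hξ := S.norm_one
  have hs : 0 < ‖p ξ‖ ^ 2 := by
    have : p ξ ≠ 0 := fun h => h0 (S.sep p (S.le p hp) h)
    positivity
  have hsum := one_sub_sq hps hpp ξ
  rw [hξ] at hsum
  set s := ‖p ξ‖ ^ 2 with hsdef
  set r := ‖(1 - p) ξ‖ ^ 2 with hrdef
  have hr : 0 < r := hs.trans_le hle
  have hb : 0 ≤ (1 - s / r) / s := by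
    have : s / r ≤ 1 := by rw [div_le_one hr]; exact hle
    have h2 : 0 ≤ 1 - s / r := by linarith
    positivity
  have hα : Real.sqrt (1 / r) ^ 2 = 1 / r := Real.sq_sqrt (by positivity)
  have hβ : Real.sqrt ((1 - s / r) / s) ^ 2 = (1 - s / r) / s := Real.sq_sqrt hb
  set α := Real.sqrt (1 / r) with hαd
  set β := Real.sqrt ((1 - s / r) / s) with hβd
  have hpξ : ‖p ξ‖ ^ 2 = s := rfl
  have hnorm : ‖(α : ℂ) • (v * p) ξ‖ ^ 2 + ‖(β : ℂ) • (w * p) ξ‖ ^ 2 = 1 := by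
    have e1 : ‖(v * p) ξ‖ = ‖p ξ‖ := norm_isom_apply hvv (p ξ)
    have e2 : ‖(w * p) ξ‖ = ‖p ξ‖ := norm_isom_apply hww (p ξ)
    rw [norm_smul, norm_smul, e1, e2, Complex.norm_real, Complex.norm_real, mul_pow, mul_pow,
      Real.norm_eq_abs, Real.norm_eq_abs, sq_abs, sq_abs, hα, hβ, hpξ]
    field_simp
    ring
  have hζ : ‖(α : ℂ) • (1 - p) ξ‖ ^ 2 + ‖(0 : H)‖ ^ 2 = 1 := by
    rw [norm_smul, Complex.norm_real, mul_pow, Real.norm_eq_abs, sq_abs, hα, norm_zero, ← hrdef]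
    field_simp
    ring
  have hpn1 : star (1 - p) = 1 - p := by rw [star_sub, star_one, hps]
  have hex : ∀ n : ℕ, ∃ c ∈ N, ‖c‖ ≤ 1 ∧
      Defect N ξ 1 (r * (1 / ((n : ℝ) + 1)) + Real.sqrt (r * (1 / ((n : ℝ) + 1)))) c ∧
      s - r * (1 / ((n : ℝ) + 1)) ≤ ‖c ξ‖ ^ 2 ∧ p * c = 0 ∧ c * p = c := by
    intro n
    obtain ⟨u, hu, h1, -, h3⟩ := hst _ _ _ 0 hnorm hζ (1 / ((n : ℝ) + 1)) (by positivity)
    refine step hξ hp hu hv hps hpp hcent h1 hvv hwv hr hb (by positivity) fun x hx => ?_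
    have h4 := h3 x hx
    have e1 := inner_conj_aux u (v * p) x α ξ
    have e2 := inner_conj_aux u (w * p) x β ξ
    have e3 := inner_conj_aux 1 (1 - p) x α ξ
    rw [one_apply_eq_self, one_mul, hpn1, hα] at e3
    rw [hα] at e1
    rw [hβ] at e2
    rw [e1, e2, e3, inner_zero_left, add_zero] at h4
    exact h4
  choose c hcN hcn hcD hcs hpc hcp using hex
  have hlim : Tendsto (fun n : ℕ => r * (1 / ((n : ℝ) + 1))) atTop (𝓝 0) := by
    have := (tendsto_one_div_add_atTop_nhds_zero_nat (𝕜 := ℝ)).const_mul r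
    rwa [mul_zero] at this
  have hlim2 : Tendsto (fun n : ℕ => r * (1 / ((n : ℝ) + 1)) +
      Real.sqrt (r * (1 / ((n : ℝ) + 1)))) atTop (𝓝 0) := by
    have := hlim.add ((Real.continuous_sqrt.tendsto 0).comp hlim)
    rwa [Real.sqrt_zero, add_zero] at this
  have hc : LamSeq N ξ 1 c := by
    refine ⟨hcN, ⟨1, hcn⟩, fun ε hε => ?_⟩
    exact (hlim2.eventually (gt_mem_nhds hε)).mono fun n hn => (hcD n).mono hn.le
  have h1 := hB.2 c hc ξ
  have h2 : ∀ n, p (c n ξ) - c n (p ξ) = -(c n ξ) := by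
    intro n
    have e1 : p (c n ξ) = 0 := congrArg (fun Q : H →L[ℂ] H => Q ξ) (hpc n)
    have e2 : c n (p ξ) = c n ξ := congrArg (fun Q : H →L[ℂ] H => Q ξ) (hcp n)
    rw [e1, e2, zero_sub]
  simp only [h2] at h1
  have h3 := h1.norm.pow 2
  simp only [norm_neg, norm_zero] at h3
  have h4 : Tendsto (fun n : ℕ => s - r * (1 / ((n : ℝ) + 1))) atTop (𝓝 (s - 0)) :=
    hlim.const_sub s
  have h5 := le_of_tendsto_of_tendsto' h4 h3 hcs
  norm_num at h5
  linarith

lemma main_sa (S : Setting M N E ξ) (hIII : TypeIIIOne N) (hΨ : Modular M ξ R D Ψ)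
    {y : H →L[ℂ] H} (hys : star y = y) (hy : y ∈ N) (hB : y ∈ Bicent M N ξ)
    (hc : ∀ t : ℝ, Ψ (expB t) * y = y * Ψ (expB t)) : ∃ c : ℂ, y = c • 1 := by
  by_contra hcon
  push Not at hcon
  obtain ⟨p, hps, hpp, h0, h1, hT⟩ := exists_proj hys hcon
  have hmem : ∀ A : VonNeumannAlgebra H, y ∈ A → p ∈ A := by
    intro A hA
    refine mem_iff_commutes.2 fun g hg => hT g (mem_iff_commutes.1 hA g hg) ?_
    exact mem_iff_commutes.1 hA _ (star_mem hg)
  have hpN := hmem N hy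
  have hpB : p ∈ Bicent M N ξ := S.mem_Balg.1 (hmem S.Balg (S.mem_Balg.2 hB))
  have hpc : ∀ t : ℝ, Ψ (expB t) * p = p * Ψ (expB t) := by
    intro t
    refine hT _ (hc t) ?_
    rw [← map_star, expB_star]
    exact hc (-t)
  have hcent : ∀ x ∈ N, ⟪ξ, x (p ξ)⟫_ℂ = ⟪ξ, p (x ξ)⟫_ℂ := fun x hx =>
    cent_of_comm hΨ (S.le p hpN) hps hpc (S.le x hx)
  rcases le_total (‖p ξ‖ ^ 2) (‖(1 - p) ξ‖ ^ 2) with h | h
  · exact contra S hIII hpN hps hpp hpB hcent h0 h
  · have hq : (1 : H →L[ℂ] H) - (1 - p) = p := by rw [sub_sub_cancel]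
    refine contra S hIII (p := 1 - p) (sub_mem (one_mem N) hpN) ?_ ?_
      (bicent_sub AP.bicent_one hpB) ?_ ?_ ?_
    · rw [star_sub, star_one, hps]
    · rw [sub_mul, one_mul, mul_sub, mul_one, hpp, sub_self, sub_zero]
    · intro x hx
      rw [sub_apply, sub_apply, map_sub, inner_sub_right, inner_sub_right, hcent x hx,
        one_apply_eq_self, one_apply_eq_self]
    · intro h2
      exact h1 (sub_eq_zero.1 h2).symm
    · rw [hq]; exact h

end Scalar

theorem Setting.scalar_of_fixed (S : Setting M N E ξ) (hIII : TypeIIIOne N)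
    (hΨ : Modular M ξ R D Ψ) {y : H →L[ℂ] H} (hy : y ∈ N) (hB : y ∈ Bicent M N ξ)
    (h1 : ∀ G : ℝ →ᵇ ℂ, Ψ G (y ξ) = G 0 • y ξ)
    (h2 : ∀ G : ℝ →ᵇ ℂ, Ψ G ((star y) ξ) = G 0 • (star y) ξ) : ∃ c : ℂ, y = c • 1 := by
  have key : ∀ z : H →L[ℂ] H, star z = z → z ∈ N → z ∈ Bicent M N ξ →
      (∀ G : ℝ →ᵇ ℂ, Ψ G (z ξ) = G 0 • z ξ) → ∃ c : ℂ, z = c • 1 := by
    intro z hzs hz hzB hG
    refine Scalar.main_sa S hIII hΨ hzs hz hzB fun t => ?_
    have e0 : ∀ s : ℝ, expB s 0 = 1 := fun s => by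
      rw [expB_apply, mul_zero, Complex.ofReal_zero, zero_mul, Complex.exp_zero]
    have e1 : Ψ (expB t) * z * Ψ (expB (-t)) = z := by
      have e2 : (Ψ (expB t) * z * Ψ (expB (-t)) - z) ξ = 0 := by
        rw [sub_apply]
        change Ψ (expB t) (z (Ψ (expB (-t)) ξ)) - z ξ = 0
        rw [hΨ.psi_xi, e0, one_smul, hG, e0, one_smul, sub_self]
      have e3 := S.sep _ (sub_mem (hΨ.mem t z (S.le z hz)) (S.le z hz)) e2
      exact sub_eq_zero.1 e3
    have e4 : Ψ (expB (-t)) * Ψ (expB t) = 1 := by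
      rw [← map_mul, expB_mul, neg_add_cancel, expB_zero, map_one]
    calc Ψ (expB t) * z = Ψ (expB t) * z * (Ψ (expB (-t)) * Ψ (expB t)) := by rw [e4, mul_one]
      _ = (Ψ (expB t) * z * Ψ (expB (-t))) * Ψ (expB t) := by rw [mul_assoc (Ψ (expB t) * z)]
      _ = z * Ψ (expB t) := by rw [e1]
  have hysN : star y ∈ N := star_mem hy
  have hysB : star y ∈ Bicent M N ξ := S.bicent_star hB
  obtain ⟨a, ha⟩ := key (y + star y) (by rw [star_add, star_star, add_comm]) (add_mem hy hysN)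
    (AP.bicent_add hB hysB) fun G => by
      rw [add_apply, map_add, h1, h2, smul_add]
  obtain ⟨b, hb⟩ := key (Complex.I • (y - star y)) (by
      rw [star_smul, star_sub, star_star, Complex.star_def, Complex.conj_I, neg_smul, ← smul_neg,
        neg_sub]) (smul_mem' _ (sub_mem hy hysN))
    (AP.bicent_smul _ (bicent_sub hB hysB)) fun G => by
      rw [smul_apply, sub_apply, map_smul, map_sub, h1, h2, ← smul_sub, smul_comm]
  refine ⟨(a - Complex.I * b) / 2, ?_⟩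
  have e1 : (2 : ℂ) • y = (y + star y) - Complex.I • (Complex.I • (y - star y)) := by
    rw [smul_smul, Complex.I_mul_I, neg_one_smul, two_smul]
    abel
  rw [ha, hb, smul_smul, ← sub_smul] at e1
  have e2 : y = (2 : ℂ)⁻¹ • ((2 : ℂ) • y) := by
    rw [smul_smul, inv_mul_cancel₀ two_ne_zero, one_smul]
  rw [e2, e1, smul_smul]
  congr 1
  ring

end Pool.Agent.Helper23
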