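import Pool.Agent.V.Isom
import Pool.Agent.Helper23.VDefs

/-!
# V-2: invariance of the state along translated families
-/

open scoped InnerProductSpace Topology ENNReal BoundedContinuousFunction
open ContinuousLinearMap Filter MeasureTheory

namespace Pool.Agent.Helper23

universe u

variable {H : Type u} [NormedAddCommGroup H] [InnerProductSpace ℂ H] [CompleteSpace H]
variable {M N : VonNeumannAlgebra H} {ξ : H} {E : (H →L[ℂ] H) → (H →L[ℂ] H)}
variable {R : H →L[ℂ] H} {D : H →L[ℝ] H} {Ψ : (ℝ →ᵇ ℂ) →⋆ₐ[ℂ] (H →L[ℂ] H)}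

namespace VState

/-- A continuous function which satisfies the convexity relation is constant. -/
theorem const_of_rel {k : ℝ → ℂ} (hk : Continuous k)
    (h : ∀ t : ℝ, 0 < t → t < 1 → ∀ c, k c = (t : ℂ) * k (c + Real.log t) +
      ((1 - t : ℝ) : ℂ) * k (c + Real.log (1 - t))) (c : ℝ) : k c = k 0 := by
  have hper : ∀ m : ℕ, ∀ c, k (c + Real.log ((m : ℝ) + 1)) = k c := by
    intro m
    induction m with
    | zero => intro c; simp
    | succ m ih =>
      have hm : (0 : ℝ) < (m : ℝ) + 1 := by positivity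
      have hm2 : (0 : ℝ) < (m : ℝ) + 2 := by positivity
      have key : ∀ c, k c = k (c - Real.log ((m : ℝ) + 2)) := by
        intro c
        have h1 := h (((m : ℝ) + 2)⁻¹) (by positivity)
          (inv_lt_one_of_one_lt₀ (by linarith)) c
        have e1 : Real.log (((m : ℝ) + 2)⁻¹) = - Real.log ((m : ℝ) + 2) := Real.log_inv _
        have e2 : (1 : ℝ) - ((m : ℝ) + 2)⁻¹ = ((m : ℝ) + 1) / ((m : ℝ) + 2) := by
          field_simp
          ring
        have e3 : Real.log ((1 : ℝ) - ((m : ℝ) + 2)⁻¹) =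
            Real.log ((m : ℝ) + 1) - Real.log ((m : ℝ) + 2) := by
          rw [e2, Real.log_div hm.ne' hm2.ne']
        rw [e3, e1] at h1
        have e4 : k (c + (Real.log ((m : ℝ) + 1) - Real.log ((m : ℝ) + 2))) =
            k (c - Real.log ((m : ℝ) + 2)) := by
          rw [← ih (c - Real.log ((m : ℝ) + 2))]
          congr 1
          ring
        rw [e4, ← sub_eq_add_neg] at h1
        rw [h1]
        push_cast
        ring
      intro c
      have h2 := key (c + Real.log ((m : ℝ) + 2))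
      rw [add_sub_cancel_right] at h2
      rw [← h2]
      push_cast
      congr 2
      ring_nf
  have hrat : ∀ p q : ℕ, 0 < p → k (Real.log ((p : ℝ) / ((q : ℝ) + 1))) = k 0 := by
    intro p q hp
    obtain ⟨p, rfl⟩ : ∃ p', p = p' + 1 := ⟨p - 1, by omega⟩
    have hq : ((q : ℝ) + 1) ≠ 0 := by positivity
    have hp' : (((p + 1 : ℕ) : ℝ)) ≠ 0 := by positivity
    rw [Real.log_div hp' hq]
    have h1 := hper q (Real.log (((p + 1 : ℕ) : ℝ)) - Real.log ((q : ℝ) + 1))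
    rw [sub_add_cancel] at h1
    rw [← h1]
    have h2 := hper p 0
    rw [zero_add] at h2
    rw [← h2]
    push_cast
    rfl
  have ht : Tendsto (fun n : ℕ => ((⌈Real.exp c * ((n : ℝ) + 1)⌉₊ : ℝ)) / ((n : ℝ) + 1)) atTop
      (𝓝 (Real.exp c)) := by
    have h1 := tendsto_nat_ceil_mul_div_atTop (R := ℝ) (Real.exp_pos c).le
    have h2 : Tendsto (fun n : ℕ => (n : ℝ) + 1) atTop atTop :=
      tendsto_atTop_add_const_right _ _ tendsto_natCast_atTop_atTop
    exact h1.comp h2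
  have ht2 : Tendsto (fun n : ℕ => k (Real.log (((⌈Real.exp c * ((n : ℝ) + 1)⌉₊ : ℝ)) /
      ((n : ℝ) + 1)))) atTop (𝓝 (k (Real.log (Real.exp c)))) :=
    (hk.tendsto _).comp ((Real.continuousAt_log (Real.exp_pos c).ne').tendsto.comp ht)
  rw [Real.log_exp] at ht2
  refine tendsto_nhds_unique ht2 ?_
  refine tendsto_const_nhds.congr fun n => (hrat _ _ ?_).symm
  exact Nat.ceil_pos.2 (by positivity)

/-- the limit of the compressed states -/
theorem tendsto_comp {l : ℝ} (hl : 0 < l) (hξ : ‖ξ‖ = 1) {x : ℝ → H →L[ℂ] H}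
    (hx : Fam M N ξ x) {a : ℕ → H →L[ℂ] H} (ha : LamSeq N ξ l a)
    (ha1 : ∀ n, star (a n) * a n = 1) (c : ℝ) :
    Tendsto (fun n => ⟪ξ, (star (a n) * x (c + Real.log l) * a n) ξ⟫_ℂ) atTop
      (𝓝 ⟪ξ, x c ξ⟫_ℂ) := by
  have h1 := hx.shift c l hl a ha ξ
  have h2 : Tendsto (fun n => ⟪ξ, x c ξ⟫_ℂ - ⟪a n ξ, (a n * x c - x (c + Real.log l) * a n) ξ⟫_ℂ)
      atTop (𝓝 (⟪ξ, x c ξ⟫_ℂ - 0)) := by
    refine tendsto_const_nhds.sub ?_
    refine squeeze_zero_norm (a := fun n => ‖(a n * x c - x (c + Real.log l) * a n) ξ‖) ?_ ?_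
    · intro n
      refine (norm_inner_le_norm _ _).trans ?_
      rw [norm_isom_apply (ha1 n), hξ, one_mul]
    · simpa using h1.norm
  rw [sub_zero] at h2
  refine h2.congr fun n => ?_
  have e1 : ⟪a n ξ, (a n * x c - x (c + Real.log l) * a n) ξ⟫_ℂ =
      ⟪ξ, x c ξ⟫_ℂ - ⟪ξ, (star (a n) * x (c + Real.log l) * a n) ξ⟫_ℂ := by
    have e2 : (a n * x c - x (c + Real.log l) * a n) ξ =
        a n (x c ξ) - x (c + Real.log l) (a n ξ) := rfl
    have e3 : (star (a n) * x (c + Real.log l) * a n) ξ =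
        (star (a n)) (x (c + Real.log l) (a n ξ)) := rfl
    rw [e2, e3, inner_sub_right, inner_star_right]
    congr 1
    rw [← inner_star_right]
    have e4 : (star (a n)) (a n (x c ξ)) = (star (a n) * a n) (x c ξ) := rfl
    rw [e4, ha1 n]
    rfl
  rw [e1]
  ring

end VState

theorem Setting.fam_state (S : Setting M N E ξ) (hIII : TypeIIIOne N) {x : ℝ → H →L[ℂ] H}
    (hx : Fam M N ξ x) (c : ℝ) : ⟪ξ, x c ξ⟫_ℂ = ⟪ξ, x 0 ξ⟫_ℂ := by
  have hk : Continuous fun c => ⟪ξ, x c ξ⟫_ℂ := continuous_const.inner (hx.cont ξ)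
  refine VState.const_of_rel (k := fun c => ⟪ξ, x c ξ⟫_ℂ) hk ?_ c
  intro t h0 h1 c
  obtain ⟨a, b, ha, hb, ha1, hb1, -, hab⟩ := hIII.exists_isometries S.norm_one h0 h1
  have h1t : 0 < 1 - t := by linarith
  have hA := VState.tendsto_comp (inv_pos.2 h0) S.norm_one hx ha ha1 (c + Real.log t)
  have hB := VState.tendsto_comp (inv_pos.2 h1t) S.norm_one hx hb hb1 (c + Real.log (1 - t))
  have ec : c + Real.log t + Real.log t⁻¹ = c := by rw [Real.log_inv]; ring
  have ec' : c + Real.log (1 - t) + Real.log (1 - t)⁻¹ = c := by rw [Real.log_inv]; ring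
  rw [ec] at hA
  rw [ec'] at hB
  have hlim : Tendsto (fun n => (t : ℂ) * ⟪ξ, (star (a n) * x c * a n) ξ⟫_ℂ +
      ((1 - t : ℝ) : ℂ) * ⟪ξ, (star (b n) * x c * b n) ξ⟫_ℂ) atTop
      (𝓝 ((t : ℂ) * ⟪ξ, x (c + Real.log t) ξ⟫_ℂ +
        ((1 - t : ℝ) : ℂ) * ⟪ξ, x (c + Real.log (1 - t)) ξ⟫_ℂ)) :=
    (hA.const_mul _).add (hB.const_mul _)
  have hcomp : ∀ {d : H →L[ℂ] H}, d ∈ N →
      ⟪ξ, (star d * E (x c) * d) ξ⟫_ℂ = ⟪ξ, (star d * x c * d) ξ⟫_ℂ := by
    intro d hd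
    have h2 := S.E_state (star d * x c * d)
      (mul_mem (mul_mem (star_mem (S.le d hd)) (hx.mem c)) (S.le d hd))
    rw [S.E_bimod _ (star_mem hd) _ hd _ (hx.mem c)] at h2
    exact h2
  have hlim2 : Tendsto (fun n => (t : ℂ) * ⟪ξ, (star (a n) * x c * a n) ξ⟫_ℂ +
      ((1 - t : ℝ) : ℂ) * ⟪ξ, (star (b n) * x c * b n) ξ⟫_ℂ) atTop (𝓝 ⟪ξ, x c ξ⟫_ℂ) := by
    rw [Metric.tendsto_nhds]
    intro ε hε
    have hC : 0 < ‖E (x c)‖ + 1 := by positivity
    filter_upwards [hab (ε / (2 * (‖E (x c)‖ + 1))) (by positivity)] with n hn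
    have h3 := hn (E (x c)) (S.E_mem _ (hx.mem c))
    rw [hcomp (ha.1 n), hcomp (hb.1 n), S.E_state _ (hx.mem c)] at h3
    rw [dist_comm, dist_eq_norm]
    refine lt_of_le_of_lt h3 ?_
    have h4 : ε / (2 * (‖E (x c)‖ + 1)) * ‖E (x c)‖ ≤
        ε / (2 * (‖E (x c)‖ + 1)) * (‖E (x c)‖ + 1) := by
      gcongr
      linarith
    have h5 : ε / (2 * (‖E (x c)‖ + 1)) * (‖E (x c)‖ + 1) = ε / 2 := by
      field_simp
    linarith
  exact tendsto_nhds_unique hlim2 hlim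

end Pool.Agent.Helper23
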