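import Pool.Agent.Helper23.VDefs

/-!
# Gaussian windows and the unitary of the modular group
-/

open scoped InnerProductSpace Topology ENNReal BoundedContinuousFunction
open ContinuousLinearMap Filter MeasureTheory

namespace Pool.Agent.Helper23

universe u

variable {H : Type u} [NormedAddCommGroup H] [InnerProductSpace ℂ H] [CompleteSpace H]
variable {M N : VonNeumannAlgebra H} {ξ : H} {R : H →L[ℂ] H} {D : H →L[ℝ] H}
  {Ψ : (ℝ →ᵇ ℂ) →⋆ₐ[ℂ] (H →L[ℂ] H)}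

theorem wn_apply {ε : ℝ} (hε : 0 < ε) (r ρ : ℝ) :
    wn ε hε r ρ = ((Real.exp (-(ε * (ρ - r) ^ 2)) : ℝ) : ℂ) := by
  rw [wn, BoundedContinuousFunction.smul_apply, Helper70.U8.GB_apply, smul_eq_mul,
    ← Complex.ofReal_mul, ← Real.exp_add]
  congr 2
  ring

theorem ewn_apply {ε : ℝ} (hε : 0 < ε) (r ρ : ℝ) :
    ewn ε hε r ρ = ((Real.exp ρ * Real.exp (-(ε * (ρ - r) ^ 2)) : ℝ) : ℂ) := by
  rw [ewn, BoundedContinuousFunction.smul_apply, Helper70.U8.GB_apply, smul_eq_mul,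
    ← Complex.ofReal_mul, ← Real.exp_add, ← Real.exp_add]
  congr 2
  ring

namespace Window

/-- the distance of two translates -/
noncomputable def dst (f : L2R ℂ) (r : ℝ) : ℝ →ᵇ ℂ :=
  BoundedContinuousFunction.ofNormedAddCommGroup
    (fun ρ : ℝ => ((‖tr ℂ (-r) f - tr ℂ (-ρ) f‖ : ℝ) : ℂ))
    (Complex.continuous_ofReal.comp
      (continuous_const.sub ((tr_continuous f).comp continuous_neg)).norm) (2 * ‖f‖) (by
      intro ρ
      rw [Complex.norm_real, norm_norm]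
      refine (norm_sub_le _ _).trans ?_
      rw [tr_norm, tr_norm, two_mul])

lemma dst_apply (f : L2R ℂ) (r ρ : ℝ) :
    dst f r ρ = ((‖tr ℂ (-r) f - tr ℂ (-ρ) f‖ : ℝ) : ℂ) := rfl

lemma dst_sq (f : L2R ℂ) (r : ℝ) :
    star (dst f r) * dst f r =
      ((2 * ‖f‖ ^ 2 : ℝ) : ℂ) • (1 : ℝ →ᵇ ℂ) - (kap (tr ℂ (-r) f) f + star (kap (tr ℂ (-r) f) f)) := by
  ext ρ
  have h1 : (1 : ℝ →ᵇ ℂ) ρ = 1 := rfl
  simp only [BoundedContinuousFunction.sub_apply, BoundedContinuousFunction.add_apply,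
    BoundedContinuousFunction.mul_apply, BoundedContinuousFunction.star_apply,
    BoundedContinuousFunction.smul_apply, Complex.star_def, smul_eq_mul, dst_apply, kap_apply, h1,
    Complex.conj_ofReal, mul_one]
  rw [Complex.add_conj, ← Complex.ofReal_mul, ← Complex.ofReal_sub]
  congr 1
  have h2 := norm_sub_sq (𝕜 := ℂ) (tr ℂ (-r) f) (tr ℂ (-ρ) f)
  rw [← pow_two, h2, tr_norm, tr_norm]
  simp only [RCLike.re_to_complex]
  ring

lemma dst_le {f : L2R ℂ} {L : ℝ} (hf : ∀ h : ℝ, ‖tr ℂ h f - f‖ ≤ L * |h|) (r ρ : ℝ) :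
    ‖dst f r ρ‖ ≤ L * |ρ - r| := by
  rw [dst_apply, Complex.norm_real, norm_norm]
  have h1 : tr ℂ (-r) f - tr ℂ (-ρ) f = tr ℂ (-ρ) (tr ℂ (ρ - r) f - f) := by
    rw [map_sub, tr_tr]
    congr 3
    ring
  rw [h1, tr_norm]
  exact hf _

lemma lip_nonneg {f : L2R ℂ} {L : ℝ} (hf : ∀ h : ℝ, ‖tr ℂ h f - f‖ ≤ L * |h|) : 0 ≤ L := by
  have h1 := (norm_nonneg _).trans (hf 1)
  rwa [abs_one, mul_one] at h1

lemma gauss_le {ε : ℝ} (hε : 0 < ε) (x : ℝ) :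
    |x| * Real.exp (-(ε * x ^ 2)) ≤ (Real.sqrt ε)⁻¹ * Real.exp (-(ε / 2 * x ^ 2)) := by
  have h1 : ε * x ^ 2 ≤ Real.exp (ε * x ^ 2) := by
    have := Real.add_one_le_exp (ε * x ^ 2)
    linarith
  have h2 : Real.sqrt ε * |x| ≤ Real.exp (ε / 2 * x ^ 2) := by
    refine (pow_le_pow_iff_left₀ (by positivity) (by positivity) two_ne_zero).1 ?_
    rw [mul_pow, Real.sq_sqrt hε.le, sq_abs, ← Real.exp_nat_mul]
    refine h1.trans (le_of_eq ?_)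
    congr 1
    push_cast
    ring
  have h3 : Real.exp (-(ε / 2 * x ^ 2)) = Real.exp (ε / 2 * x ^ 2) * Real.exp (-(ε * x ^ 2)) := by
    rw [← Real.exp_add]
    congr 1
    ring
  have h4 : 0 < Real.sqrt ε := Real.sqrt_pos.2 hε
  rw [h3, ← mul_assoc]
  refine mul_le_mul_of_nonneg_right ?_ (Real.exp_pos _).le
  rw [← div_eq_inv_mul, le_div_iff₀ h4, mul_comm]
  exact h2

lemma wn_sq {ε : ℝ} (hε : 0 < ε) (r : ℝ) :
    star (wn (ε / 2) (half_pos hε) r) * wn (ε / 2) (half_pos hε) r = wn ε hε r := by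
  ext ρ
  rw [BoundedContinuousFunction.mul_apply, BoundedContinuousFunction.star_apply, wn_apply,
    wn_apply, Complex.star_def, Complex.conj_ofReal, ← Complex.ofReal_mul, ← Real.exp_add]
  congr 2
  ring

lemma norm_psi_sq (Ψ : (ℝ →ᵇ ℂ) →⋆ₐ[ℂ] (H →L[ℂ] H)) (G : ℝ →ᵇ ℂ) (v : H) :
    ‖Ψ G v‖ ^ 2 = (⟪v, Ψ (star G * G) v⟫_ℂ).re := by
  rw [psi_mul_apply, ← psi_adj, inner_self_eq_norm_sq_to_K]
  norm_cast

end Window

open Window

theorem Modular.window (hΨ : Modular M ξ R D Ψ) {f : L2R ℂ} {L : ℝ}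
    (hf : ∀ h : ℝ, ‖tr ℂ h f - f‖ ≤ L * |h|) {ε : ℝ} (hε : 0 < ε) (r : ℝ) (η : H) :
    ‖WW Ψ (ten f (Ψ (wn ε hε r) η)) - ten (tr ℂ (-r) f) (Ψ (wn ε hε r) η)‖ ^ 2 ≤
      L ^ 2 / ε * (⟪η, Ψ (wn ε hε r) η⟫_ℂ).re := by
  have hL := lip_nonneg hf
  have hWn : ∀ F : L2R H, ‖WW Ψ F‖ = ‖F‖ := by
    intro F
    refine norm_of_isom ?_ F
    rw [WW, hΨ.W_star, hΨ.W_mul']
  set w : H := Ψ (wn ε hε r) η with hw
  -- the left side
  have h1 : ‖WW Ψ (ten f w) - ten (tr ℂ (-r) f) w‖ ^ 2 = ‖Ψ (dst f r) w‖ ^ 2 := by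
    rw [norm_sub_rev, norm_sub_sq (𝕜 := ℂ), hWn, norm_ten, norm_ten, tr_norm]
    have hk : ⟪ten (tr ℂ (-r) f) w, WW Ψ (ten f w)⟫_ℂ = ⟪w, Ψ (kap (tr ℂ (-r) f) f) w⟫_ℂ :=
      hΨ.key _ _ _ _
    have hww : ⟪w, w⟫_ℂ = ((‖w‖ ^ 2 : ℝ) : ℂ) := by
      rw [inner_self_eq_norm_sq_to_K]
      norm_cast
    rw [hk, norm_psi_sq, dst_sq, map_sub, map_add, map_smul, map_one, sub_apply, add_apply,
      smul_apply, one_apply_eq_self, inner_sub_right, inner_add_right, inner_smul_right,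
      ← psi_adj, hww, ← inner_conj_symm (Ψ (kap (tr ℂ (-r) f) f) w) w,
      Complex.add_conj, ← Complex.ofReal_mul, ← Complex.ofReal_sub, Complex.ofReal_re]
    simp only [RCLike.re_to_complex]
    ring
  have h2 : Ψ (dst f r) w = Ψ (dst f r * wn ε hε r) η := by rw [psi_mul_apply]
  have h3 : ‖Ψ (dst f r * wn ε hε r) η‖ ≤
      (L * (Real.sqrt ε)⁻¹) * ‖Ψ (wn (ε / 2) (half_pos hε) r) η‖ := by
    refine psi_dom Ψ (by positivity) (fun ρ => ?_) η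
    rw [BoundedContinuousFunction.mul_apply, norm_mul, wn_apply, wn_apply, Complex.norm_real,
      Complex.norm_real, Real.norm_of_nonneg (Real.exp_pos _).le,
      Real.norm_of_nonneg (Real.exp_pos _).le, mul_assoc L]
    calc ‖dst f r ρ‖ * Real.exp (-(ε * (ρ - r) ^ 2)) ≤
          L * |ρ - r| * Real.exp (-(ε * (ρ - r) ^ 2)) :=
          mul_le_mul_of_nonneg_right (dst_le hf r ρ) (Real.exp_pos _).le
      _ = L * (|ρ - r| * Real.exp (-(ε * (ρ - r) ^ 2))) := by ring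
      _ ≤ _ := mul_le_mul_of_nonneg_left (gauss_le hε _) hL
  rw [h1, h2]
  refine (pow_le_pow_left₀ (norm_nonneg _) h3 2).trans (le_of_eq ?_)
  rw [mul_pow, norm_psi_sq, wn_sq, mul_pow, inv_pow, Real.sq_sqrt hε.le, div_eq_mul_inv]

end Pool.Agent.Helper23
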