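import Pool.Agent.V.CommW
import Pool.Agent.V.Kms
import Pool.Agent.V.Window

/-!
# The window inequality
-/

open scoped InnerProductSpace Topology ENNReal BoundedContinuousFunction
open ContinuousLinearMap Filter MeasureTheory

namespace Pool.Agent.Helper23

universe u

variable {H : Type u} [NormedAddCommGroup H] [InnerProductSpace ℂ H] [CompleteSpace H]
variable {M N : VonNeumannAlgebra H} {ξ : H} {E : (H →L[ℂ] H) → (H →L[ℂ] H)}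
variable {R : H →L[ℂ] H} {D : H →L[ℝ] H} {Ψ : (ℝ →ᵇ ℂ) →⋆ₐ[ℂ] (H →L[ℂ] H)}

namespace Ineq

/-- the square root of `ewn` -/
noncomputable def sq (ε : ℝ) (hε : 0 < ε) (r : ℝ) : ℝ →ᵇ ℂ :=
  ((Real.exp (-(ε / 2 * r ^ 2)) : ℝ) : ℂ) •
    Helper70.U8.GB (ε / 2) (half_pos hε) (2 * (ε / 2) * r + 1 / 2)

lemma sq_sq {ε : ℝ} (hε : 0 < ε) (r : ℝ) : star (sq ε hε r) * sq ε hε r = ewn ε hε r := by
  ext ρ
  rw [BoundedContinuousFunction.mul_apply, BoundedContinuousFunction.star_apply, ewn_apply, sq,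
    BoundedContinuousFunction.smul_apply, Helper70.U8.GB_apply, smul_eq_mul,
    ← Complex.ofReal_mul, ← Real.exp_add, Complex.star_def, Complex.conj_ofReal,
    ← Complex.ofReal_mul, ← Real.exp_add, ← Real.exp_add]
  congr 2
  ring

lemma re_psi_sq (Ψ : (ℝ →ᵇ ℂ) →⋆ₐ[ℂ] (H →L[ℂ] H)) {ε : ℝ} (hε : 0 < ε) (r : ℝ) (v : H) :
    (⟪v, Ψ (ewn ε hε r) v⟫_ℂ).re = ‖Ψ (sq ε hε r) v‖ ^ 2 := by
  rw [Window.norm_psi_sq, sq_sq]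

/-- Cauchy-Schwarz for the positive operator `Ψ (ewn ε r)` -/
lemma cs (Ψ : (ℝ →ᵇ ℂ) →⋆ₐ[ℂ] (H →L[ℂ] H)) {ε : ℝ} (hε : 0 < ε) (r : ℝ) (v w : H) {e : ℝ}
    (hv : (⟪v, Ψ (ewn ε hε r) v⟫_ℂ).re = e) (hw : (⟪w, Ψ (ewn ε hε r) w⟫_ℂ).re = e) :
    ‖⟪Ψ (ewn ε hε r) v, w⟫_ℂ‖ ≤ e := by
  have h1 : ⟪Ψ (ewn ε hε r) v, w⟫_ℂ = ⟪Ψ (sq ε hε r) v, Ψ (sq ε hε r) w⟫_ℂ := by
    rw [← sq_sq, psi_adj, psi_adj, ← psi_mul_apply, star_mul, star_star]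
  rw [re_psi_sq] at hv hw
  rw [h1]
  refine (norm_inner_le_norm _ _).trans ?_
  nlinarith [sq_nonneg (‖Ψ (sq ε hε r) v‖ - ‖Ψ (sq ε hε r) w‖)]

lemma le_of_sq' {x ε L e : ℝ} (hε : 0 < ε) (hL : 0 ≤ L) (he : 0 ≤ e)
    (h : x ^ 2 ≤ L ^ 2 / ε * e) : x ≤ L / Real.sqrt ε * Real.sqrt e := by
  refine abs_le_of_sq_le_sq' ?_ (by positivity) |>.2
  rwa [mul_pow, div_pow, Real.sq_sqrt hε.le, Real.sq_sqrt he]

lemma lip_tr {g : L2R ℂ} {L : ℝ} (hg : ∀ h : ℝ, ‖tr ℂ h g - g‖ ≤ L * |h|) (r : ℝ) (h : ℝ) :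
    ‖tr ℂ h (tr ℂ r g) - tr ℂ r g‖ ≤ L * |h| := by
  have h1 : tr ℂ h (tr ℂ r g) - tr ℂ r g = tr ℂ r (tr ℂ h g - g) := by
    rw [map_sub, tr_tr, tr_tr, add_comm]
  rw [h1, tr_norm]
  exact hg h

lemma norm_slice {X : L2R H →L[ℂ] L2R H} (f : L2R ℂ) (hξ : ‖ξ‖ = 1) :
    ‖X (ten f ξ)‖ ≤ ‖X‖ * ‖f‖ := by
  refine (X.le_opNorm _).trans ?_
  rw [norm_ten, hξ, mul_one]

/-- the KMS condition for windows -/
lemma kms_wn (hΨ : Modular M ξ R D Ψ) {a b : H →L[ℂ] H} (ha : a ∈ M) (hb : b ∈ M)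
    {ε : ℝ} (hε : 0 < ε) (r : ℝ) :
    ⟪(star a) ξ, Ψ (wn ε hε r) ((star b) ξ)⟫_ℂ = ⟪Ψ (ewn ε hε (-r)) (b ξ), a ξ⟫_ℂ := by
  rw [wn, ewn, map_smul, map_smul, smul_apply, smul_apply, inner_smul_right, inner_smul_left,
    hΨ.kms ha hb, Complex.conj_ofReal, neg_sq]
  congr 6
  ring

lemma exists_b (hΨ : Modular M ξ R D Ψ) {B : VonNeumannAlgebra H}
    (hB : ∀ (t : ℝ), ∀ a ∈ B, Ψ (expB t) * a * Ψ (expB (-t)) ∈ B) {b : H →L[ℂ] H} (hb : b ∈ B)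
    {ε : ℝ} (hε : 0 < ε) (r : ℝ) :
    ∃ b' ∈ B, b' ξ = Ψ (wn ε hε r) ((star b) ξ) ∧
      (star b') ξ = Ψ (wn ε hε (-r)) (b ξ) := by
  obtain ⟨b', h1, h2, h3⟩ := hΨ.exists_sm hB (star_mem hb) hε (2 * ε * r)
  refine ⟨((Real.exp (-(ε * r ^ 2)) : ℝ) : ℂ) • b', B.toStarSubalgebra.smul_mem h1 _, ?_, ?_⟩
  · rw [smul_apply, h2, wn, map_smul, smul_apply]
  · rw [star_smul, smul_apply, h3, star_star, wn, map_smul, smul_apply, Complex.star_def,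
      Complex.conj_ofReal, neg_sq, mul_neg]

/-- the window inequality, from the invariance of the Gaussian moments -/
lemma core (S : Setting M N E ξ) (hΨ : Modular M ξ R D Ψ)
    (hσ : ∀ (t : ℝ), ∀ a ∈ N, Ψ (expB t) * a * Ψ (expB (-t)) ∈ N) {X : L2R H →L[ℂ] L2R H}
    (hX : X ∈ Rk M N ξ) {f g : L2R ℂ} {Lf Lg : ℝ} (hf : ∀ h : ℝ, ‖tr ℂ h f - f‖ ≤ Lf * |h|)
    (hg : ∀ h : ℝ, ‖tr ℂ h g - g‖ ≤ Lg * |h|) {ε : ℝ} (hε : 0 < ε) (r : ℝ)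
    (hinv : ∀ κ : ℝ, ⟪E (slX X (tr ℂ r f) (tr ℂ r g)) ξ,
      Ψ (Helper70.U8.GB ε hε κ) (E (slX X (tr ℂ r f) (tr ℂ r g)) ξ)⟫_ℂ =
      ⟪E (slX X f g) ξ, Ψ (Helper70.U8.GB ε hε κ) (E (slX X f g) ξ)⟫_ℂ) :
    (⟪E (slX X f g) ξ, Ψ (wn ε hε (-r)) (E (slX X f g) ξ)⟫_ℂ).re ≤
      (⟪E (slX X f g) ξ, Ψ (ewn ε hε (-r)) (E (slX X f g) ξ)⟫_ℂ).re +
      ‖X‖ * (‖f‖ * Lg + ‖g‖ * Lf) / Real.sqrt ε *
        (Real.sqrt (⟪E (slX X f g) ξ, Ψ (wn ε hε (-r)) (E (slX X f g) ξ)⟫_ℂ).re +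
          Real.sqrt (⟪E (slX X f g) ξ, Ψ (ewn ε hε (-r)) (E (slX X f g) ξ)⟫_ℂ).re) := by
  have hLf : 0 ≤ Lf := Window.lip_nonneg hf
  have hLg : 0 ≤ Lg := Window.lip_nonneg hg
  have hse : 0 < Real.sqrt ε := Real.sqrt_pos.2 hε
  have hu0 : slX X f g ∈ M := slX_mem hX.1 f g
  have hur : slX X (tr ℂ r f) (tr ℂ r g) ∈ M := slX_mem hX.1 _ _
  have hy0 : E (slX X f g) ∈ N := S.E_mem _ hu0
  have hyr : E (slX X (tr ℂ r f) (tr ℂ r g)) ∈ N := S.E_mem _ hur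
  have hn : ⟪E (slX X (tr ℂ r f) (tr ℂ r g)) ξ,
      Ψ (wn ε hε (-r)) (E (slX X (tr ℂ r f) (tr ℂ r g)) ξ)⟫_ℂ =
      ⟪E (slX X f g) ξ, Ψ (wn ε hε (-r)) (E (slX X f g) ξ)⟫_ℂ := by
    rw [wn, map_smul, smul_apply, smul_apply, inner_smul_right, inner_smul_right, hinv]
  have he : ⟪E (slX X (tr ℂ r f) (tr ℂ r g)) ξ,
      Ψ (ewn ε hε (-r)) (E (slX X (tr ℂ r f) (tr ℂ r g)) ξ)⟫_ℂ =
      ⟪E (slX X f g) ξ, Ψ (ewn ε hε (-r)) (E (slX X f g) ξ)⟫_ℂ := by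
    rw [ewn, map_smul, smul_apply, smul_apply, inner_smul_right, inner_smul_right, hinv]
  set y0 := E (slX X f g) with hy0d
  set yr := E (slX X (tr ℂ r f) (tr ℂ r g)) with hyrd
  set n : ℝ := (⟪y0 ξ, Ψ (wn ε hε (-r)) (y0 ξ)⟫_ℂ).re with hnd
  set e : ℝ := (⟪y0 ξ, Ψ (ewn ε hε (-r)) (y0 ξ)⟫_ℂ).re with hed
  have hn' : (⟪yr ξ, Ψ (wn ε hε (-r)) (yr ξ)⟫_ℂ).re = n := by rw [hn]
  have he' : (⟪yr ξ, Ψ (ewn ε hε (-r)) (yr ξ)⟫_ℂ).re = e := by rw [he]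
  have hn0 : 0 ≤ n := by
    rw [hnd, ← Window.wn_sq, ← Window.norm_psi_sq]
    positivity
  have he0 : 0 ≤ e := by
    rw [hed, re_psi_sq]
    positivity
  obtain ⟨b, hb, hb1, hb2⟩ := exists_b hΨ hσ hyr hε r
  have hAB := S.rk_comm_WW hΨ hσ hX hb f (tr ℂ r g)
  -- the estimate of the left side
  have hA1 : ‖⟪(star X) (ten f ξ), WW Ψ (ten (tr ℂ r g) (b ξ))⟫_ℂ -
      ⟪(star X) (ten f ξ), ten g (b ξ)⟫_ℂ‖ ≤ ‖X‖ * ‖f‖ * (Lg / Real.sqrt ε * Real.sqrt e) := by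
    rw [← inner_sub_right]
    refine (norm_inner_le_norm _ _).trans ?_
    have h1 : ‖(star X) (ten f ξ)‖ ≤ ‖X‖ * ‖f‖ := by
      have := norm_slice (X := star X) f S.norm_one
      rwa [star_eq_adjoint, LinearIsometryEquiv.norm_map] at this
    have h2 : ‖WW Ψ (ten (tr ℂ r g) (b ξ)) - ten g (b ξ)‖ ≤ Lg / Real.sqrt ε * Real.sqrt e := by
      have h3 := hΨ.window (lip_tr hg r) hε r ((star yr) ξ)
      have h4 : tr ℂ (-r) (tr ℂ r g) = g := by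
        have := tr_tr_neg (-r) g
        rwa [neg_neg] at this
      rw [kms_wn hΨ (S.le _ hyr) (S.le _ hyr), ← inner_conj_symm, Complex.conj_re, he', ← hb1,
        h4] at h3
      exact le_of_sq' hε hLg he0 h3
    exact mul_le_mul h1 h2 (norm_nonneg _) (by positivity)
  have hA2 : ‖⟪(star X) (ten f ξ), ten g (b ξ)⟫_ℂ‖ ≤ e := by
    have h1 : ⟪(star X) (ten f ξ), ten g (b ξ)⟫_ℂ = ⟪Ψ (ewn ε hε (-r)) (yr ξ), y0 ξ⟫_ℂ := by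
      rw [← kms_wn hΨ (S.le _ hy0) (S.le _ hyr), ← hb1, inner_star_left, ← inner_slX,
        inner_star_left]
      have h2 := S.E_inner (one_mem N) hb hu0
      rw [one_apply_eq_self] at h2
      exact h2.symm
    rw [h1]
    exact cs Ψ hε (-r) _ _ he' hed.symm
  -- the estimate of the right side
  have hB1 : ‖⟪WW Ψ (ten f ((star b) ξ)), X (ten (tr ℂ r g) ξ)⟫_ℂ -
      ⟪ten (tr ℂ r f) ((star b) ξ), X (ten (tr ℂ r g) ξ)⟫_ℂ‖ ≤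
      (Lf / Real.sqrt ε * Real.sqrt n) * (‖X‖ * ‖g‖) := by
    rw [← inner_sub_left]
    refine (norm_inner_le_norm _ _).trans ?_
    have h1 : ‖X (ten (tr ℂ r g) ξ)‖ ≤ ‖X‖ * ‖g‖ := by
      have := norm_slice (X := X) (tr ℂ r g) S.norm_one
      rwa [tr_norm] at this
    have h2 : ‖WW Ψ (ten f ((star b) ξ)) - ten (tr ℂ r f) ((star b) ξ)‖ ≤
        Lf / Real.sqrt ε * Real.sqrt n := by
      have h3 := hΨ.window hf hε (-r) (yr ξ)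
      rw [hn', ← hb2, neg_neg] at h3
      exact le_of_sq' hε hLf hn0 h3
    exact mul_le_mul h2 h1 (norm_nonneg _) (by positivity)
  have hB2 : (⟪ten (tr ℂ r f) ((star b) ξ), X (ten (tr ℂ r g) ξ)⟫_ℂ).re = n := by
    have h2 := S.E_inner (star_mem hb) (one_mem N) hur
    rw [one_apply_eq_self] at h2
    rw [← inner_slX, ← h2, hb2, ← hyrd, ← inner_conj_symm, Complex.conj_re, hn']
  rw [hAB] at hA1
  set A := ⟪WW Ψ (ten f ((star b) ξ)), X (ten (tr ℂ r g) ξ)⟫_ℂ with hAd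
  set A' := ⟪(star X) (ten f ξ), ten g (b ξ)⟫_ℂ with hA'd
  set B' := ⟪ten (tr ℂ r f) ((star b) ξ), X (ten (tr ℂ r g) ξ)⟫_ℂ with hB'd
  have k1 : A.re - A'.re ≤ ‖X‖ * ‖f‖ * (Lg / Real.sqrt ε * Real.sqrt e) := by
    rw [← Complex.sub_re]
    exact (Complex.re_le_norm _).trans hA1
  have k2 : A'.re ≤ e := (Complex.re_le_norm _).trans hA2
  have k3 : B'.re - A.re ≤ (Lf / Real.sqrt ε * Real.sqrt n) * (‖X‖ * ‖g‖) := by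
    rw [← Complex.sub_re]
    refine (Complex.re_le_norm _).trans ?_
    rw [norm_sub_rev]
    exact hB1
  rw [hB2] at k3
  have k4 : ‖X‖ * (‖f‖ * Lg + ‖g‖ * Lf) / Real.sqrt ε * (Real.sqrt n + Real.sqrt e) =
      ‖X‖ * ‖f‖ * (Lg / Real.sqrt ε * Real.sqrt e) +
      (Lf / Real.sqrt ε * Real.sqrt n) * (‖X‖ * ‖g‖) +
      (‖X‖ * ‖f‖ * (Lg / Real.sqrt ε * Real.sqrt n) +
        (Lf / Real.sqrt ε * Real.sqrt e) * (‖X‖ * ‖g‖)) := by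
    ring
  have k5 : 0 ≤ ‖X‖ * ‖f‖ * (Lg / Real.sqrt ε * Real.sqrt n) +
        (Lf / Real.sqrt ε * Real.sqrt e) * (‖X‖ * ‖g‖) := by positivity
  rw [k4]
  linarith

end Ineq

end Pool.Agent.Helper23
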